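import Mathlib
import Pool.Agent.H14.R45.DispR
import Pool.Agent.H20.Q1.Hole

set_option autoImplicit false
open Finset

/-! # Displacement at the corners of a window, deterministic part

`E` : random labels, everything near the corner included; `W` : deterministic open labels; `M` : a box
around the corner. `LW`, `LC` : the walls are joined in the box. Toggling a label `t` near the corner has no
effect far away: `tog_M` (no open arm or no closed arm), `tog_W` (wired walls: no open cluster leaves the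
box without touching the wall), `tog_F` (free walls). `pat_ind` : several labels. -/

namespace Pool.Agent.H14.Win

open Pool.Agent.H75.Perc Pool.Agent.H75.TwoArm Pool.Agent.H75.Four Pool.Agent.H69.Q1
open Pool.Agent.Q1 Pool.Agent.H43.Q1 Pool.Agent.H39.Q1 Pool.Agent.H14.R45

variable {E W M N ω : Finset (ℤ × ℤ)} {t u v φ ψ c : ℤ × ℤ} {Vw Fw : ℤ × ℤ → Prop}

/-- the deterministic open labels of the box are joined in the box -/
structure LW (E W M : Finset (ℤ × ℤ)) (Vw : ℤ × ℤ → Prop) : Prop where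
  jo : ∀ x y, Vw x → Vw y → Co (W ∩ M) x y
  hit : ∀ x y y', IsUnit4 (y - x) → x + y ∈ W → x + y ∈ M → IsUnit4 (y' - x) →
    x + y' ∈ E ∩ M → Vw x

/-- the deterministic closed labels of the box are joined in the box -/
structure LC (E W M : Finset (ℤ × ℤ)) (Fw : ℤ × ℤ → Prop) : Prop where
  jo : ∀ f g, Fw f → Fw g → Co (du (M \ E) W) f g
  hit : ∀ f g g', IsUnit4 (g - f) → f + g - (1, 1) ∈ M → f + g - (1, 1) ∉ E →
    f + g - (1, 1) ∉ W → IsUnit4 (g' - f) → f + g' - (1, 1) ∈ E ∩ M → Fw f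

lemma LW.loc (L : LW E W M Vw) (ht : t ∈ E) (htM : t ∈ M) : LocW (E.erase t) W M t Vw := by
  refine ⟨L.jo, fun x y y' h1 h2 h3 h4 h5 => Or.inl (L.hit x y y' h1 h2 h3 h4 ?_)⟩
  rcases mem_insert.1 h5 with h | h
  · rw [h]; exact mem_inter.2 ⟨ht, htM⟩
  · exact mem_inter.2 ⟨mem_of_mem_erase (mem_inter.1 h).1, (mem_inter.1 h).2⟩

lemma LC.loc (L : LC E W M Fw) (ht : t ∈ E) (htM : t ∈ M) : LocC (E.erase t) W M t Fw := by
  refine ⟨?_, fun f g g' h1 h2 h3 h4 h5 h6 h7 => Or.inl (L.hit f g g' h1 h2 ?_ h4 h6 ?_)⟩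
  · rw [insert_erase ht]; exact L.jo
  · exact fun h => h3 (mem_erase.2 ⟨h5, h⟩)
  · rcases mem_insert.1 h7 with h | h
    · rw [h]; exact mem_inter.2 ⟨ht, htM⟩
    · exact mem_inter.2 ⟨mem_of_mem_erase (mem_inter.1 h).1, (mem_inter.1 h).2⟩

/-- the data of a toggle -/
structure Tg (Y : Env) (E W M ω : Finset (ℤ × ℤ)) (t c : ℤ × ℤ) : Prop where
  pl : Y.PlaneLike W
  hE : E ⊆ Y.E
  te : t ∈ E
  tM : t ∈ M
  dis : Disjoint E W
  hω : ω ⊆ E
  tω : t ∉ ω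

variable {Y : Env}

lemma Tg.tW (T : Tg Y E W M ω t c) : t ∉ W := disjoint_left.1 T.dis T.te

lemma Tg.er (T : Tg Y E W M ω t c) : ω ∩ (E.erase t ∩ M) = ω ∩ (E ∩ M) := by
  ext l
  simp only [mem_inter, mem_erase]
  constructor
  · rintro ⟨h1, ⟨-, h2⟩, h3⟩
    exact ⟨h1, h2, h3⟩
  · rintro ⟨h1, h2, h3⟩
    exact ⟨h1, ⟨fun h => T.tω (h ▸ h1), h2⟩, h3⟩

lemma Tg.sub (T : Tg Y E W M ω t c) : ω ⊆ E.erase t := fun _ hl =>
  mem_erase.2 ⟨fun h => T.tω (h ▸ hl), T.hω hl⟩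

/-- an end of `t` whose open cluster is confined and does not touch the wall -/
theorem conf_open (T : Tg Y E W M ω t c) (L : LW E W M Vw) {a a' : ℤ × ℤ}
    (g1 : IsUnit4 (a' - a)) (g2 : a + a' = t) (o0 : OutV M (vx Y.c0)) (oc : OutV M (vx c))
    (hD : DCo M (fi Y.c0) (fi c)) (hO : ∀ x, Co (ω ∩ (E ∩ M)) a x → InV M x)
    (hno : ¬ ∃ z, Vw z ∧ Co ((ω ∪ W) ∩ M) a z) : Y.incO ω c = Y.incO (insert t ω) c := by
  have hωY : ω ⊆ Y.E := T.hω.trans T.hE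
  have htw : t ∉ ω ∪ W := by
    rw [mem_union, not_or]; exact ⟨T.tω, T.tW⟩
  have LW' := L.loc T.te T.tM
  have hmono : ∀ {x}, Co (ω ∩ (E.erase t ∩ M)) a x → Co ((ω ∪ W) ∩ M) a x := by
    intro x hx
    refine hx.mono ?_
    intro e he
    obtain ⟨e1, e2⟩ := mem_inter.1 he
    exact mem_inter.2 ⟨mem_union_left _ e1, (mem_inter.1 e2).2⟩
  have hcl := fun x (hx : Co (ω ∪ W) a x) =>
    end_cases_open LW' T.sub g1 g2 (by rw [T.er]; exact hO) hno hx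
  have hout : ∀ x, OutV M x → ¬ Co (ω ∪ W) a x := by
    intro x ox hx
    rcases hcl x hx with ⟨-, h4⟩ | ⟨x', ⟨-, h4⟩, h5, -, -⟩
    · exact not_out_of_in h4 ox
    · exact ox x' (H39.Q1.unit_symm h5) (by rw [add_comm]; exact h4 x h5)
  by_cases hj : Co (ω ∪ W) a a'
  · have h3 : Co ((ω ∪ W) ∩ M) a a' := by
      rcases hcl a' hj with ⟨h4, -⟩ | ⟨x', ⟨h4, h6⟩, h5, h7, -⟩
      · exact hmono h4
      · exact (hmono h4).tail ⟨h5, mem_inter.2 ⟨mem_union_right _ h7, h6 _ h5⟩⟩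
    exact incO_toggle_A T.pl hωY (T.hE T.te) htw T.tM g1 g2 h3 hD
  · exact incO_toggle_B T.pl hωY (T.hE T.te) htw (H39.Q1.unit_symm g1) (by rw [add_comm]; exact g2)
      (fun h => hj h.symm) (hout _ o0) (hout _ oc)

/-- a side of `t` whose closed cluster is confined and does not touch the wall -/
theorem conf_closed (T : Tg Y E W M ω t c) (L : LC E W M Fw) {a a' : ℤ × ℤ}
    (g1 : IsUnit4 (a' - a)) (g2 : a + a' = t + (1, 1)) (o0 : OutF M (fi Y.c0)) (oc : OutF M (fi c))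
    (hN : Co N (vx Y.c0) (vx c)) (hNM : Disjoint N M)
    (hC : ∀ x, Co (du ((E.erase t) ∩ M) ω) a x → InF M x)
    (hno : ¬ ∃ z, Fw z ∧ Co (du (M.erase t) (ω ∪ W)) a z) : Y.incO ω c = Y.incO (insert t ω) c := by
  have hωY : ω ⊆ Y.E := T.hω.trans T.hE
  have htw : t ∉ ω ∪ W := by
    rw [mem_union, not_or]; exact ⟨T.tω, T.tW⟩
  have LC' := L.loc T.te T.tM
  have htE : t ∉ E.erase t := notMem_erase _ _
  have hEW : Disjoint (E.erase t) W := T.dis.mono_left (erase_subset _ _)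
  have hmono : ∀ {x}, Co (du ((E.erase t) ∩ M) ω) a x → Co (du (M.erase t) (ω ∪ W)) a x := by
    intro x hx
    refine hx.mono ?_
    intro e he
    unfold du at he ⊢
    obtain ⟨l, hl, he⟩ := mem_map.1 he
    obtain ⟨e1, e2⟩ := mem_sdiff.1 hl
    obtain ⟨e3, e4⟩ := mem_inter.1 e1
    refine mem_map.2 ⟨l, mem_sdiff.2 ⟨mem_erase.2 ⟨fun h => htE (h ▸ e3), e4⟩, ?_⟩, he⟩
    rw [mem_union, not_or]
    exact ⟨e2, fun h => disjoint_left.1 hEW e3 h⟩
  have hcl := fun x (hx : DCo (insert t (ω ∪ W)) a x) =>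
    end_cases_closed LC' g1 g2 hC hno htE hEW hx
  have hout : ∀ x, OutF M x → ¬ DCo (insert t (ω ∪ W)) a x := by
    intro x ox hx
    rcases hcl x hx with ⟨-, h4⟩ | ⟨x', ⟨-, h4⟩, h5, -⟩
    · exact not_out_of_inF h4 ox
    · exact ox x' (H39.Q1.unit_symm h5) (by rw [add_comm x x']; exact h4 x h5)
  by_cases hj : DCo (insert t (ω ∪ W)) a a'
  · have h3 : Co (du (M.erase t) (ω ∪ W)) a a' := by
      rcases hcl a' hj with ⟨h4, -⟩ | ⟨x', ⟨h4, h6⟩, h5, h7, h8, h9, -⟩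
      · exact hmono h4
      · refine (hmono h4).tail ⟨h5, mem_du_of (mem_erase.2 ⟨h9, h6 _ h5⟩) ?_⟩
        rw [mem_union, not_or]
        exact ⟨fun h => h7 (T.sub h), h8⟩
    exact incO_toggle_C T.pl hωY (T.hE T.te) T.tM g1 g2 h3 hN hNM
  · exact incO_toggle_D T.pl hωY (T.hE T.te) htw g1 g2 hj (hout _ o0) (hout _ oc)

/-- both ends at the wall -/
theorem both_open (T : Tg Y E W M ω t c) (L : LW E W M Vw) (h1 : IsUnit4 (v - u)) (h2 : u + v = t)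
    (hD : DCo M (fi Y.c0) (fi c)) (nu : ∃ z, Vw z ∧ Co ((ω ∪ W) ∩ M) u z)
    (nv : ∃ z, Vw z ∧ Co ((ω ∪ W) ∩ M) v z) : Y.incO ω c = Y.incO (insert t ω) c := by
  obtain ⟨z, hz, h3⟩ := nu
  obtain ⟨z', hz', h4⟩ := nv
  have h5 : Co ((ω ∪ W) ∩ M) z z' := (L.jo z z' hz hz').mono
    (inter_subset_inter_right subset_union_right)
  refine incO_toggle_A T.pl (T.hω.trans T.hE) (T.hE T.te) ?_ T.tM h1 h2 ((h3.trans h5).trans h4.symm) hD
  rw [mem_union, not_or]; exact ⟨T.tω, T.tW⟩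

theorem both_closed (T : Tg Y E W M ω t c) (L : LC E W M Fw) (h1 : IsUnit4 (ψ - φ))
    (h2 : φ + ψ = t + (1, 1)) (hN : Co N (vx Y.c0) (vx c)) (hNM : Disjoint N M)
    (nu : ∃ z, Fw z ∧ Co (du (M.erase t) (ω ∪ W)) φ z)
    (nv : ∃ z, Fw z ∧ Co (du (M.erase t) (ω ∪ W)) ψ z) : Y.incO ω c = Y.incO (insert t ω) c := by
  obtain ⟨z, hz, h3⟩ := nu
  obtain ⟨z', hz', h4⟩ := nv
  have h5 : Co (du (M.erase t) (ω ∪ W)) z z' := by
    refine (L.jo z z' hz hz').mono ?_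
    intro e he
    unfold du at he ⊢
    obtain ⟨l, hl, he⟩ := mem_map.1 he
    obtain ⟨e1, e2⟩ := mem_sdiff.1 hl
    obtain ⟨e3, e4⟩ := mem_sdiff.1 e1
    refine mem_map.2 ⟨l, mem_sdiff.2 ⟨mem_erase.2 ⟨fun h => e4 (h ▸ T.te), e3⟩, ?_⟩, he⟩
    rw [mem_union, not_or]
    exact ⟨fun h => e4 (T.hω h), e2⟩
  exact incO_toggle_C T.pl (T.hω.trans T.hE) (T.hE T.te) T.tM h1 h2 ((h3.trans h5).trans h4.symm) hN hNM

/-- the hypotheses on the root and on the far corner -/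
structure FarC (M : Finset (ℤ × ℤ)) (c0 c : ℤ × ℤ) : Prop where
  v0 : OutV M (vx c0)
  vc : OutV M (vx c)
  f0 : OutF M (fi c0)
  fc : OutF M (fi c)
  hD : DCo M (fi c0) (fi c)
  hN : ∃ N, Co N (vx c0) (vx c) ∧ Disjoint N M

/-- **wired walls** : toggling `t` has no effect, if no cluster of an end of `t` leaves the box without
touching the wall -/
theorem tog_W (T : Tg Y E W M ω t c) (L : LW E W M Vw) (F : FarC M Y.c0 c) (h1 : IsUnit4 (v - u))
    (h2 : u + v = t) (h : ¬ ∃ a x, (a = u ∨ a = v) ∧ ¬ InV M x ∧ Co (ω ∩ (E ∩ M)) a x ∧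
      ∀ z, Co (ω ∩ (E ∩ M)) a z → ¬ Vw z) : Y.incO ω c = Y.incO (insert t ω) c := by
  have key : ∀ a a', IsUnit4 (a' - a) → a + a' = t → (a = u ∨ a = v) →
      (¬ ∃ z, Vw z ∧ Co ((ω ∪ W) ∩ M) a z) → Y.incO ω c = Y.incO (insert t ω) c := by
    intro a a' g1 g2 ga hno
    refine conf_open T L g1 g2 F.v0 F.vc F.hD (fun x hx => ?_) hno
    by_contra hc
    refine h ⟨a, x, ga, hc, hx, fun z hz hV => hno ⟨z, hV, hz.mono ?_⟩⟩
    intro e he
    obtain ⟨e1, e2⟩ := mem_inter.1 he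
    exact mem_inter.2 ⟨mem_union_left _ e1, (mem_inter.1 e2).2⟩
  by_cases nu : ∃ z, Vw z ∧ Co ((ω ∪ W) ∩ M) u z
  · by_cases nv : ∃ z, Vw z ∧ Co ((ω ∪ W) ∩ M) v z
    · exact both_open T L h1 h2 F.hD nu nv
    · exact key v u (H39.Q1.unit_symm h1) (by rw [add_comm]; exact h2) (Or.inr rfl) nv
  · exact key u v h1 h2 (Or.inl rfl) nu

/-- **free walls** -/
theorem tog_F (T : Tg Y E W M ω t c) (L : LC E W M Fw) (F : FarC M Y.c0 c) (h1 : IsUnit4 (ψ - φ))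
    (h2 : φ + ψ = t + (1, 1)) (h : ¬ ∃ a x, (a = φ ∨ a = ψ) ∧ ¬ InF M x ∧
      Co (du ((E.erase t) ∩ M) ω) a x ∧ ∀ z, Co (du ((E.erase t) ∩ M) ω) a z → ¬ Fw z) :
    Y.incO ω c = Y.incO (insert t ω) c := by
  obtain ⟨N, hN, hNM⟩ := F.hN
  have hEW : Disjoint (E.erase t) W := T.dis.mono_left (erase_subset _ _)
  have key : ∀ a a', IsUnit4 (a' - a) → a + a' = t + (1, 1) → (a = φ ∨ a = ψ) →
      (¬ ∃ z, Fw z ∧ Co (du (M.erase t) (ω ∪ W)) a z) → Y.incO ω c = Y.incO (insert t ω) c := by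
    intro a a' g1 g2 ga hno
    refine conf_closed T L g1 g2 F.f0 F.fc hN hNM (fun x hx => ?_) hno
    by_contra hc
    refine h ⟨a, x, ga, hc, hx, fun z hz hV => hno ⟨z, hV, hz.mono ?_⟩⟩
    intro e he
    unfold du at he ⊢
    obtain ⟨l, hl, he⟩ := mem_map.1 he
    obtain ⟨e1, e2⟩ := mem_sdiff.1 hl
    obtain ⟨e3, e4⟩ := mem_inter.1 e1
    refine mem_map.2 ⟨l, mem_sdiff.2 ⟨mem_erase.2 ⟨(mem_erase.1 e3).1, e4⟩, ?_⟩, he⟩
    rw [mem_union, not_or]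
    exact ⟨e2, fun h => disjoint_left.1 hEW e3 h⟩
  by_cases nu : ∃ z, Fw z ∧ Co (du (M.erase t) (ω ∪ W)) φ z
  · by_cases nv : ∃ z, Fw z ∧ Co (du (M.erase t) (ω ∪ W)) ψ z
    · exact both_closed T L h1 h2 hN hNM nu nv
    · exact key ψ φ (H39.Q1.unit_symm h1) (by rw [add_comm]; exact h2) (Or.inr rfl) nv
  · exact key φ ψ h1 h2 (Or.inl rfl) nu

/-- **two walls** : no open arm or no closed arm -/
theorem tog_M (T : Tg Y E W M ω t c) (L : LW E W M Vw) (L' : LC E W M Fw) (F : FarC M Y.c0 c)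
    (h1 : IsUnit4 (v - u)) (h2 : u + v = t) (h3 : IsUnit4 (ψ - φ)) (h4 : φ + ψ = t + (1, 1))
    (h : ¬ ((∃ a x, (a = u ∨ a = v) ∧ ¬ InV M x ∧ Co (ω ∩ (E ∩ M)) a x) ∧
      ∃ a x, (a = φ ∨ a = ψ) ∧ ¬ InF M x ∧ Co (du ((E.erase t) ∩ M) ω) a x)) :
    Y.incO ω c = Y.incO (insert t ω) c := by
  by_cases hA : ∃ a x, (a = u ∨ a = v) ∧ ¬ InV M x ∧ Co (ω ∩ (E ∩ M)) a x
  · refine tog_F T L' F h3 h4 ?_
    rintro ⟨a, x, g1, g2, g3, -⟩
    exact h ⟨hA, a, x, g1, g2, g3⟩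
  · refine tog_W T L F h1 h2 ?_
    rintro ⟨a, x, g1, g2, g3, -⟩
    exact hA ⟨a, x, g1, g2, g3⟩

/-- several labels -/
theorem pat_ind {α : Type*} {K : Finset (ℤ × ℤ)} {f : Finset (ℤ × ℤ) → α}
    {Bad : Finset (ℤ × ℤ) → Prop} (hc : ∀ A B, A \ K = B \ K → (Bad A ↔ Bad B))
    (htog : ∀ t ∈ E ∩ K, ∀ ω ⊆ E, t ∉ ω → ¬ Bad ω → f ω = f (insert t ω)) {A B : Finset (ℤ × ℤ)}
    (hA : A ⊆ E) (hB : B ⊆ E) (hAB : A \ K = B \ K) (h : ¬ Bad A) : f A = f B := by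
  have key : ∀ S : Finset (ℤ × ℤ), S ⊆ E ∩ K → ∀ A, A ⊆ E → ¬ Bad A → f (A \ K) = f (A \ K ∪ S) := by
    intro S
    induction S using Finset.induction_on with
    | empty => intro _ A _ _; rw [union_empty]
    | insert t S ht ih =>
      intro hS A hA hbad
      have h1 := ih ((subset_insert _ _).trans hS) A hA hbad
      have htE := hS (mem_insert_self _ _)
      have h2 : A \ K ∪ insert t S = insert t (A \ K ∪ S) := by rw [union_insert]
      rw [h1, h2]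
      refine htog t htE _ (union_subset (sdiff_subset.trans hA)
        (((subset_insert _ _).trans hS).trans inter_subset_left)) ?_ ?_
      · rw [mem_union, not_or]
        exact ⟨fun h => (mem_sdiff.1 h).2 (mem_inter.1 htE).2, ht⟩
      · intro hb
        refine hbad ((hc _ _ ?_).1 hb)
        ext l
        simp only [mem_sdiff, mem_union]
        constructor
        · rintro ⟨h3 | h3, h4⟩
          · exact h3
          · exact absurd (mem_inter.1 (hS (mem_insert_of_mem h3))).2 h4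
        · rintro ⟨h3, h4⟩
          exact ⟨Or.inl ⟨h3, h4⟩, h4⟩
  have hs : ∀ A : Finset (ℤ × ℤ), A \ K ∪ A ∩ K = A := fun A => sdiff_union_inter A K
  have hb : ¬ Bad B := fun h' => h ((hc _ _ hAB).2 h')
  have e1 := key (A ∩ K) (inter_subset_inter_right hA) A hA h
  have e2 := key (B ∩ K) (inter_subset_inter_right hB) B hB hb
  rw [hs] at e1 e2
  rw [← e1, ← e2, hAB]

end Pool.Agent.H14.Win
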