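import Mathlib
import Pool.Agent.H14.Win.Tog
import Pool.Agent.H60.Q1.Corn.Sym

set_option autoImplicit false
open Finset

/-! # Displacement at the corners of a window: the bad events

`BO`, `BC` : open and closed arms from the small box `BR p s` to the outside of the box `BR p r`, outside of
the small box; `BW`, `BF` : open (closed) cluster from the small box out of the box which does not touch
the wired (free) wall. `BadEv` : if the event does not occur, the labels of the small box have no effect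
far away. -/

namespace Pool.Agent.H14.Win

open Pool.Agent.H75.Perc hiding ph
open Pool.Agent.H75.TwoArm Pool.Agent.H75.Four Pool.Agent.H69.Q1
open Pool.Agent.Q1 Pool.Agent.H43.Q1 Pool.Agent.H39.Q1 Pool.Agent.Q1.M6c
open Pool.Agent.H60.Q1 Pool.Agent.H99.NC Pool.Agent.H42.FM Pool.Agent.H44.FM Pool.Agent.H14.R45
open Pool.Agent.H60.Q1.Corn (UG ug AG mem_AG PrP_UG ug_dual UG_intro)
open Pool.Agent.H20.Q1 (last_exit BR_ends BR_of_ends)

variable {E W M ω : Finset (ℤ × ℤ)} {t c p : ℤ × ℤ} {Vw Fw : ℤ × ℤ → Prop} {r s : ℕ} {Y : Env}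

/-- the labels outside of the small box -/
noncomputable def Eo (E : Finset (ℤ × ℤ)) (p : ℤ × ℤ) (r s : ℕ) : Finset (ℤ × ℤ) :=
  (E \ BR p s) ∩ BR p r

def BO (E : Finset (ℤ × ℤ)) (p : ℤ × ℤ) (r s : ℕ) (ω : Finset (ℤ × ℤ)) : Prop :=
  ∃ a x, Near p s a ∧ ¬ InV (BR p r) x ∧ Co (ω ∩ Eo E p r s) a x

def BC (E : Finset (ℤ × ℤ)) (p : ℤ × ℤ) (r s : ℕ) (ω : Finset (ℤ × ℤ)) : Prop :=
  ∃ a x, Near p (s + 1) a ∧ ¬ InF (BR p r) x ∧ Co (du (Eo E p r s) ω) a x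

def BW (E : Finset (ℤ × ℤ)) (p : ℤ × ℤ) (r s : ℕ) (Vw : ℤ × ℤ → Prop) (ω : Finset (ℤ × ℤ)) : Prop :=
  ∃ a x, Near p s a ∧ ¬ InV (BR p r) x ∧ Co (ω ∩ Eo E p r s) a x ∧
    ∀ z, Co (ω ∩ Eo E p r s) a z → ¬ Vw z

def BF (E : Finset (ℤ × ℤ)) (p : ℤ × ℤ) (r s : ℕ) (Fw : ℤ × ℤ → Prop) (ω : Finset (ℤ × ℤ)) : Prop :=
  ∃ a x, Near p (s + 1) a ∧ ¬ InF (BR p r) x ∧ Co (du (Eo E p r s) ω) a x ∧
    ∀ z, Co (du (Eo E p r s) ω) a z → ¬ Fw z

lemma inR_near {w u : ℤ × ℤ} {m : ℤ} (h : inR w m u) : Near w m u := by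
  rw [inR_iff] at h
  unfold Near
  rw [abs_le, abs_le]
  omega

lemma far_not_inR {w u : ℤ × ℤ} {m n : ℤ} (h : Far w n u) (hm : m < n) : ¬ inR w m u := by
  rw [inR_iff]
  unfold Far at h
  rw [le_abs, le_abs] at h
  omega

/-- the last exit of an open path from the small box -/
lemma out_open {A : Finset (ℤ × ℤ)} (hA : A ⊆ E ∩ BR p r) {a x : ℤ × ℤ} (h : Co (ω ∩ A) a x)
    (ha : inR p s a) (hx : ¬ InV (BR p r) x) (hsr : s < r) : ∃ a', Near p s a' ∧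
      Co (ω ∩ Eo E p r s) a' x ∧ Co (ω ∩ A) a a' := by
  obtain ⟨a', h1, h2⟩ := last_exit h ha (far_not_inR (far_of_not_inV hx) (by exact_mod_cast hsr))
  refine ⟨a', inR_near h1, h2.mono ?_, h.trans (h2.mono sdiff_subset).symm⟩
  intro l hl
  obtain ⟨g1, g2⟩ := mem_sdiff.1 hl
  obtain ⟨g3, g4⟩ := mem_inter.1 g1
  obtain ⟨g5, g6⟩ := mem_inter.1 (hA g4)
  exact mem_inter.2 ⟨g3, mem_inter.2 ⟨mem_sdiff.2 ⟨g5, g2⟩, g6⟩⟩

lemma sh1_BR {l : ℤ × ℤ} {m : ℤ} (h : l ∈ BR p m) : sh1 l ∈ BR p (m + 1) := by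
  rw [mem_BR] at h ⊢
  unfold sh1
  simp only [Function.Embedding.coeFn_mk]
  omega

/-- the last exit of a closed path from the small box -/
lemma out_closed {A : Finset (ℤ × ℤ)} (hA : A ⊆ E ∩ BR p r) {a x : ℤ × ℤ} (h : Co (du A ω) a x)
    (ha : inR p (s + 1) a) (hx : ¬ InF (BR p r) x) (hsr : s + 1 < r) : ∃ a', Near p (s + 1) a' ∧
      Co (du (Eo E p r s) ω) a' x ∧ Co (du A ω) a a' := by
  obtain ⟨a', h1, h2⟩ := last_exit h ha (far_not_inR (far_of_not_inF hx) (by exact_mod_cast hsr))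
  refine ⟨a', inR_near h1, h2.mono ?_, h.trans (h2.mono sdiff_subset).symm⟩
  intro l hl
  obtain ⟨g1, g2⟩ := mem_sdiff.1 hl
  unfold du at g1 ⊢
  obtain ⟨k, hk, rfl⟩ := mem_map.1 g1
  obtain ⟨g3, g4⟩ := mem_sdiff.1 hk
  obtain ⟨g5, g6⟩ := mem_inter.1 (hA g3)
  refine mem_map_of_mem _ (mem_sdiff.2 ⟨mem_inter.2 ⟨mem_sdiff.2 ⟨g5, fun h => g2 ?_⟩, g6⟩, g4⟩)
  exact sh1_BR h

/-- **bad event** -/
structure BadEv (E W : Finset (ℤ × ℤ)) (p : ℤ × ℤ) (r s : ℕ) (Bad : Finset (ℤ × ℤ) → Prop) : Prop where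
  tog : ∀ (Y : Env) (c t : ℤ × ℤ) (ω : Finset (ℤ × ℤ)), Tg Y E W (BR p r) ω t c → t ∈ BR p s →
    FarC (BR p r) Y.c0 c → ¬ Bad ω → Y.incO ω c = Y.incO (insert t ω) c
  loc : ∀ ω ω', ω ∩ Eo E p r s = ω' ∩ Eo E p r s → (Bad ω ↔ Bad ω')

lemma BO_loc (ω ω' : Finset (ℤ × ℤ)) (h : ω ∩ Eo E p r s = ω' ∩ Eo E p r s) :
    BO E p r s ω ↔ BO E p r s ω' := by unfold BO; rw [h]

lemma BW_loc (ω ω' : Finset (ℤ × ℤ)) (h : ω ∩ Eo E p r s = ω' ∩ Eo E p r s) :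
    BW E p r s Vw ω ↔ BW E p r s Vw ω' := by unfold BW; rw [h]

lemma BC_loc (ω ω' : Finset (ℤ × ℤ)) (h : ω ∩ Eo E p r s = ω' ∩ Eo E p r s) :
    BC E p r s ω ↔ BC E p r s ω' := by unfold BC; rw [du_congr' h]

lemma BF_loc (ω ω' : Finset (ℤ × ℤ)) (h : ω ∩ Eo E p r s = ω' ∩ Eo E p r s) :
    BF E p r s Fw ω ↔ BF E p r s Fw ω' := by unfold BF; rw [du_congr' h]

lemma ends_inR {t : ℤ × ℤ} (ht : (t.1 + t.2) % 2 = 1) (h : t ∈ BR p s) :
    inR p s (eu t) ∧ inR p s (ev t) := by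
  have h1 := ends_vx ht
  exact BR_ends h1.1 (by rw [h1.2]; exact h)

lemma sides_inR {t : ℤ × ℤ} (ht : (t.1 + t.2) % 2 = 1) (h : t ∈ BR p s) :
    inR p (s + 1) (fi (zu t)) ∧ inR p (s + 1) (fi (zv t)) := by
  have h1 := sides_fi ht
  exact BR_ends h1.1 (by rw [h1.2]; exact sh1_BR h)

theorem badW (L : LW E W (BR p r) Vw) (hsr : s < r) (ho : ∀ e ∈ E, (e.1 + e.2) % 2 = 1) :
    BadEv E W p r s (BW E p r s Vw) := by
  refine ⟨fun Y c t ω T ht F hB => ?_, BW_loc⟩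
  have hodd := ho t T.te
  refine tog_W T L F (ends_vx hodd).1 (ends_vx hodd).2 ?_
  rintro ⟨a, x, ha, hx, hc, hz⟩
  have hin : inR p s a := by
    rcases ha with rfl | rfl
    · exact (ends_inR hodd ht).1
    · exact (ends_inR hodd ht).2
  obtain ⟨a', h1, h2, h3⟩ := out_open (E := E) (A := E ∩ BR p r) (Subset.refl _) hc hin hx hsr
  refine hB ⟨a', x, h1, hx, h2, fun z h4 => hz z (h3.trans (h4.mono ?_))⟩
  exact inter_subset_inter_left (inter_subset_inter_right sdiff_subset)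

theorem badF (L : LC E W (BR p r) Fw) (hsr : s + 1 < r) (ho : ∀ e ∈ E, (e.1 + e.2) % 2 = 1) :
    BadEv E W p r s (BF E p r s Fw) := by
  refine ⟨fun Y c t ω T ht F hB => ?_, BF_loc⟩
  have hodd := ho t T.te
  refine tog_F T L F (sides_fi hodd).1 (sides_fi hodd).2 ?_
  rintro ⟨a, x, ha, hx, hc, hz⟩
  have hin : inR p (s + 1) a := by
    rcases ha with rfl | rfl
    · exact (sides_inR hodd ht).1
    · exact (sides_inR hodd ht).2
  obtain ⟨a', h1, h2, h3⟩ := out_closed (E := E) (A := E.erase t ∩ BR p r)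
    (inter_subset_inter_right (erase_subset _ _)) hc hin hx hsr
  refine hB ⟨a', x, h1, hx, h2, fun z h4 => hz z (h3.trans (h4.mono ?_))⟩
  unfold du Eo
  refine map_subset_map.2 (sdiff_subset_sdiff (inter_subset_inter_right ?_) (Subset.refl _))
  intro l hl
  obtain ⟨g1, g2⟩ := mem_sdiff.1 hl
  exact mem_erase.2 ⟨fun h => g2 (h ▸ ht), g1⟩

theorem badM (L : LW E W (BR p r) Vw) (L' : LC E W (BR p r) Fw) (hsr : s + 1 < r)
    (ho : ∀ e ∈ E, (e.1 + e.2) % 2 = 1) :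
    BadEv E W p r s (fun ω => BO E p r s ω ∧ BC E p r s ω) := by
  refine ⟨fun Y c t ω T ht F hB => ?_, fun ω ω' h => and_congr (BO_loc ω ω' h) (BC_loc ω ω' h)⟩
  have hodd := ho t T.te
  refine tog_M T L L' F (ends_vx hodd).1 (ends_vx hodd).2 (sides_fi hodd).1 (sides_fi hodd).2 ?_
  rintro ⟨⟨a, x, ha, hx, hc⟩, b, y, hb, hy, hd⟩
  refine hB ⟨?_, ?_⟩
  · have hin : inR p s a := by
      rcases ha with rfl | rfl
      · exact (ends_inR hodd ht).1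
      · exact (ends_inR hodd ht).2
    obtain ⟨a', h1, h2, -⟩ := out_open (E := E) (A := E ∩ BR p r) (Subset.refl _) hc hin hx
      (by omega)
    exact ⟨a', x, h1, hx, h2⟩
  · have hin : inR p (s + 1) b := by
      rcases hb with rfl | rfl
      · exact (sides_inR hodd ht).1
      · exact (sides_inR hodd ht).2
    obtain ⟨a', h1, h2, -⟩ := out_closed (E := E) (A := E.erase t ∩ BR p r)
      (inter_subset_inter_right (erase_subset _ _)) hd hin hy hsr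
    exact ⟨a', y, h1, hy, h2⟩

/-! ### Probabilities -/

/-- **Convex corners** -/
theorem prM : ∃ C : ℝ, 0 < C ∧ ∀ (E : Finset (ℤ × ℤ)) (p : ℤ × ℤ) (r s : ℕ)
    (k k' : ℤ) (w w' : ℤ × ℤ), 1 ≤ s → 8 * s ≤ r →
    (∀ l ∈ Eo E p r s, dK k w l) → (∀ l ∈ Eo E p r s, dK k' w' (l + (1, 1))) →
    Near p s w → Near p s w' →
    PrP (fun _ => 1 / 2) (Eo E p r s) (fun ω => BO E p r s ω ∧ BC E p r s ω) ≤
      C * ((s : ℝ) / r) ^ (4 / 3 : ℝ) := by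
  obtain ⟨C1, hC1, h1⟩ := quad_arm
  obtain ⟨C2, hC2, h2⟩ := quad_arm_dual
  refine ⟨C1 * C2 * 8 ^ (4 / 3 : ℝ), by positivity, ?_⟩
  intro E p r s k k' w w' hs hr hk hk' nw nw'
  set A := BO E p r s with hA
  set B := BC E p r s with hB
  set M := Eo E p r s with hM
  have hq : Pb (fun _ : ℤ × ℤ => (1 / 2 : ℝ)) := Pb.const (by norm_num) (by norm_num)
  -- Harris
  have iA : Inc A := by
    rintro ω ω' h ⟨a, x, h1, h2, h3⟩
    exact ⟨a, x, h1, h2, h3.mono (inter_subset_inter_right h)⟩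
  have iB : Inc (fun ω => ¬ B ω) := by
    rintro ω ω' h hn ⟨a, x, h1, h2, h3⟩
    refine hn ⟨a, x, h1, h2, h3.mono ?_⟩
    unfold du
    exact map_subset_map.2 (sdiff_subset_sdiff (Subset.refl _) h)
  have f1 := PrP_harris hq M iA iB
  have f2 := PrP_split (fun _ : ℤ × ℤ => (1 / 2 : ℝ)) (Subset.refl M) A B
  have hnear : ∀ {a b : ℤ × ℤ}, Near p s a → Near p (s + 1) b → Near a ((4 * s : ℕ) : ℤ) b := by
    intro a b ha hb
    unfold Near at ha hb ⊢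
    rw [abs_le, abs_le] at ha hb ⊢
    omega
  have hfar : ∀ {a x : ℤ × ℤ}, Near p s a → Far p r x → Far a ((r : ℤ) - s) x := by
    intro a x ha hx
    unfold Near at ha
    unfold Far at hx ⊢
    rw [abs_le, abs_le] at ha
    rw [le_abs, le_abs] at hx ⊢
    omega
  have hrs : (((r - s : ℕ) : ℤ)) = (r : ℤ) - s := by omega
  have g1 : PrP (fun _ => 1 / 2) M A ≤ C1 * (((4 * s : ℕ) : ℝ) / ((r - s : ℕ) : ℝ)) ^ (2 / 3 : ℝ) := by
    rw [PrP_half]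
    refine le_trans (Pr_mono ?_) (h1 k w (4 * s) (r - s) M (by omega) (by omega))
    rintro ω hω ⟨a, x, ha, hx, hc⟩
    obtain ⟨y, hy, hc'⟩ := cut_far (k := k) (w := w) (R := ((r - s : ℕ) : ℤ))
      (fun l hl => hk l (mem_inter.1 hl).2) hc (by
        rw [hrs]; exact hfar nw (far_of_not_inV hx))
    refine ⟨a, y, hnear nw ?_, hy, hc'.mono ?_⟩
    · unfold Near at ha ⊢
      omega
    · exact inter_subset_inter_right inter_subset_left
  have g2 : PrP (fun _ => 1 / 2) M B ≤ C2 * (((4 * s : ℕ) : ℝ) / ((r - s : ℕ) : ℝ)) ^ (2 / 3 : ℝ) := by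
    rw [PrP_half]
    refine le_trans (Pr_mono ?_) (h2 k' w' (4 * s) (r - s) M (by omega) (by omega))
    rintro ω hω ⟨a, x, ha, hx, hc⟩
    obtain ⟨y, hy, hc'⟩ := cut_far (k := k') (w := w') (R := ((r - s : ℕ) : ℤ))
      (fun l hl => by
        unfold du at hl
        obtain ⟨l', hl', he⟩ := mem_map.1 hl
        have : l = l' + (1, 1) := by rw [← he]; rfl
        rw [this]
        exact hk' l' (mem_sdiff.1 hl').1) hc (by
        rw [hrs]; exact hfar nw' (far_of_not_inF hx))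
    exact ⟨a, y, hnear nw' ha, hy, hc'⟩
  have A0 := PrP_nonneg hq M A
  have B0 := PrP_nonneg hq M B
  have h3 : PrP (fun _ => 1 / 2) M (fun ω => A ω ∧ B ω) ≤
      PrP (fun _ => 1 / 2) M A * PrP (fun _ => 1 / 2) M B := by
    have k1 : PrP (fun _ : ℤ × ℤ => (1 / 2 : ℝ)) M (fun ω => ¬ B ω) =
        1 - PrP (fun _ => 1 / 2) M B := PrP_not _ _ _
    have k2 : PrP (fun _ : ℤ × ℤ => (1 / 2 : ℝ)) M A =
        PrP (fun _ => 1 / 2) M (fun ω => A ω ∧ B ω) +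
        PrP (fun _ => 1 / 2) M (fun ω => A ω ∧ ¬ B ω) := by
      rw [← PrP_add_disj (fun ω _ h h' => h'.2 h.2)]
      exact PrP_congr fun ω _ => by tauto
    rw [k1] at f1
    nlinarith
  refine h3.trans ?_
  have hr0 : (0 : ℝ) < r := by
    have : 0 < r := by omega
    exact_mod_cast this
  have hs0 : (0 : ℝ) < s := by exact_mod_cast hs
  have hx0 : (0 : ℝ) < ((r - s : ℕ) : ℝ) := by
    have : 0 < r - s := by omega
    exact_mod_cast this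
  have h4 : ((4 * s : ℕ) : ℝ) / ((r - s : ℕ) : ℝ) ≤ 8 * ((s : ℝ) / r) := by
    rw [mul_div_assoc', div_le_div_iff₀ hx0 hr0]
    have h5 : ((r - s : ℕ) : ℝ) = (r : ℝ) - s := by
      rw [Nat.cast_sub (by omega)]
    have h6 : (8 * s : ℝ) ≤ r := by exact_mod_cast hr
    rw [h5]
    push_cast
    nlinarith
  have h7 : (((4 * s : ℕ) : ℝ) / ((r - s : ℕ) : ℝ)) ^ (2 / 3 : ℝ) ≤
      (8 * ((s : ℝ) / r)) ^ (2 / 3 : ℝ) :=
    Real.rpow_le_rpow (by positivity) h4 (by norm_num)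
  calc PrP (fun _ => 1 / 2) M A * PrP (fun _ => 1 / 2) M B
      ≤ (C1 * (8 * ((s : ℝ) / r)) ^ (2 / 3 : ℝ)) * (C2 * (8 * ((s : ℝ) / r)) ^ (2 / 3 : ℝ)) :=
        mul_le_mul (g1.trans (mul_le_mul_of_nonneg_left h7 hC1.le))
          (g2.trans (mul_le_mul_of_nonneg_left h7 hC2.le)) B0 (by positivity)
    _ = C1 * C2 * ((8 * ((s : ℝ) / r)) ^ (2 / 3 : ℝ) * (8 * ((s : ℝ) / r)) ^ (2 / 3 : ℝ)) := by ring
    _ = C1 * C2 * 8 ^ (4 / 3 : ℝ) * ((s : ℝ) / r) ^ (4 / 3 : ℝ) := by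
        rw [← Real.rpow_add (by positivity), show (2 / 3 : ℝ) + 2 / 3 = 4 / 3 by norm_num,
          Real.mul_rpow (by norm_num) (by positivity)]
        ring

lemma first_edge {A : Finset (ℤ × ℤ)} {a b : ℤ × ℤ} (h : Co A a b) (hne : a ≠ b) :
    ∃ y, IsUnit4 (y - a) ∧ a + y ∈ A := last_edge h.symm (Ne.symm hne)

/-- every vertex of the cluster touches a label -/
lemma at_label {A : Finset (ℤ × ℤ)} {a x y : ℤ × ℤ} (h : Co A a x) (hne : a ≠ x)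
    (hy : Co A a y) : ∃ y', IsUnit4 (y' - y) ∧ y + y' ∈ A := by
  by_cases hay : a = y
  · subst hay; exact first_edge h hne
  · exact last_edge hy hay

lemma near_far_ne {w a x : ℤ × ℤ} {m n : ℤ} (h : Near w m a) (h' : Far w n x) (hmn : m < n) :
    a ≠ x := by
  rintro rfl
  unfold Near at h
  unfold Far at h'
  omega

/-- the wired reflex corner, event -/
lemma BW_UG {P dm : ℤ × ℤ → ℤ × ℤ → Prop} {w : ℤ × ℤ} {ρ R : ℤ} (hρR : ρ < R)
    (hn : ∀ a, Near p s a → Near w ρ a) (hf : ∀ x, ¬ InV (BR p r) x → Far w R x)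
    (hP : ∀ y y', IsUnit4 (y' - y) → y + y' ∈ Eo E p r s → inR w R y → ¬ Vw y → P w y)
    (h1 : ∀ y y' z, IsUnit4 (y' - y) → y + y' ∈ Eo E p r s → ¬ Vw y → IsUnit4 (z - y) →
      y + z ∈ AG dm w ρ R → y + z ∈ Eo E p r s)
    (h2 : ∀ l ∈ Eo E p r s, l ∈ BR w R → l ∉ BR w ρ → dm w l)
    (hB : BW E p r s Vw ω) : UG P dm w ρ R ω := by
  obtain ⟨a, x, ha, hx, hc, hcl⟩ := hB
  have hne := near_far_ne (hn a ha) (hf x hx) hρR
  refine UG_intro hρR (hn a ha) (hf x hx) hc (fun y hy hin => ?_) (fun y z hz hy hl => ?_) h2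
  · obtain ⟨y', g1, g2⟩ := at_label hc hne hy
    exact hP y y' g1 (mem_inter.1 g2).2 hin (hcl y hy)
  · obtain ⟨y', g1, g2⟩ := at_label hc hne hy
    exact h1 y y' z g1 (mem_inter.1 g2).2 (hcl y hy) hz hl

theorem prW {P dm : ℤ × ℤ → ℤ × ℤ → Prop} {w : ℤ × ℤ} {ρ R : ℤ} (hρR : ρ < R)
    (hn : ∀ a, Near p s a → Near w ρ a) (hf : ∀ x, ¬ InV (BR p r) x → Far w R x)
    (hP : ∀ y y', IsUnit4 (y' - y) → y + y' ∈ Eo E p r s → inR w R y → ¬ Vw y → P w y)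
    (h1 : ∀ y y' z, IsUnit4 (y' - y) → y + y' ∈ Eo E p r s → ¬ Vw y → IsUnit4 (z - y) →
      y + z ∈ AG dm w ρ R → y + z ∈ Eo E p r s)
    (h2 : ∀ l ∈ Eo E p r s, l ∈ BR w R → l ∉ BR w ρ → dm w l) :
    PrP (fun _ => 1 / 2) (Eo E p r s) (BW E p r s Vw) ≤ ug P dm w ρ R := by
  set F := Eo E p r s ∪ AG dm w ρ R with hF
  have e1 : PrP (fun _ => 1 / 2) F (BW E p r s Vw) =
      PrP (fun _ => 1 / 2) (Eo E p r s) (BW E p r s Vw) := by
    refine PrP_local subset_union_left fun ω _ => BW_loc _ _ ?_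
    rw [inter_assoc, inter_self]
  rw [← e1, ← PrP_UG (E := F) subset_union_right]
  exact PrP_mono Pool.Agent.H60.Q1.Corn.hf_Pb fun ω _ h => BW_UG hρR hn hf hP h1 h2 h

/-- the free reflex corner, event -/
lemma BF_UG {P dm : ℤ × ℤ → ℤ × ℤ → Prop} {w : ℤ × ℤ} {ρ R : ℤ} (hρR : ρ < R)
    {F : Finset (ℤ × ℤ)} (hF : Eo E p r s ⊆ F)
    (hn : ∀ a, Near p (s + 1) a → Near w ρ a) (hf : ∀ x, ¬ InF (BR p r) x → Far w R x)
    (hP : ∀ y y', IsUnit4 (y' - y) → y + y' - (1, 1) ∈ Eo E p r s → inR w R y → ¬ Fw y → P w y)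
    (h1 : ∀ y y' z, IsUnit4 (y' - y) → y + y' - (1, 1) ∈ Eo E p r s → ¬ Fw y → IsUnit4 (z - y) →
      y + z ∈ AG dm w ρ R → y + z - (1, 1) ∈ Eo E p r s)
    (h2 : ∀ l ∈ Eo E p r s, sh1 l ∈ BR w R → sh1 l ∉ BR w ρ → dm w (sh1 l))
    (hB : BF E p r s Fw ω) : UG P dm w ρ R (du F ω) := by
  obtain ⟨a, x, ha, hx, hc, hcl⟩ := hB
  have hne := near_far_ne (hn a ha) (hf x hx) hρR
  have e : du F ω ∩ (Eo E p r s).map sh1 = du (Eo E p r s) ω := by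
    unfold du
    ext l
    simp only [mem_inter, mem_map]
    constructor
    · rintro ⟨⟨k, hk, rfl⟩, k', hk', he⟩
      have := sh1.injective he
      subst this
      exact ⟨k', mem_sdiff.2 ⟨hk', (mem_sdiff.1 hk).2⟩, rfl⟩
    · rintro ⟨k, hk, rfl⟩
      obtain ⟨k1, k2⟩ := mem_sdiff.1 hk
      exact ⟨⟨k, mem_sdiff.2 ⟨hF k1, k2⟩, rfl⟩, k, k1, rfl⟩
  have hat : ∀ y, Co (du (Eo E p r s) ω) a y → ∃ y', IsUnit4 (y' - y) ∧
      y + y' - (1, 1) ∈ Eo E p r s := by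
    intro y hy
    obtain ⟨y', g1, g2⟩ := at_label hc hne hy
    refine ⟨y', g1, ?_⟩
    unfold du at g2
    obtain ⟨k, hk, he⟩ := mem_map.1 g2
    have : y + y' - (1, 1) = k := by rw [← he]; unfold sh1; simp
    rw [this]; exact (mem_sdiff.1 hk).1
  refine UG_intro (a := (Eo E p r s).map sh1) hρR (hn a ha) (hf x hx) (by rw [e]; exact hc)
    (fun y hy hin => ?_) (fun y z hz hy hl => ?_) ?_
  · rw [e] at hy
    obtain ⟨y', g1, g2⟩ := hat y hy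
    exact hP y y' g1 g2 hin (hcl y hy)
  · rw [e] at hy
    obtain ⟨y', g1, g2⟩ := hat y hy
    refine mem_map.2 ⟨y + z - (1, 1), h1 y y' z g1 g2 (hcl y hy) hz hl, ?_⟩
    unfold sh1
    simp
    rfl
  · intro l hl g1 g2
    obtain ⟨k, hk, rfl⟩ := mem_map.1 hl
    exact h2 k hk g1 g2

theorem prF {P dm : ℤ × ℤ → ℤ × ℤ → Prop} {w : ℤ × ℤ} {ρ R : ℤ} (hρR : ρ < R)
    (hn : ∀ a, Near p (s + 1) a → Near w ρ a) (hf : ∀ x, ¬ InF (BR p r) x → Far w R x)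
    (hP : ∀ y y', IsUnit4 (y' - y) → y + y' - (1, 1) ∈ Eo E p r s → inR w R y → ¬ Fw y → P w y)
    (h1 : ∀ y y' z, IsUnit4 (y' - y) → y + y' - (1, 1) ∈ Eo E p r s → ¬ Fw y → IsUnit4 (z - y) →
      y + z ∈ AG dm w ρ R → y + z - (1, 1) ∈ Eo E p r s)
    (h2 : ∀ l ∈ Eo E p r s, sh1 l ∈ BR w R → sh1 l ∉ BR w ρ → dm w (sh1 l)) :
    PrP (fun _ => 1 / 2) (Eo E p r s) (BF E p r s Fw) ≤ ug P dm w ρ R := by
  classical
  set F := Eo E p r s ∪ (AG dm w ρ R).image (fun l => l - (1, 1)) with hF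
  have e1 : PrP (fun _ => 1 / 2) F (BF E p r s Fw) =
      PrP (fun _ => 1 / 2) (Eo E p r s) (BF E p r s Fw) := by
    refine PrP_local subset_union_left fun ω _ => BF_loc _ _ ?_
    rw [inter_assoc, inter_self]
  have hAG : AG dm w ρ R ⊆ F.map sh1 := by
    intro l hl
    refine mem_map.2 ⟨l - (1, 1), mem_union_right _ (mem_image_of_mem _ hl), ?_⟩
    unfold sh1
    simp
  rw [← e1, ← ug_dual (P := P) (dm := dm) sh1 hAG]
  exact PrP_mono Pool.Agent.H60.Q1.Corn.hf_Pb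
    fun ω _ h => BF_UG hρR subset_union_left hn hf hP h1 h2 h

end Pool.Agent.H14.Win
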