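import Mathlib
import Pool.Agent.H14.Win.Bad

set_option autoImplicit false
open Finset

/-! # Displacement lemma at a corner of a window, general form

`DispG` : two plane environments with the same root which differ only at the labels of the small box
`BR p s`. `dispG_rect` : the potentials on a rectangle of tiles away from the corner differ by at most
`C (n + 1) δ m ^ (2/3)`, `δ` : probability of the bad event. -/

namespace Pool.Agent.H14.Win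

open Pool.Agent.H75.Perc hiding ph
open Pool.Agent.H75.TwoArm Pool.Agent.H75.Four Pool.Agent.H69.Q1
open Pool.Agent.Q1 Pool.Agent.H43.Q1 Pool.Agent.H39.Q1 Pool.Agent.Q1.M6c
open Pool.Agent.H60.Q1 Pool.Agent.H99.NC Pool.Agent.H42.FM Pool.Agent.H44.FM Pool.Agent.H14.R45
open Pool.Agent.H33.Q1 (lt tt tv tf lt_inj tt_lt lt_odd lt_tt)
open Pool.Agent.H74.R45 (Pot sg sg_even sg_odd RT lt_mem_RT)

/-- Two environments which differ only near a corner. -/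
structure DispG (X Z : Env) (E W WX WZ : Finset (ℤ × ℤ)) (p : ℤ × ℤ) (r s : ℕ)
    (Bad : Finset (ℤ × ℤ) → Prop) (δ : ℝ) : Prop where
  hX : PlaneEnv X WX
  hZ : PlaneEnv Z WZ
  hc : Z.c0 = X.c0
  hk : Z.k0 = X.k0
  oE : ∀ e ∈ E, (e.1 + e.2) % 2 = 1
  XE : X.E ⊆ E
  ZE : Z.E ⊆ E
  XE' : E \ BR p s ⊆ X.E
  ZE' : E \ BR p s ⊆ Z.E
  XW : W ⊆ WX
  ZW : W ⊆ WZ
  XW' : WX \ W ⊆ E ∩ BR p s
  ZW' : WZ \ W ⊆ E ∩ BR p s
  dis : Disjoint E W
  root : plab X.c0 ∉ E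
  out : ∃ g, DCo (E ∪ W) (fi X.c0) g ∧ ∀ v, Co (E ∪ W) (vx X.c0) v → g.2 < v.2
  far : Far p (r + 2) (vx X.c0)
  bad : BadEv E W p r s Bad
  pr : PrP (fun _ => 1 / 2) (Eo E p r s) Bad ≤ δ
  sr : s ≤ r

variable {X Z : Env} {E W WX WZ : Finset (ℤ × ℤ)} {p : ℤ × ℤ} {r s : ℕ}
  {Bad : Finset (ℤ × ℤ) → Prop} {δ : ℝ}

lemma farC_of {c0 c : ℤ × ℤ} (h0 : Far p (r + 2) (vx c0)) (h : Far p (r + 2) (vx c)) :
    FarC (BR p r) c0 c where
  v0 := outV_of_far (far_one h0)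
  vc := outV_of_far (far_one h)
  f0 := outF_of_far h0 (fi_near_vx _)
  fc := outF_of_far h (fi_near_vx _)
  hD := dco_far h0 (fi_near_vx _) h (fi_near_vx _)
  hN := co_far (by positivity) (far_one h0) (far_one h)

/-- **Good configurations**: the labels near the corner have no effect far away. -/
theorem DispG.incO_eq (D : DispG X Z E W WX WZ p r s Bad δ) {ω : Finset (ℤ × ℤ)}
    (hω : ω ⊆ X.E ∪ Z.E) {c : ℤ × ℤ} (hfar : Far p (r + 2) (vx c)) (h : ¬ Bad ω) :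
    Z.incO (ω ∩ Z.E) c = X.incO (ω ∩ X.E) c := by
  obtain ⟨g, hg1, hg2⟩ := D.out
  set Y : Env := Env.plane E W X.c0 X.k0 g D.oE D.dis X.hk0 D.root hg1 hg2 with hY
  have oW : ∀ e ∈ W, (e.1 + e.2) % 2 = 1 := fun e he => D.hX.oddW e (D.XW he)
  have PY : PlaneEnv Y W := planeEnv_plane oW
  have hYE : Y.E = E := rfl
  have uni : ∀ {A V V' : Finset (ℤ × ℤ)}, V ⊆ V' → (A ∪ V' \ V) ∪ V = A ∪ V' := by
    intro A V V' hV
    rw [union_assoc, sdiff_union_of_subset hV]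
  have e1 : X.incO (ω ∩ X.E) c = Y.incO (ω ∩ X.E ∪ WX \ W) c :=
    incO_union PY D.hX rfl rfl
      (by rw [hYE]; exact union_subset (inter_subset_right.trans D.XE) (D.XW'.trans inter_subset_left))
      inter_subset_right (by rw [uni D.XW]) c
  have e2 : Z.incO (ω ∩ Z.E) c = Y.incO (ω ∩ Z.E ∪ WZ \ W) c :=
    incO_union PY D.hZ D.hc D.hk
      (by rw [hYE]; exact union_subset (inter_subset_right.trans D.ZE) (D.ZW'.trans inter_subset_left))
      inter_subset_right (by rw [uni D.ZW]) c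
  rw [e1, e2]
  -- outside of the small box
  have out : ∀ {A V : Finset (ℤ × ℤ)}, E \ BR p s ⊆ A → V ⊆ E ∩ BR p s →
      (ω ∩ A ∪ V) \ BR p s = (ω ∩ E) \ BR p s ∩ A := by
    intro A V hA hV
    ext l
    simp only [mem_sdiff, mem_union, mem_inter]
    constructor
    · rintro ⟨⟨h1, h2⟩ | h1, h3⟩
      · rcases mem_union.1 (hω h1) with h4 | h4
        · exact ⟨⟨⟨h1, D.XE h4⟩, h3⟩, h2⟩
        · exact ⟨⟨⟨h1, D.ZE h4⟩, h3⟩, h2⟩
      · exact absurd (mem_inter.1 (hV h1)).2 h3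
    · rintro ⟨⟨⟨h1, h2⟩, h3⟩, h4⟩
      exact ⟨Or.inl ⟨h1, h4⟩, h3⟩
  have hA : ∀ {A : Finset (ℤ × ℤ)}, E \ BR p s ⊆ A → (ω ∩ E) \ BR p s ∩ A = (ω ∩ E) \ BR p s := by
    intro A hA
    refine inter_eq_left.2 fun l hl => hA ?_
    obtain ⟨h1, h2⟩ := mem_sdiff.1 hl
    exact mem_sdiff.2 ⟨(mem_inter.1 h1).2, h2⟩
  have o1 := (out D.XE' D.XW').trans (hA D.XE')
  have o2 := (out D.ZE' D.ZW').trans (hA D.ZE')
  refine (pat_ind (E := E) (K := BR p s) (f := fun A => Y.incO A c) (Bad := Bad) ?_ ?_ ?_ ?_ ?_ ?_).symm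
  · intro A B hAB
    refine D.bad.loc A B ?_
    unfold Eo
    ext l
    simp only [mem_inter, mem_sdiff]
    have h1 := Finset.ext_iff.1 hAB l
    simp only [mem_sdiff] at h1
    tauto
  · intro t ht ω' hω' htω hb
    obtain ⟨h1, h2⟩ := mem_inter.1 ht
    have hsr : BR p s ⊆ BR p r :=
      Pool.Agent.H20.Q1.BR_mono (by exact_mod_cast D.sr)
    exact D.bad.tog Y c t ω' ⟨PY.planeLike, by rw [hYE], h1, hsr h2, D.dis, hω', htω⟩ h2
      (farC_of D.far hfar) hb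
  · exact union_subset (inter_subset_right.trans D.XE) (D.XW'.trans inter_subset_left)
  · exact union_subset (inter_subset_right.trans D.ZE) (D.ZW'.trans inter_subset_left)
  · rw [o1, o2]
  · intro hb
    refine h ((D.bad.loc _ _ ?_).1 hb)
    unfold Eo
    ext l
    simp only [mem_inter, mem_sdiff, mem_union]
    constructor
    · rintro ⟨⟨h1, h2⟩ | h1, ⟨h3, h4⟩, h5⟩
      · exact ⟨h1, ⟨h3, h4⟩, h5⟩
      · exact absurd (mem_inter.1 (D.XW' (mem_sdiff.2 h1))).2 h4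
    · rintro ⟨h1, ⟨h3, h4⟩, h5⟩
      exact ⟨Or.inl ⟨h1, D.XE' (mem_sdiff.2 ⟨h3, h4⟩)⟩, ⟨h3, h4⟩, h5⟩

lemma DispG.eo_X (D : DispG X Z E W WX WZ p r s Bad δ) : Eo E p r s ⊆ X.E :=
  inter_subset_left.trans D.XE'

/-- **Displacement lemma.** -/
theorem dispG (hAP : AP PlaneK) : ∃ C : ℝ, 0 < C ∧ ∀ (X Z : Env) (E W WX WZ : Finset (ℤ × ℤ))
    (p : ℤ × ℤ) (r s : ℕ) (Bad : Finset (ℤ × ℤ) → Prop) (δ : ℝ),
    DispG X Z E W WX WZ p r s Bad δ → ∀ (a b : ℤ) (N : ℕ), R45.Sep p r a b N →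
    Bx (a - N) (a + N) (b - N) (b + N) ⊆ X.E → Bx (a - N) (a + N) (b - N) (b + N) ⊆ Z.E →
    ∀ Hv Hf Gv Gf,
    X.Prim (a - N) (a + N) (b - N) (b + N) Hv Hf → Z.Prim (a - N) (a + N) (b - N) (b + N) Gv Gf →
    ∀ u v : ℤ × ℤ, Qt a N u.1 → Qt b N u.2 → Qt a N v.1 → Qt b N v.2 →
    ‖(Gv u - Gv v) - (Hv u - Hv v)‖ ≤ C * δ * (N : ℝ) ^ (2 / 3 : ℝ) := by
  obtain ⟨CA0, hCA, hap⟩ := hAP
  refine ⟨2 * CA0, by positivity, ?_⟩
  intro X Z E W WX WZ p r s Bad δ D a b N hsep hB hZB Hv Hf Gv Gf hH hG u v hu1 hu2 hv1 hv2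
  set B := Bx (a - N) (a + N) (b - N) (b + N) with hBd
  set M : ℝ := CA0 * (N : ℝ) ^ (2 / 3 : ℝ) with hM
  have hdisj : Disjoint B (BR p r) := by
    rw [disjoint_left]
    intro l hl hl'
    rw [hBd, mem_Bx] at hl
    rw [mem_BR] at hl'
    unfold R45.Sep at hsep
    omega
  have hfarB : ∀ x : ℤ × ℤ, inB (a - N) (a + N) (b - N) (b + N) x → Far p (r + 2) x := by
    intro x hx
    unfold inB at hx
    unfold R45.Sep at hsep
    unfold Far
    rw [le_abs, le_abs]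
    omega
  have hin : ∀ w : ℤ × ℤ, Qt a N w.1 → Qt b N w.2 → inB (a - N) (a + N) (b - N) (b + N) w := by
    intro w h1 h2
    have h3 := h1.bounds
    have h4 := h2.bounds
    unfold inB
    omega
  have hKX : PlaneK X := ⟨WX, D.hX⟩
  have hKZ : PlaneK Z := ⟨WZ, D.hZ⟩
  have hMX : ∀ Y : Env, PlaneK Y → B ⊆ Y.E → ∀ ω1 ⊆ Y.E \ B, ∀ Hv' Hf',
      (Y.freeze B ω1).Prim (a - N) (a + N) (b - N) (b + N) Hv' Hf' → ‖Hv' u - Hv' v‖ ≤ M := by
    intro Y hY hYB ω1 _ Hv' Hf' hP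
    exact hap _ (planeK_freeze hY B ω1) a b N
      (by rw [Env.freeze_E]; exact subset_inter hYB (Subset.refl _)) Hv' Hf' hP u v hu1 hu2 hv1 hv2
  have av : ∀ A : Finset (ℤ × ℤ), A ⊆ X.E ∪ Z.E → ∀ F : Finset (ℤ × ℤ) → ℂ,
      Ec (fun _ => (1 / 2 : ℂ)) (A \ B) F =
        Ec (fun _ => (1 / 2 : ℂ)) ((X.E ∪ Z.E) \ B) (fun ω => F (ω ∩ A)) := by
    intro A hA F
    rw [← Ec_local (fun _ => (1 / 2 : ℂ)) (sdiff_subset_sdiff hA (Subset.refl B)) F]
    refine Ec_congr fun ω hω => ?_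
    congr 1
    ext l
    simp only [mem_inter, mem_sdiff]
    constructor
    · rintro ⟨h1, h2, -⟩
      exact ⟨h1, h2⟩
    · rintro ⟨h1, h2⟩
      exact ⟨h1, h2, (mem_sdiff.1 (hω h1)).2⟩
  have key := Env.compare (X := X) (Z := Z) hB hZB hH hG (hin u hu1 hu2) (hin v hv1 hv2)
    (E1 := (X.E ∪ Z.E) \ B) (r := fun ω => ω ∩ X.E) (s := fun ω => ω ∩ Z.E)
    (fun ω h l hl => mem_sdiff.2 ⟨(mem_inter.1 hl).2, (mem_sdiff.1 (h (mem_inter.1 hl).1)).2⟩)
    (fun ω h l hl => mem_sdiff.2 ⟨(mem_inter.1 hl).2, (mem_sdiff.1 (h (mem_inter.1 hl).1)).2⟩)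
    (av X.E subset_union_left) (av Z.E subset_union_right)
    (ζ := 1) (by simp) (Bad := Bad) (by
      intro ω hω hgood z hz
      rw [one_mul, Env.inc_eq, Env.inc_eq, Env.freeze_E, Env.freeze_E]
      have iX : X.E ∩ B = B := inter_eq_right.2 hB
      have iZ : Z.E ∩ B = B := inter_eq_right.2 hZB
      rw [iX, iZ]
      refine Ec_congr fun ω' hω' => ?_
      rw [Env.freeze_incO (by rw [iZ]; exact hω'), Env.freeze_incO (by rw [iX]; exact hω')]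
      have e : ∀ {A : Finset (ℤ × ℤ)}, B ⊆ A → ω' ∪ ω ∩ A ∩ (A \ B) = (ω' ∪ ω) ∩ A := by
        intro A hA
        ext l
        simp only [mem_inter, mem_union, mem_sdiff]
        constructor
        · rintro (h1 | ⟨⟨h1, h2⟩, -⟩)
          · exact ⟨Or.inl h1, hA (hω' h1)⟩
          · exact ⟨Or.inr h1, h2⟩
        · rintro ⟨h1 | h1, h2⟩
          · exact Or.inl h1
          · exact Or.inr ⟨⟨h1, h2⟩, h2, (mem_sdiff.1 (hω h1)).2⟩
      rw [e hB, e hZB]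
      refine D.incO_eq (union_subset (hω'.trans (hB.trans subset_union_left))
        (hω.trans sdiff_subset)) (hfarB _ hz.1) ?_
      intro hb
      refine hgood ((D.bad.loc _ _ ?_).1 hb)
      unfold Eo
      ext l
      simp only [mem_inter, mem_union, mem_sdiff]
      constructor
      · rintro ⟨h1 | h1, ⟨h2, h3⟩, h4⟩
        · exact absurd h4 (disjoint_left.1 hdisj (hω' h1))
        · exact ⟨h1, ⟨h2, h3⟩, h4⟩
      · rintro ⟨h1, h2⟩
        exact ⟨Or.inr h1, h2⟩)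
    (M := M) (hMX X hKX hB) (hMX Z hKZ hZB)
  rw [one_mul] at key
  refine key.trans ?_
  have hsubE : Eo E p r s ⊆ (X.E ∪ Z.E) \ B := by
    intro l hl
    have h2 : l ∈ BR p r := (mem_inter.1 hl).2
    exact mem_sdiff.2 ⟨mem_union_left _ (D.eo_X hl), fun h3 => disjoint_left.1 hdisj h3 h2⟩
  have hp : PrP (fun _ => 1 / 2) ((X.E ∪ Z.E) \ B) Bad = PrP (fun _ => 1 / 2) (Eo E p r s) Bad := by
    refine PrP_local hsubE fun ω _ => D.bad.loc _ _ ?_
    rw [inter_assoc, inter_self]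
  have hM0 : 0 ≤ 2 * M := by positivity
  rw [hp]
  calc 2 * M * PrP (fun _ => 1 / 2) (Eo E p r s) Bad ≤ 2 * M * δ :=
        mul_le_mul_of_nonneg_left D.pr hM0
    _ = 2 * CA0 * δ * (N : ℝ) ^ (2 / 3 : ℝ) := by rw [hM]; ring

/-- the increments at a far corner -/
theorem DispG.inc_diff (D : DispG X Z E W WX WZ p r s Bad δ) {c : ℤ × ℤ}
    (hfar : Far p (r + 2) (vx c)) : ‖Z.inc c - X.inc c‖ ≤ 2 * δ := by
  classical
  have av : ∀ A : Finset (ℤ × ℤ), A ⊆ X.E ∪ Z.E → ∀ F : Finset (ℤ × ℤ) → ℂ,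
      Ec (fun _ => (1 / 2 : ℂ)) A F = Ec (fun _ => (1 / 2 : ℂ)) (X.E ∪ Z.E) (fun ω => F (ω ∩ A)) := by
    intro A hA F
    rw [← Ec_local (fun _ => (1 / 2 : ℂ)) hA F]
  rw [Env.inc_eq, Env.inc_eq, av X.E subset_union_left, av Z.E subset_union_right, ← Ec_sub]
  have hb : ∀ ω, ω ⊆ X.E ∪ Z.E → ‖Z.incO (ω ∩ Z.E) c - X.incO (ω ∩ X.E) c‖ ≤ 2 * ind (Bad ω) := by
    intro ω hω
    by_cases hB : Bad ω
    · rw [ind_true hB, mul_one]
      have k1 := Env.incO_norm (X := X) (ω := ω ∩ X.E) inter_subset_right c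
      have k2 := Env.incO_norm (X := Z) (ω := ω ∩ Z.E) inter_subset_right c
      refine (norm_sub_le _ _).trans ?_
      linarith
    · rw [ind_false hB, mul_zero, D.incO_eq hω hfar hB, sub_self, norm_zero]
  refine (Ec_half_norm hb).trans ?_
  rw [Ex_smul]
  have hp : PrP (fun _ => 1 / 2) (X.E ∪ Z.E) Bad = PrP (fun _ => 1 / 2) (Eo E p r s) Bad := by
    refine PrP_local (D.eo_X.trans subset_union_left) fun ω _ => D.bad.loc _ _ ?_
    rw [inter_assoc, inter_self]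
  have h1 : PrP (fun _ => 1 / 2) (X.E ∪ Z.E) Bad ≤ δ := by rw [hp]; exact D.pr
  exact mul_le_mul_of_nonneg_left h1 (by norm_num)

/-- **Displacement lemma on a rectangle of tiles.** -/
theorem dispG_rect (hAP : AP PlaneK) : ∃ C : ℝ, 0 < C ∧ ∀ (X Z : Env) (E W WX WZ : Finset (ℤ × ℤ))
    (p : ℤ × ℤ) (r s : ℕ) (Bad : Finset (ℤ × ℤ) → Prop) (δ : ℝ),
    DispG X Z E W WX WZ p r s Bad δ → ∀ (x0 x1 y0 y1 : ℤ) (m n : ℕ),
    RT x0 x1 y0 y1 ⊆ X.E → RT x0 x1 y0 y1 ⊆ Z.E → 256 ≤ m → 8 * r ≤ m → x1 - x0 ≤ n * m →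
    y1 - y0 ≤ n * m →
    ((tv p).1 ≤ x0 + 20 ∨ x1 - 20 ≤ (tv p).1 ∨ (tv p).2 ≤ y0 + 20 ∨ y1 - 20 ≤ (tv p).2) →
    ∀ HX HZ : ℤ → ℤ → ℂ, Pot (fun c => X.inc c) HX x0 x1 y0 y1 →
    Pot (fun c => Z.inc c) HZ x0 x1 y0 y1 → ∀ x y x' y' : ℤ,
    x0 + m ≤ x → x ≤ x1 - m → y0 + m ≤ y → y ≤ y1 - m →
    x0 + m ≤ x' → x' ≤ x1 - m → y0 + m ≤ y' → y' ≤ y1 - m →
    ‖(HZ x' y' - HX x' y') - (HZ x y - HX x y)‖ ≤
      C * (n + 1) * δ * (m : ℝ) ^ (2 / 3 : ℝ) := by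
  obtain ⟨C0, hC0, hdisp⟩ := dispG hAP
  refine ⟨64 * (C0 + 2), by positivity, ?_⟩
  intro X Z E W WX WZ p r s Bad δ0 D x0 x1 y0 y1 m n hE hEZ hm hr hx hy hp HX HZ hX hZ x y x' y'
    a1 a2 a3 a4 b1 b2 b3 b4
  have hm0 : (1 : ℝ) ≤ m := by
    have : 1 ≤ m := by omega
    exact_mod_cast this
  have hδp : 0 ≤ δ0 :=
    (PrP_nonneg (Pb.const (by norm_num) (by norm_num)) _ _).trans D.pr
  set δ : ℝ := (C0 + 2) * δ0 * (m : ℝ) ^ (2 / 3 : ℝ) with hδ
  have hδ0 : 0 ≤ δ := by positivity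
  set N : ℕ := m / 4 with hN
  set q : ℤ := 2 * ((m / 64 : ℕ) : ℤ) with hq
  have hq0 : 0 ≤ q := by omega
  -- steps between even points
  have h1 : ∀ x y x' y', x0 + m - 1 ≤ x → x ≤ x1 - m + 1 → y0 + m ≤ y → y ≤ y1 - m →
      x0 + m - 1 ≤ x' → x' ≤ x1 - m + 1 → y0 + m ≤ y' → y' ≤ y1 - m →
      (x + y) % 2 = 0 → (x' + y') % 2 = 0 → |x' - x| ≤ q → |y' - y| ≤ q →
      ‖(HZ x' y' - HX x' y') - (HZ x y - HX x y)‖ ≤ δ := by
    intro x y x' y' c1 c2 c3 c4 c5 c6 c7 c8 c9 c10 c11 c12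
    obtain ⟨a, b, ha⟩ : ∃ a b : ℤ, x = a + b ∧ y = b - a := ⟨(x - y) / 2, (x + y) / 2, by omega⟩
    obtain ⟨a', b', hb⟩ : ∃ a b : ℤ, x' = a + b ∧ y' = b - a :=
      ⟨(x' - y') / 2, (x' + y') / 2, by omega⟩
    obtain ⟨rfl, rfl⟩ := ha
    obtain ⟨rfl, rfl⟩ := hb
    rw [abs_le] at c11 c12
    have hsep : R45.Sep p r a b N := by
      unfold R45.Sep
      unfold tv at hp
      simp only at hp
      omega
    have hB := bx_sub hE (a := a) (b := b) (N := N) (by omega) (by omega) (by omega) (by omega)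
    have hBZ := bx_sub hEZ (a := a) (b := b) (N := N) (by omega) (by omega) (by omega) (by omega)
    have hPX := prim_of_pot hX (a := a) (b := b) (N := N) (by omega) (by omega) (by omega)
      (by omega)
    have hPZ := prim_of_pot hZ (a := a) (b := b) (N := N) (by omega) (by omega) (by omega)
      (by omega)
    have key := hdisp X Z E W WX WZ p r s Bad δ0 D a b N hsep hB hBZ _ _ _ _ hPX hPZ (a', b') (a, b)
      (by unfold Qt; rw [show (4 : ℤ) * |(a', b').1 - a| = |4 * ((a', b').1 - a)| by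
            rw [abs_mul]; norm_num, abs_le]; simp only; omega)
      (by unfold Qt; rw [show (4 : ℤ) * |(a', b').2 - b| = |4 * ((a', b').2 - b)| by
            rw [abs_mul]; norm_num, abs_le]; simp only; omega)
      (by unfold Qt; simp) (by unfold Qt; simp)
    have e : (HZ (a' + b') (b' - a') - HX (a' + b') (b' - a')) - (HZ (a + b) (b - a) -
        HX (a + b) (b - a)) = (HZ (tv (a', b')).1 (tv (a', b')).2 - HZ (tv (a, b)).1 (tv (a, b)).2) -
        (HX (tv (a', b')).1 (tv (a', b')).2 - HX (tv (a, b)).1 (tv (a, b)).2) := by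
      unfold tv; ring
    rw [e]
    refine key.trans ?_
    have hNm : (N : ℝ) ^ (2 / 3 : ℝ) ≤ (m : ℝ) ^ (2 / 3 : ℝ) := by
      refine Real.rpow_le_rpow (by positivity) ?_ (by norm_num)
      have : N ≤ m := by omega
      exact_mod_cast this
    rw [hδ]
    refine mul_le_mul ?_ hNm (by positivity) (by positivity)
    refine mul_le_mul_of_nonneg_right ?_ hδp
    linarith
  -- steps from an even to an odd point
  have h2 : ∀ x y, x0 + m - 1 ≤ x → x < x1 - m + 1 → y0 + m ≤ y → y ≤ y1 - m →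
      ‖(HZ (x + 1) y - HX (x + 1) y) - (HZ x y - HX x y)‖ ≤ δ := by
    intro x y c1 c2 c3 c4
    have e1 := hX.hor x y (by omega) (by omega) (by omega) (by omega)
    have e2 := hZ.hor x y (by omega) (by omega) (by omega) (by omega)
    have hfar : Far p (r + 2) (vx (H74.R45.he (x, y))) := by
      unfold Far vx H74.R45.he
      unfold tv at hp
      rw [le_abs, le_abs]
      simp only at hp ⊢
      omega
    have e3 : (HZ (x + 1) y - HX (x + 1) y) - (HZ x y - HX x y) =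
        -(sg (x + y) * (Z.inc (H74.R45.he (x, y)) - X.inc (H74.R45.he (x, y)))) := by
      linear_combination e2 - e1
    have e4 : ‖sg (x + y)‖ = 1 := by
      rcases Int.emod_two_eq_zero_or_one (x + y) with hp | hp
      · rw [sg_even hp, norm_one]
      · rw [sg_odd hp, norm_neg, norm_one]
    rw [e3, norm_neg, norm_mul, e4, one_mul]
    refine (D.inc_diff hfar).trans ?_
    have h3 : (1 : ℝ) ≤ (m : ℝ) ^ (2 / 3 : ℝ) := Real.one_le_rpow hm0 (by norm_num)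
    calc 2 * δ0 = 2 * δ0 * 1 := by ring
      _ ≤ (C0 + 2) * δ0 * (m : ℝ) ^ (2 / 3 : ℝ) := by
          refine mul_le_mul ?_ h3 (by norm_num) (by positivity)
          exact mul_le_mul_of_nonneg_right (by linarith) hδp
  -- the chain
  have hqm : (m : ℤ) ≤ 64 * q := by omega
  have hn : (n : ℤ) * m ≤ (64 * n + 1 : ℕ) * q := by
    push_cast
    have : (n : ℤ) * m ≤ n * (64 * q) := mul_le_mul_of_nonneg_left hqm (by positivity)
    linarith
  have key := chain (D := fun x y => HZ x y - HX x y) (a0 := x0 + m - 1) (a1 := x1 - m + 1)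
    (b0 := y0 + m) (b1 := y1 - m) (q := q) (δ := δ) hq0 (by omega) h1 (by omega) h2 (64 * n)
    (by omega) (by omega) x y x' y' (by omega) (by omega) a3 a4 (by omega) (by omega) b3 b4
  refine key.trans ?_
  have h4 : ((64 * n + 3 : ℕ) : ℝ) ≤ 64 * ((n : ℝ) + 1) := by
    push_cast; linarith
  calc ((64 * n + 3 : ℕ) : ℝ) * δ ≤ 64 * ((n : ℝ) + 1) * δ := mul_le_mul_of_nonneg_right h4 hδ0
    _ = 64 * (C0 + 2) * (n + 1) * δ0 * (m : ℝ) ^ (2 / 3 : ℝ) := by rw [hδ]; ring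

end Pool.Agent.H14.Win
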