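import Mathlib
import Pool.Agent.H14.Win.Tog
import Pool.Agent.H14.R45.DispF

set_option autoImplicit false
open Finset

/-! # Connections in the tile frame

`TJ S a b` : the grid points `a`, `b` are joined by diagonals of tiles of `S` (vertices of the primal or of
the dual graph, according to the parity). `Joined S T` : all grid points at which a tile of `S` meets a tile
of `T` are joined, parity by parity. `LW_of`, `LC_of` : the walls are joined. `Joined.rX`, `Joined.rY` :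
reflections. -/

namespace Pool.Agent.H14.Win

open Pool.Agent.H75.Perc hiding ph
open Pool.Agent.H75.TwoArm Pool.Agent.H75.Four Pool.Agent.H69.Q1
open Pool.Agent.Q1 Pool.Agent.H14.R45 Pool.Agent.H99.NC
open Pool.Agent.H33.Q1 (lt tt tv tf lt_inj tt_lt lt_odd lt_tt)

/-- the grid point `a` is a corner of the tile `(x, y)` -/
def Cn (a : ℤ × ℤ) (x y : ℤ) : Prop := (a.1 = x ∨ a.1 = x + 1) ∧ (a.2 = y ∨ a.2 = y + 1)

/-- a diagonal of a tile of `S` -/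
def Stp (S : ℤ → ℤ → Prop) (a b : ℤ × ℤ) : Prop :=
  ∃ x y, S x y ∧ ((a.1 = x ∧ b.1 = x + 1) ∨ (a.1 = x + 1 ∧ b.1 = x)) ∧
    ((a.2 = y ∧ b.2 = y + 1) ∨ (a.2 = y + 1 ∧ b.2 = y))

def TJ (S : ℤ → ℤ → Prop) : ℤ × ℤ → ℤ × ℤ → Prop := Relation.ReflTransGen (Stp S)

variable {S T S' : ℤ → ℤ → Prop} {a b c : ℤ × ℤ}

lemma Stp.symm (h : Stp S a b) : Stp S b a := by
  obtain ⟨x, y, h1, h2, h3⟩ := h
  exact ⟨x, y, h1, by tauto, by tauto⟩

lemma TJ.refl (a : ℤ × ℤ) : TJ S a a := Relation.ReflTransGen.refl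

lemma TJ.symm (h : TJ S a b) : TJ S b a := by
  induction h with
  | refl => exact Relation.ReflTransGen.refl
  | tail _ h2 ih => exact Relation.ReflTransGen.head h2.symm ih

lemma TJ.trans (h : TJ S a b) (h' : TJ S b c) : TJ S a c := Relation.ReflTransGen.trans h h'

lemma TJ.mono (hS : ∀ x y, S x y → S' x y) (h : TJ S a b) : TJ S' a b :=
  Relation.ReflTransGen.mono (fun _ _ ⟨x, y, h1, h2⟩ => ⟨x, y, hS x y h1, h2⟩) _ _ h

/-- chain in a column -/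
lemma TJ.col {k Y0 Y1 : ℤ} (hS : ∀ y, Y0 ≤ y → y < Y1 → S k y) {X Y X' Y' : ℤ}
    (hp : (X + Y - X' - Y') % 2 = 0) (hX : X = k ∨ X = k + 1) (hX' : X' = k ∨ X' = k + 1)
    (h1 : Y0 ≤ Y) (h2 : Y ≤ Y1) (h1' : Y0 ≤ Y') (h2' : Y' ≤ Y1) : TJ S (X, Y) (X', Y') := by
  have key : ∀ n : ℕ, ∀ X Y X' Y' : ℤ, (X + Y - X' - Y') % 2 = 0 → (X = k ∨ X = k + 1) →
      (X' = k ∨ X' = k + 1) → Y0 ≤ Y → Y' = Y + n → Y' ≤ Y1 → TJ S (X, Y) (X', Y') := by
    intro n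
    induction n with
    | zero =>
      intro X Y X' Y' h hX hX' h1 e h2
      have e1 : X = X' := by push_cast at e; omega
      have e2 : Y = Y' := by push_cast at e; omega
      subst e1 e2
      exact TJ.refl _
    | succ n ih =>
      intro X Y X' Y' h hX hX' h1 e h2
      push_cast at e
      have s1 : Stp S (X, Y) (2 * k + 1 - X, Y + 1) :=
        ⟨k, Y, hS _ h1 (by omega), by simp only; omega, Or.inl ⟨rfl, rfl⟩⟩
      exact Relation.ReflTransGen.head s1 (ih (2 * k + 1 - X) (Y + 1) X' Y' (by omega) (by omega) hX'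
        (by omega) (by omega) h2)
  rcases le_total Y Y' with hy | hy
  · exact key (Y' - Y).toNat X Y X' Y' hp hX hX' h1 (by omega) h2'
  · exact (key (Y - Y').toNat X' Y' X Y (by omega) hX' hX h1' (by omega) h2).symm

/-- chain in a row -/
lemma TJ.row {k X0 X1 : ℤ} (hS : ∀ x, X0 ≤ x → x < X1 → S x k) {X Y X' Y' : ℤ}
    (hp : (X + Y - X' - Y') % 2 = 0) (hY : Y = k ∨ Y = k + 1) (hY' : Y' = k ∨ Y' = k + 1)
    (h1 : X0 ≤ X) (h2 : X ≤ X1) (h1' : X0 ≤ X') (h2' : X' ≤ X1) : TJ S (X, Y) (X', Y') := by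
  have key : ∀ n : ℕ, ∀ X Y X' Y' : ℤ, (X + Y - X' - Y') % 2 = 0 → (Y = k ∨ Y = k + 1) →
      (Y' = k ∨ Y' = k + 1) → X0 ≤ X → X' = X + n → X' ≤ X1 → TJ S (X, Y) (X', Y') := by
    intro n
    induction n with
    | zero =>
      intro X Y X' Y' h hX hX' h1 e h2
      have e1 : X = X' := by push_cast at e; omega
      have e2 : Y = Y' := by push_cast at e; omega
      subst e1 e2
      exact TJ.refl _
    | succ n ih =>
      intro X Y X' Y' h hX hX' h1 e h2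
      push_cast at e
      have s1 : Stp S (X, Y) (X + 1, 2 * k + 1 - Y) :=
        ⟨X, k, hS _ h1 (by omega), Or.inl ⟨rfl, rfl⟩, by simp only; omega⟩
      exact Relation.ReflTransGen.head s1 (ih (X + 1) (2 * k + 1 - Y) X' Y' (by omega) (by omega) hX'
        (by omega) (by omega) h2)
  rcases le_total X X' with hy | hy
  · exact key (X' - X).toNat X Y X' Y' hp hY hY' h1 (by omega) h2'
  · exact (key (X - X').toNat X' Y' X Y (by omega) hY' hY h1' (by omega) h2).symm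

/-! ### Reflections -/

lemma TJ.rX {X Y X' Y' : ℤ} (h : TJ (fun x y => S (-1 - x) y) (-X, Y) (-X', Y')) :
    TJ S (X, Y) (X', Y') := by
  have key : ∀ a b : ℤ × ℤ, TJ (fun x y => S (-1 - x) y) a b → TJ S (-a.1, a.2) (-b.1, b.2) := by
    intro a b h
    induction h with
    | refl => exact TJ.refl _
    | @tail p q _ hpq ih =>
      refine ih.trans (Relation.ReflTransGen.single ?_)
      obtain ⟨x, y, h1, h2, h3⟩ := hpq
      exact ⟨-1 - x, y, h1, by simp only; omega, h3⟩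
  have := key _ _ h
  simpa using this

lemma TJ.rY {X Y X' Y' : ℤ} (h : TJ (fun x y => S x (-1 - y)) (X, -Y) (X', -Y')) :
    TJ S (X, Y) (X', Y') := by
  have key : ∀ a b : ℤ × ℤ, TJ (fun x y => S x (-1 - y)) a b → TJ S (a.1, -a.2) (b.1, -b.2) := by
    intro a b h
    induction h with
    | refl => exact TJ.refl _
    | @tail p q _ hpq ih =>
      refine ih.trans (Relation.ReflTransGen.single ?_)
      obtain ⟨x, y, h1, h2, h3⟩ := hpq
      exact ⟨x, -1 - y, h1, h2, by simp only; omega⟩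
  have := key _ _ h
  simpa using this

/-- a tile of `S` and a tile of `T` meet at the grid point -/
def Mt (S T : ℤ → ℤ → Prop) (a : ℤ × ℤ) : Prop :=
  (∃ x y, Cn a x y ∧ S x y) ∧ ∃ x y, Cn a x y ∧ T x y

/-- all grid points where `S` and `T` meet are joined -/
def Joined (S T : ℤ → ℤ → Prop) : Prop :=
  ∀ X Y X' Y', Mt S T (X, Y) → Mt S T (X', Y') → (X + Y - X' - Y') % 2 = 0 → TJ S (X, Y) (X', Y')

lemma Mt.rX {X Y : ℤ} (h : Mt S T (X, Y)) :
    Mt (fun x y => S (-1 - x) y) (fun x y => T (-1 - x) y) (-X, Y) := by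
  obtain ⟨⟨x, y, h1, h2⟩, x', y', h3, h4⟩ := h
  unfold Cn at h1 h3
  refine ⟨⟨-1 - x, y, ?_, ?_⟩, -1 - x', y', ?_, ?_⟩
  · unfold Cn; simp only at h1 ⊢; omega
  · simpa using h2
  · unfold Cn; simp only at h3 ⊢; omega
  · simpa using h4

lemma Mt.rY {X Y : ℤ} (h : Mt S T (X, Y)) :
    Mt (fun x y => S x (-1 - y)) (fun x y => T x (-1 - y)) (X, -Y) := by
  obtain ⟨⟨x, y, h1, h2⟩, x', y', h3, h4⟩ := h
  unfold Cn at h1 h3
  refine ⟨⟨x, -1 - y, ?_, ?_⟩, x', -1 - y', ?_, ?_⟩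
  · unfold Cn; simp only at h1 ⊢; omega
  · simpa using h2
  · unfold Cn; simp only at h3 ⊢; omega
  · simpa using h4

lemma Joined.rX (h : Joined (fun x y => S (-1 - x) y) (fun x y => T (-1 - x) y)) : Joined S T := by
  intro X Y X' Y' h1 h2 hp
  exact TJ.rX (h _ _ _ _ h1.rX h2.rX (by omega))

lemma Joined.rY (h : Joined (fun x y => S x (-1 - y)) (fun x y => T x (-1 - y))) : Joined S T := by
  intro X Y X' Y' h1 h2 hp
  exact TJ.rY (h _ _ _ _ h1.rY h2.rY (by omega))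

/-- a smaller set of joining tiles -/
lemma Joined.mono (h : Joined S' T) (h1 : ∀ x y, S' x y → S x y)
    (h2 : ∀ X Y, Mt S T (X, Y) → Mt S' T (X, Y)) : Joined S T := fun X Y X' Y' g1 g2 hp =>
  (h X Y X' Y' (h2 _ _ g1) (h2 _ _ g2) hp).mono h1

/-! ### Vertices and faces -/

lemma co_of_TJ {A : Finset (ℤ × ℤ)} (hA : ∀ x y, S x y → lt (x, y) ∈ A) {X Y X' Y' : ℤ}
    (hp : (X + Y) % 2 = 0) (h : TJ S (X, Y) (X', Y')) : Co A (vt X Y) (vt X' Y') := by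
  have key : ∀ a b : ℤ × ℤ, TJ S a b → (a.1 + a.2) % 2 = 0 →
      (b.1 + b.2) % 2 = 0 ∧ Co A (vt a.1 a.2) (vt b.1 b.2) := by
    intro a b h ha
    induction h with
    | refl => exact ⟨ha, Co.refl _ _⟩
    | @tail p q _ hpq ih =>
      obtain ⟨i1, i2⟩ := ih
      obtain ⟨x, y, h1, h2, h3⟩ := hpq
      exact ⟨by omega, i2.trans (ad_vt i1 h2 h3 (hA x y h1))⟩
  exact (key _ _ h hp).2

lemma dco_of_TJ {A ω : Finset (ℤ × ℤ)} (hA : ∀ x y, S x y → lt (x, y) ∈ A ∧ lt (x, y) ∉ ω)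
    {X Y X' Y' : ℤ} (hp : (X + Y) % 2 = 1) (h : TJ S (X, Y) (X', Y')) :
    Co (du A ω) (ft X Y) (ft X' Y') := by
  have key : ∀ a b : ℤ × ℤ, TJ S a b → (a.1 + a.2) % 2 = 1 →
      (b.1 + b.2) % 2 = 1 ∧ Co (du A ω) (ft a.1 a.2) (ft b.1 b.2) := by
    intro a b h ha
    induction h with
    | refl => exact ⟨ha, Co.refl _ _⟩
    | @tail p q _ hpq ih =>
      obtain ⟨i1, i2⟩ := ih
      obtain ⟨x, y, h1, h2, h3⟩ := hpq
      exact ⟨by omega, i2.trans (ad_ft i1 h2 h3 (hA x y h1).1 (hA x y h1).2)⟩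
  exact (key _ _ h hp).2

variable {E W M : Finset (ℤ × ℤ)}

/-- the open tiles of the box -/
def OW (W M : Finset (ℤ × ℤ)) (x y : ℤ) : Prop := lt (x, y) ∈ W ∧ lt (x, y) ∈ M
/-- the closed tiles of the box -/
def OC (E W M : Finset (ℤ × ℤ)) (x y : ℤ) : Prop :=
  lt (x, y) ∈ M ∧ lt (x, y) ∉ E ∧ lt (x, y) ∉ W
/-- the random tiles of the box -/
def OE (E M : Finset (ℤ × ℤ)) (x y : ℤ) : Prop := lt (x, y) ∈ E ∧ lt (x, y) ∈ M

/-- the vertices of the wired wall -/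
def Vwl (E W M : Finset (ℤ × ℤ)) (v : ℤ × ℤ) : Prop :=
  ∃ X Y, v = vt X Y ∧ (X + Y) % 2 = 0 ∧ Mt (OW W M) (OE E M) (X, Y)

/-- the faces of the free wall -/
def Fwl (E W M : Finset (ℤ × ℤ)) (v : ℤ × ℤ) : Prop :=
  ∃ X Y, v = ft X Y ∧ (X + Y) % 2 = 1 ∧ Mt (OC E W M) (OE E M) (X, Y)

theorem LW_of (h : Joined (OW W M) (OE E M)) : LW E W M (Vwl E W M) := by
  constructor
  · rintro x y ⟨X, Y, rfl, hp, h1⟩ ⟨X', Y', rfl, hp', h2⟩
    exact co_of_TJ (fun x y h => mem_inter.2 h) hp (h _ _ _ _ h1 h2 (by omega))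
  · intro x y y' h1 h2 h3 h4 h5
    obtain ⟨X, Y, rfl, hp⟩ := exists_vt x
    obtain ⟨X', Y', rfl, -, x1, y1, e1, f1, f2⟩ := unit_vt hp h1
    obtain ⟨X2, Y2, rfl, -, x2, y2, e2, g1, g2⟩ := unit_vt hp h4
    rw [e1] at h2 h3
    rw [e2, mem_inter] at h5
    exact ⟨X, Y, rfl, hp, ⟨x1, y1, ⟨by simp only; omega, by simp only; omega⟩, h2, h3⟩,
      x2, y2, ⟨by simp only; omega, by simp only; omega⟩, h5.1, h5.2⟩

theorem LC_of (h : Joined (OC E W M) (OE E M)) : LC E W M (Fwl E W M) := by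
  constructor
  · rintro x y ⟨X, Y, rfl, hp, h1⟩ ⟨X', Y', rfl, hp', h2⟩
    exact dco_of_TJ (fun x y h => ⟨mem_sdiff.2 ⟨h.1, h.2.1⟩, h.2.2⟩) hp (h _ _ _ _ h1 h2 (by omega))
  · intro x y y' h1 h2 h3 h3' h4 h5
    obtain ⟨X, Y, rfl, hp⟩ := exists_ft x
    obtain ⟨X', Y', rfl, -, x1, y1, e1, f1, f2⟩ := unit_ft hp h1
    obtain ⟨X2, Y2, rfl, -, x2, y2, e2, g1, g2⟩ := unit_ft hp h4
    rw [e1] at h2 h3 h3'
    rw [e2, mem_inter] at h5
    exact ⟨X, Y, rfl, hp, ⟨x1, y1, ⟨by simp only; omega, by simp only; omega⟩, h2, h3, h3'⟩,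
      x2, y2, ⟨by simp only; omega, by simp only; omega⟩, h5.1, h5.2⟩

/-! ### The box -/

/-- the box `BR (vt P Q) r` in the tile frame, `κ = P - Q`, `l = P + Q` -/
def Md (κ l r x y : ℤ) : Prop :=
  (-(2 * r) ≤ x - y - κ ∧ x - y - κ ≤ 2 * r) ∧ (-(2 * r) ≤ x + y + 1 - l ∧ x + y + 1 - l ≤ 2 * r)

lemma mem_Md {P Q : ℤ} (hP : (P + Q) % 2 = 0) {r x y : ℤ} :
    lt (x, y) ∈ BR (vt P Q) r ↔ Md (P - Q) (P + Q) r x y := by
  rw [lt_mem_BR hP, abs_le, abs_le]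
  rfl

lemma Md.rX {κ l r x y : ℤ} : Md κ l r (-1 - x) y ↔ Md (-l) (-κ) r x y := by
  unfold Md; constructor <;> intro h <;> omega

lemma Md.rY {κ l r x y : ℤ} : Md κ l r x (-1 - y) ↔ Md l κ r x y := by
  unfold Md; constructor <;> intro h <;> omega

end Pool.Agent.H14.Win
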