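import Mathlib
import Pool.Agent.H14.Win.Jn

set_option autoImplicit false
open Finset

/-! # Walls near a corner are joined

Canonical orientation. `Rfx` : reflex corner, the removed quadrant is `x < P`, `y < Q`; `Cvx` : convex corner,
the quadrant `P ≤ x`, `Q ≤ y`. All tiles of the small rectangle `[xa, xb] × [ya, yb]` at the corner are
random. `Dt c` : deterministic tiles of the colour `c`. `Rfx.joined`, `Cvx.joined`. -/

namespace Pool.Agent.H14.Win

variable {Ep Wp : ℤ → ℤ → Prop} {P Q L xa xb ya yb ys κ l r : ℤ} {c cv ch : Bool}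

/-- deterministic tiles of the colour `c` -/
def Dt (c : Bool) (Ep Wp : ℤ → ℤ → Prop) (x y : ℤ) : Prop := ¬ Ep x y ∧ (Wp x y ↔ c = true)

/-- a reflex corner -/
structure Rfx (Ep Wp : ℤ → ℤ → Prop) (P Q L xa xb ya yb : ℤ) (c : Bool) : Prop where
  x1 : P - 16 ≤ xa
  x2 : xa ≤ P - 2
  x3 : P + 2 ≤ xb
  x4 : xb ≤ P + 16
  y1 : Q - 16 ≤ ya
  y2 : ya ≤ Q - 2
  y3 : Q + 2 ≤ yb
  y4 : yb ≤ Q + 16
  sq : ∀ x y, xa ≤ x → x ≤ xb → ya ≤ y → y ≤ yb → Ep x y
  rnd : ∀ x y, P - L ≤ x → x ≤ P + L → Q - L ≤ y → y ≤ Q + L → (P ≤ x ∨ Q ≤ y) → Ep x y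
  col : ∀ x y, P - L ≤ x → Q - L ≤ y → x < P → y < Q → (x < xa ∨ y < ya) →
    ¬ Ep x y ∧ (Wp x y ↔ c = true)

/-- a convex corner -/
structure Cvx (Ep Wp : ℤ → ℤ → Prop) (P Q L xa xb ya yb ys : ℤ) (cv ch : Bool) : Prop where
  x1 : P - 16 ≤ xa
  x2 : xa ≤ P - 1
  x3 : P + 2 ≤ xb
  x4 : xb ≤ P + 16
  y1 : Q - 16 ≤ ya
  y2 : ya ≤ Q - 1
  y3 : Q + 2 ≤ yb
  y4 : yb ≤ Q + 16
  s1 : ya ≤ ys
  s2 : ys ≤ yb
  sq : ∀ x y, xa ≤ x → x ≤ xb → ya ≤ y → y ≤ yb → Ep x y
  rnd : ∀ x y, x ≤ P + L → y ≤ Q + L → P ≤ x → Q ≤ y → Ep x y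
  col : ∀ x y, x ≤ P + L → y ≤ Q + L → xa ≤ x + 1 → ya ≤ y + 1 → (x < P ∨ y < Q) →
    (x < xa ∨ xb < x ∨ y < ya ∨ yb < y) →
    ¬ Ep x y ∧ (Wp x y ↔ (if x < P ∧ ys ≤ y then cv else ch) = true)
  out : ∀ x y, P - L ≤ x → x ≤ P + L → Q - L ≤ y → y ≤ Q + L → (x + 1 < xa ∨ y + 1 < ya) → ¬ Ep x y

/-- the centre of the box is near the corner, the box is neither too small nor too large -/
structure Ctr (P Q L κ l r : ℤ) : Prop where
  k1 : P - Q - 4 ≤ κ
  k2 : κ ≤ P - Q + 4
  l1 : P + Q - 4 ≤ l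
  l2 : l ≤ P + Q + 4
  r1 : 24 ≤ r
  r2 : 2 * r + 8 ≤ L

/-- the base point -/
def zp (u v X Y : ℤ) : ℤ × ℤ := (u + (X + Y - u - v) % 2, v)

lemma zp_eq {u v X Y X' Y' : ℤ} (h : (X + Y - X' - Y') % 2 = 0) : zp u v X Y = zp u v X' Y' := by
  unfold zp
  refine Prod.ext ?_ rfl
  simp only
  omega

theorem Rfx.joined (R : Rfx Ep Wp P Q L xa xb ya yb c) (C : Ctr P Q L κ l r) :
    Joined (fun x y => Dt c Ep Wp x y ∧ Md κ l r x y) (fun x y => Ep x y ∧ Md κ l r x y) := by
  obtain ⟨k1, k2, l1, l2, r1, r2⟩ := C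
  have S := fun (x y : ℤ) (h1 : x < P) (h2 : y < Q) (h3 : x < xa ∨ y < ya) (h4 : Md κ l r x y) =>
    (show Dt c Ep Wp x y ∧ Md κ l r x y from ⟨R.col x y (by unfold Md at h4; omega)
      (by unfold Md at h4; omega) h1 h2 h3, h4⟩)
  have a1 := R.x1; have a2 := R.x2; have a3 := R.x3; have a4 := R.x4
  have b1 := R.y1; have b2 := R.y2; have b3 := R.y3; have b4 := R.y4
  have key : ∀ X Y, Mt (fun x y => Dt c Ep Wp x y ∧ Md κ l r x y) (fun x y => Ep x y ∧ Md κ l r x y) (X, Y) →
      TJ (fun x y => Dt c Ep Wp x y ∧ Md κ l r x y) (X, Y) (zp (xa - 1) (ya - 1) X Y) := by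
    rintro X Y ⟨⟨x1, y1, ⟨c1, c2⟩, ⟨d1, -⟩, m1⟩, x2, y2, ⟨e1, e2⟩, f1, m2⟩
    simp only at c1 c2 e1 e2
    unfold Md at m1 m2
    have g1 : x1 < P ∧ y1 < Q := by
      by_contra hc
      exact d1 (R.rnd x1 y1 (by omega) (by omega) (by omega) (by omega) (by omega))
    have g2 : x1 < xa ∨ y1 < ya := by
      by_contra hc
      exact d1 (R.sq x1 y1 (by omega) (by omega) (by omega) (by omega))
    have g3 : P ≤ x2 ∨ Q ≤ y2 ∨ (xa ≤ x2 ∧ ya ≤ y2) := by
      by_contra hc
      exact (R.col x2 y2 (by omega) (by omega) (by omega) (by omega) (by omega)).1 f1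
    clear d1 f1
    unfold zp
    rcases (by omega : (x1 = P - 1 ∧ y1 < ya) ∨ (y1 = ya - 1 ∧ xa - 1 ≤ x1) ∨
        (x1 = xa - 1 ∧ ya - 1 ≤ y1) ∨ (y1 = Q - 1 ∧ x1 < xa)) with h | h | h | h
    · obtain ⟨h1, h2⟩ := h
      have t1 : TJ (fun x y => Dt c Ep Wp x y ∧ Md κ l r x y) (X, Y)
          (P - 1 + (X + Y - (P - 1) - (ya - 1)) % 2, ya - 1) := by
        refine TJ.col (k := P - 1) (Y0 := y1) (Y1 := ya) (fun y z1 z2 => ?_) (by omega) (by omega)
          (by omega) (by omega) (by omega) (by omega) (by omega)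
        exact S _ _ (by omega) (by omega) (by omega) (by unfold Md; omega)
      have t2 : TJ (fun x y => Dt c Ep Wp x y ∧ Md κ l r x y)
          (P - 1 + (X + Y - (P - 1) - (ya - 1)) % 2, ya - 1)
          (xa - 1 + (X + Y - (xa - 1) - (ya - 1)) % 2, ya - 1) := by
        refine TJ.row (k := ya - 1) (X0 := xa - 1) (X1 := P) (fun x z1 z2 => ?_) (by omega) (by omega)
          (by omega) (by omega) (by omega) (by omega) (by omega)
        exact S _ _ (by omega) (by omega) (by omega) (by unfold Md; omega)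
      exact t1.trans t2
    · obtain ⟨h1, h2⟩ := h
      refine TJ.row (k := ya - 1) (X0 := xa - 1) (X1 := P) (fun x z1 z2 => ?_) (by omega) (by omega)
        (by omega) (by omega) (by omega) (by omega) (by omega)
      exact S _ _ (by omega) (by omega) (by omega) (by unfold Md; omega)
    · obtain ⟨h1, h2⟩ := h
      refine TJ.col (k := xa - 1) (Y0 := ya - 1) (Y1 := Q) (fun y z1 z2 => ?_) (by omega) (by omega)
        (by omega) (by omega) (by omega) (by omega) (by omega)
      exact S _ _ (by omega) (by omega) (by omega) (by unfold Md; omega)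
    · obtain ⟨h1, h2⟩ := h
      have t1 : TJ (fun x y => Dt c Ep Wp x y ∧ Md κ l r x y) (X, Y)
          (xa - 1 + (X + Y - (xa - 1) - (Q - 1)) % 2, Q - 1) := by
        refine TJ.row (k := Q - 1) (X0 := x1) (X1 := xa) (fun x z1 z2 => ?_) (by omega) (by omega)
          (by omega) (by omega) (by omega) (by omega) (by omega)
        exact S _ _ (by omega) (by omega) (by omega) (by unfold Md; omega)
      have t2 : TJ (fun x y => Dt c Ep Wp x y ∧ Md κ l r x y)
          (xa - 1 + (X + Y - (xa - 1) - (Q - 1)) % 2, Q - 1)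
          (xa - 1 + (X + Y - (xa - 1) - (ya - 1)) % 2, ya - 1) := by
        refine TJ.col (k := xa - 1) (Y0 := ya - 1) (Y1 := Q) (fun y z1 z2 => ?_) (by omega) (by omega)
          (by omega) (by omega) (by omega) (by omega) (by omega)
        exact S _ _ (by omega) (by omega) (by omega) (by unfold Md; omega)
      exact t1.trans t2
  intro X Y X' Y' h1 h2 hp
  have k1 := key X Y h1
  have k2 := key X' Y' h2
  rw [zp_eq hp] at k1
  exact k1.trans k2.symm

theorem Cvx.joined (R : Cvx Ep Wp P Q L xa xb ya yb ys cv ch) (C : Ctr P Q L κ l r) (c : Bool) :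
    Joined (fun x y => Dt c Ep Wp x y ∧ Md κ l r x y) (fun x y => Ep x y ∧ Md κ l r x y) := by
  obtain ⟨k1, k2, l1, l2, r1, r2⟩ := C
  have a1 := R.x1; have a2 := R.x2; have a3 := R.x3; have a4 := R.x4
  have b1 := R.y1; have b2 := R.y2; have b3 := R.y3; have b4 := R.y4
  have s1 := R.s1; have s2 := R.s2
  -- the tiles of the two walls
  have SV := fun (hc : cv = c) (x y : ℤ) (h1 : x < P) (h2 : ys ≤ y) (h0 : xa ≤ x + 1)
    (h3 : x < xa ∨ yb < y) (h4 : Md κ l r x y) =>
    (show Dt c Ep Wp x y ∧ Md κ l r x y from by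
      have := R.col x y (by unfold Md at h4; omega) (by unfold Md at h4; omega) h0 (by omega)
        (Or.inl h1) (by omega)
      rw [if_pos ⟨h1, h2⟩, hc] at this
      exact ⟨this, h4⟩)
  have SH := fun (hc : ch = c) (x y : ℤ) (h1 : P ≤ x ∨ y < ys) (h0 : xa ≤ x + 1) (h2 : ya ≤ y + 1)
    (h5 : x < P ∨ y < Q) (h3 : x < xa ∨ xb < x ∨ y < ya ∨ yb < y) (h4 : Md κ l r x y) =>
    (show Dt c Ep Wp x y ∧ Md κ l r x y from by
      have := R.col x y (by unfold Md at h4; omega) (by unfold Md at h4; omega) h0 h2 h5 h3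
      rw [if_neg (by omega), hc] at this
      exact ⟨this, h4⟩)
  have key : ∀ X Y, Mt (fun x y => Dt c Ep Wp x y ∧ Md κ l r x y) (fun x y => Ep x y ∧ Md κ l r x y) (X, Y) →
      (cv = c ∧ TJ (fun x y => Dt c Ep Wp x y ∧ Md κ l r x y) (X, Y) (zp (xa - 1) (yb + 1) X Y)) ∨
      (ch = c ∧ TJ (fun x y => Dt c Ep Wp x y ∧ Md κ l r x y) (X, Y) (zp (xa - 1) (ya - 1) X Y)) := by
    rintro X Y ⟨⟨x1, y1, ⟨c1, c2⟩, ⟨d1, d2⟩, m1⟩, x2, y2, ⟨e1, e2⟩, f1, m2⟩
    simp only at c1 c2 e1 e2
    unfold Md at m1 m2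
    have g1 : x1 < P ∨ y1 < Q := by
      by_contra hc
      exact d1 (R.rnd x1 y1 (by omega) (by omega) (by omega) (by omega))
    have g2 : x1 < xa ∨ xb < x1 ∨ y1 < ya ∨ yb < y1 := by
      by_contra hc
      exact d1 (R.sq x1 y1 (by omega) (by omega) (by omega) (by omega))
    have g4 : xa ≤ x2 + 1 ∧ ya ≤ y2 + 1 := by
      by_contra hc
      exact R.out x2 y2 (by omega) (by omega) (by omega) (by omega) (by omega) f1
    have g3 : (P ≤ x2 ∧ Q ≤ y2) ∨ (xa ≤ x2 ∧ x2 ≤ xb ∧ ya ≤ y2 ∧ y2 ≤ yb) := by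
      by_contra hc
      exact (R.col x2 y2 (by omega) (by omega) g4.1 g4.2 (by omega) (by omega)).1 f1
    have g5 := R.col x1 y1 (by omega) (by omega) (by omega) (by omega) g1 g2
    have g6 : (if x1 < P ∧ ys ≤ y1 then cv else ch) = c := by
      have h1 := d2.symm.trans g5.2
      revert h1
      generalize (if x1 < P ∧ ys ≤ y1 then cv else ch) = b
      intro h1
      cases b <;> cases c <;> simp_all
    clear d1 d2 f1 g5
    unfold zp
    by_cases hV : x1 < P ∧ ys ≤ y1
    · rw [if_pos hV] at g6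
      have SV' := SV g6
      left
      refine ⟨g6, ?_⟩
      clear SV SH g6 g4
      obtain ⟨v1, v2⟩ := hV
      rcases (by omega : (x1 = P - 1 ∧ yb < y1) ∨ (y1 = yb + 1 ∧ xa - 1 ≤ x1) ∨
          (x1 = xa - 1 ∧ y1 ≤ yb + 1)) with h | h | h
      · obtain ⟨h1, h2⟩ := h
        have t1 : TJ (fun x y => Dt c Ep Wp x y ∧ Md κ l r x y) (X, Y)
            (P - 1 + (X + Y - (P - 1) - (yb + 1)) % 2, yb + 1) := by
          refine TJ.col (k := P - 1) (Y0 := yb + 1) (Y1 := y1 + 1) (fun y z1 z2 => ?_) (by omega)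
            (by omega) (by omega) (by omega) (by omega) (by omega) (by omega)
          exact SV' _ _ (by omega) (by omega) (by omega) (by omega) (by unfold Md; omega)
        have t2 : TJ (fun x y => Dt c Ep Wp x y ∧ Md κ l r x y)
            (P - 1 + (X + Y - (P - 1) - (yb + 1)) % 2, yb + 1)
            (xa - 1 + (X + Y - (xa - 1) - (yb + 1)) % 2, yb + 1) := by
          refine TJ.row (k := yb + 1) (X0 := xa - 1) (X1 := P) (fun x z1 z2 => ?_) (by omega)
            (by omega) (by omega) (by omega) (by omega) (by omega) (by omega)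
          exact SV' _ _ (by omega) (by omega) (by omega) (by omega) (by unfold Md; omega)
        exact t1.trans t2
      · obtain ⟨h1, h2⟩ := h
        refine TJ.row (k := yb + 1) (X0 := xa - 1) (X1 := P) (fun x z1 z2 => ?_) (by omega) (by omega)
          (by omega) (by omega) (by omega) (by omega) (by omega)
        exact SV' _ _ (by omega) (by omega) (by omega) (by omega) (by unfold Md; omega)
      · obtain ⟨h1, h2⟩ := h
        refine TJ.col (k := xa - 1) (Y0 := ys) (Y1 := yb + 2) (fun y z1 z2 => ?_) (by omega) (by omega)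
          (by omega) (by omega) (by omega) (by omega) (by omega)
        exact SV' _ _ (by omega) (by omega) (by omega) (by omega) (by unfold Md; omega)
    · rw [if_neg hV] at g6
      have SH' := SH g6
      right
      refine ⟨g6, ?_⟩
      clear SV SH g6 g4
      have v1 : P ≤ x1 ∨ y1 < ys := by omega
      clear hV
      rcases (by omega : (x1 = xa - 1 ∧ ya - 1 ≤ y1 ∧ y1 < ys) ∨
          (y1 = ya - 1 ∧ xa - 1 ≤ x1 ∧ x1 ≤ xb + 1) ∨ (x1 = xb + 1 ∧ ya - 1 ≤ y1 ∧ y1 < Q) ∨
          (y1 = Q - 1 ∧ xb < x1)) with h | h | h | h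
      · obtain ⟨h1, h2, h3⟩ := h
        refine TJ.col (k := xa - 1) (Y0 := ya - 1) (Y1 := ys) (fun y z1 z2 => ?_) (by omega) (by omega)
          (by omega) (by omega) (by omega) (by omega) (by omega)
        exact SH' _ _ (by omega) (by omega) (by omega) (by omega) (by omega) (by unfold Md; omega)
      · obtain ⟨h1, h2, h3⟩ := h
        refine TJ.row (k := ya - 1) (X0 := xa - 1) (X1 := xb + 2) (fun x z1 z2 => ?_) (by omega)
          (by omega) (by omega) (by omega) (by omega) (by omega) (by omega)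
        exact SH' _ _ (by omega) (by omega) (by omega) (by omega) (by omega) (by unfold Md; omega)
      · obtain ⟨h1, h2, h3⟩ := h
        have t1 : TJ (fun x y => Dt c Ep Wp x y ∧ Md κ l r x y) (X, Y)
            (xb + 1 + (X + Y - (xb + 1) - (ya - 1)) % 2, ya - 1) := by
          refine TJ.col (k := xb + 1) (Y0 := ya - 1) (Y1 := Q) (fun y z1 z2 => ?_) (by omega)
            (by omega) (by omega) (by omega) (by omega) (by omega) (by omega)
          exact SH' _ _ (by omega) (by omega) (by omega) (by omega) (by omega) (by unfold Md; omega)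
        have t2 : TJ (fun x y => Dt c Ep Wp x y ∧ Md κ l r x y)
            (xb + 1 + (X + Y - (xb + 1) - (ya - 1)) % 2, ya - 1)
            (xa - 1 + (X + Y - (xa - 1) - (ya - 1)) % 2, ya - 1) := by
          refine TJ.row (k := ya - 1) (X0 := xa - 1) (X1 := xb + 2) (fun x z1 z2 => ?_) (by omega)
            (by omega) (by omega) (by omega) (by omega) (by omega) (by omega)
          exact SH' _ _ (by omega) (by omega) (by omega) (by omega) (by omega) (by unfold Md; omega)
        exact t1.trans t2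
      · obtain ⟨h1, h2⟩ := h
        have t0 : TJ (fun x y => Dt c Ep Wp x y ∧ Md κ l r x y) (X, Y)
            (xb + 1 + (X + Y - (xb + 1) - (Q - 1)) % 2, Q - 1) := by
          refine TJ.row (k := Q - 1) (X0 := xb + 1) (X1 := x1 + 1) (fun x z1 z2 => ?_) (by omega)
            (by omega) (by omega) (by omega) (by omega) (by omega) (by omega)
          exact SH' _ _ (by omega) (by omega) (by omega) (by omega) (by omega) (by unfold Md; omega)
        have t1 : TJ (fun x y => Dt c Ep Wp x y ∧ Md κ l r x y)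
            (xb + 1 + (X + Y - (xb + 1) - (Q - 1)) % 2, Q - 1)
            (xb + 1 + (X + Y - (xb + 1) - (ya - 1)) % 2, ya - 1) := by
          refine TJ.col (k := xb + 1) (Y0 := ya - 1) (Y1 := Q) (fun y z1 z2 => ?_) (by omega)
            (by omega) (by omega) (by omega) (by omega) (by omega) (by omega)
          exact SH' _ _ (by omega) (by omega) (by omega) (by omega) (by omega) (by unfold Md; omega)
        have t2 : TJ (fun x y => Dt c Ep Wp x y ∧ Md κ l r x y)
            (xb + 1 + (X + Y - (xb + 1) - (ya - 1)) % 2, ya - 1)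
            (xa - 1 + (X + Y - (xa - 1) - (ya - 1)) % 2, ya - 1) := by
          refine TJ.row (k := ya - 1) (X0 := xa - 1) (X1 := xb + 2) (fun x z1 z2 => ?_) (by omega)
            (by omega) (by omega) (by omega) (by omega) (by omega) (by omega)
          exact SH' _ _ (by omega) (by omega) (by omega) (by omega) (by omega) (by unfold Md; omega)
        exact (t0.trans t1).trans t2
  -- the two base points are joined if both walls have the colour `c`
  have base : cv = c → ch = c → ∀ X Y, TJ (fun x y => Dt c Ep Wp x y ∧ Md κ l r x y)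
      (zp (xa - 1) (yb + 1) X Y) (zp (xa - 1) (ya - 1) X Y) := by
    intro hv hh X Y
    have SV' := SV hv
    have SH' := SH hh
    clear key SV SH
    unfold zp
    refine TJ.col (k := xa - 1) (Y0 := ya - 1) (Y1 := yb + 2) (fun y z1 z2 => ?_) (by omega) (by omega)
      (by omega) (by omega) (by omega) (by omega) (by omega)
    by_cases hy : ys ≤ y
    · exact SV' _ _ (by omega) hy (by omega) (by omega) (by unfold Md; omega)
    · exact SH' _ _ (by omega) (by omega) (by omega) (by omega) (by omega) (by unfold Md; omega)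
  intro X Y X' Y' h1 h2 hp
  rcases key X Y h1 with ⟨u1, u2⟩ | ⟨u1, u2⟩ <;> rcases key X' Y' h2 with ⟨v1, v2⟩ | ⟨v1, v2⟩ <;>
    rw [zp_eq hp] at u2
  · exact u2.trans v2.symm
  · exact (u2.trans (base u1 v1 _ _)).trans v2.symm
  · exact (u2.trans (base v1 u1 _ _).symm).trans v2.symm
  · exact u2.trans v2.symm

end Pool.Agent.H14.Win
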