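import Mathlib
import Pool.Agent.H14.Win.Wl
import Pool.Agent.H14.Win.DG

set_option autoImplicit false
open Finset

/-! # Bad events at the corners, all orientations

`rf σ`, `sn σ` : reflection of tiles and of grid points. `cvx_bad`, `rfx_bad` : at a corner which looks like
`Cvx` (`Rfx`) after reflection there is a bad event of small probability. -/

namespace Pool.Agent.H14.Win

open Pool.Agent.H75.Perc hiding ph
open Pool.Agent.H75.TwoArm Pool.Agent.H75.Four Pool.Agent.H69.Q1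
open Pool.Agent.Q1 Pool.Agent.H43.Q1 Pool.Agent.H39.Q1 Pool.Agent.Q1.M6c
open Pool.Agent.H60.Q1 Pool.Agent.H99.NC Pool.Agent.H42.FM Pool.Agent.H44.FM Pool.Agent.H14.R45
open Pool.Agent.H33.Q1 (lt tt tv tf lt_inj tt_lt lt_odd lt_tt)
open Pool.Agent.H60.Q1.Corn (UG ug AG mem_AG corner_reflex PRv PRh dRv dRh)

/-- reflection of tiles -/
def rf (σ : Bool) (x : ℤ) : ℤ := if σ = true then x else -1 - x
/-- reflection of grid points -/
def sn (σ : Bool) (x : ℤ) : ℤ := if σ = true then x else -x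

@[simp] lemma rf_true (x : ℤ) : rf true x = x := rfl
@[simp] lemma rf_false (x : ℤ) : rf false x = -1 - x := rfl
@[simp] lemma sn_true (x : ℤ) : sn true x = x := rfl
@[simp] lemma sn_false (x : ℤ) : sn false x = -x := rfl

lemma rf_rf (σ : Bool) (x : ℤ) : rf σ (rf σ x) = x := by cases σ <;> simp

lemma sn_sn (σ : Bool) (x : ℤ) : sn σ (sn σ x) = x := by cases σ <;> simp

variable {S T : ℤ → ℤ → Prop} {σ τ : Bool} {P Q L xa xb ya yb ys κ l r x y X Y : ℤ}

lemma Joined.rf (h : Joined (fun x y => S (rf σ x) (rf τ y)) (fun x y => T (rf σ x) (rf τ y))) :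
    Joined S T := by
  cases σ <;> cases τ
  · exact Joined.rX (Joined.rY h)
  · exact Joined.rX h
  · exact Joined.rY h
  · exact h

lemma Md_rf : Md (sn σ P - sn τ Q) (sn σ P + sn τ Q) r (rf σ x) (rf τ y) ↔
    Md (P - Q) (P + Q) r x y := by
  cases σ <;> cases τ <;> simp only [rf_true, rf_false, sn_true, sn_false] <;> unfold Md <;>
    constructor <;> intro h <;> omega

lemma par_sn (h : (P + Q) % 2 = 0) : (sn σ P + sn τ Q) % 2 = 0 := by
  cases σ <;> cases τ <;> simp only [sn_true, sn_false] <;> omega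

lemma par_sn1 (h : (P + Q) % 2 = 1) : (sn σ P + sn τ Q) % 2 = 1 := by
  cases σ <;> cases τ <;> simp only [sn_true, sn_false] <;> omega

/-- the centre of the box, canonical orientation -/
def cp (P Q : ℤ) : ℤ := P - (P + Q) % 2

lemma cp_par : (cp P Q + Q) % 2 = 0 := by unfold cp; omega
lemma cp_le : cp P Q ≤ P ∧ P - 1 ≤ cp P Q := by unfold cp; omega

/-- the centre of the box -/
def ctr (σ τ : Bool) (P Q : ℤ) : ℤ × ℤ := vt (sn σ (cp P Q)) (sn τ Q)

lemma mem_ctr : lt (rf σ x, rf τ y) ∈ BR (ctr σ τ P Q) r ↔ Md (cp P Q - Q) (cp P Q + Q) r x y := by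
  unfold ctr
  rw [mem_Md (par_sn cp_par), Md_rf]

/-- the tiles of a set of labels after reflection -/
def Tp (σ τ : Bool) (E : Finset (ℤ × ℤ)) (x y : ℤ) : Prop := lt (rf σ x, rf τ y) ∈ E

variable {E W : Finset (ℤ × ℤ)} {c cv ch : Bool}

lemma lt_rf (x y : ℤ) : lt (x, y) = lt (rf σ (rf σ x), rf τ (rf τ y)) := by rw [rf_rf, rf_rf]

lemma joined_c {M : Finset (ℤ × ℤ)} (hd : Disjoint E W)
    (hM : ∀ x y, lt (rf σ x, rf τ y) ∈ M ↔ Md κ l r x y)
    (h : ∀ c, Joined (fun x y => Dt c (Tp σ τ E) (Tp σ τ W) x y ∧ Md κ l r x y)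
      (fun x y => Tp σ τ E x y ∧ Md κ l r x y)) :
    Joined (OW W M) (OE E M) ∧ Joined (OC E W M) (OE E M) := by
  have eE : (fun x y => OE E M (rf σ x) (rf τ y)) = fun x y => Tp σ τ E x y ∧ Md κ l r x y := by
    funext x y
    unfold OE Tp
    rw [hM]
  have eW : (fun x y => OW W M (rf σ x) (rf τ y)) =
      fun x y => Dt true (Tp σ τ E) (Tp σ τ W) x y ∧ Md κ l r x y := by
    funext x y
    unfold OW Dt Tp
    rw [hM]
    refine propext ⟨fun h => ⟨⟨fun h' => disjoint_left.1 hd h' h.1, by simp [h.1]⟩, h.2⟩,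
      fun h => ⟨h.1.2.2 rfl, h.2⟩⟩
  have eC : (fun x y => OC E W M (rf σ x) (rf τ y)) =
      fun x y => Dt false (Tp σ τ E) (Tp σ τ W) x y ∧ Md κ l r x y := by
    funext x y
    unfold OC Dt Tp
    rw [hM]
    refine propext ⟨fun h => ⟨⟨h.2.1, by simp [h.2.2]⟩, h.1⟩, fun h => ⟨h.2, h.1.1, ?_⟩⟩
    intro h'
    have := h.1.2.1 h'
    simp at this
  constructor
  · refine Joined.rf (σ := σ) (τ := τ) ?_
    rw [eW, eE]; exact h true
  · refine Joined.rf (σ := σ) (τ := τ) ?_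
    rw [eC, eE]; exact h false

/-- the small rectangle lies in the small box -/
lemma sq_BR (h1 : P - 16 ≤ x) (h2 : x ≤ P + 16) (h3 : Q - 16 ≤ y) (h4 : y ≤ Q + 16) :
    lt (rf σ x, rf τ y) ∈ BR (ctr σ τ P Q) ((20 : ℕ) : ℤ) := by
  rw [mem_ctr]
  have := cp_le (P := P) (Q := Q)
  unfold Md
  push_cast
  omega

lemma ctr_of {r : ℕ} (h1 : 24 ≤ r) (h2 : 2 * (r : ℤ) + 8 ≤ L) :
    Ctr P Q L (cp P Q - Q) (cp P Q + Q) (r : ℤ) := by
  have := cp_le (P := P) (Q := Q)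
  exact ⟨by omega, by omega, by omega, by omega, by omega, by omega⟩

/-- the random tiles outside of the small box at a convex corner -/
lemma cvx_region {r : ℕ} (R : Cvx (Tp σ τ E) (Tp σ τ W) P Q L xa xb ya yb ys cv ch)
    (h2 : 2 * (r : ℤ) + 8 ≤ L) (hm : lt (rf σ x, rf τ y) ∈ Eo E (ctr σ τ P Q) r 20) :
    P ≤ x ∧ Q ≤ y := by
  obtain ⟨h3, h4⟩ := mem_inter.1 hm
  obtain ⟨h5, h6⟩ := mem_sdiff.1 h3
  rw [mem_ctr] at h4
  have h7 : Tp σ τ E x y := h5
  have a1 := R.x1; have a2 := R.x2; have a3 := R.x3; have a4 := R.x4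
  have b1 := R.y1; have b2 := R.y2; have b3 := R.y3; have b4 := R.y4
  have hc := cp_le (P := P) (Q := Q)
  have nsq : ¬ (P - 16 ≤ x ∧ x ≤ P + 16 ∧ Q - 16 ≤ y ∧ y ≤ Q + 16) := by
    rintro ⟨g1, g2, g3, g4⟩
    exact h6 (sq_BR g1 g2 g3 g4)
  unfold Md at h4
  by_contra hcon
  by_cases g : x + 1 < xa ∨ y + 1 < ya
  · exact R.out x y (by omega) (by omega) (by omega) (by omega) g h7
  · exact (R.col x y (by omega) (by omega) (by omega) (by omega) (by omega) (by omega)).1 h7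

/-- **Convex corners** -/
theorem cvx_bad : ∃ C : ℝ, 0 < C ∧ ∀ (σ τ : Bool) (E W : Finset (ℤ × ℤ))
    (P Q L xa xb ya yb ys : ℤ) (cv ch : Bool), Cvx (Tp σ τ E) (Tp σ τ W) P Q L xa xb ya yb ys cv ch →
    Disjoint E W → (∀ e ∈ E, (e.1 + e.2) % 2 = 1) → ∀ r : ℕ, 160 ≤ r → 2 * (r : ℤ) + 8 ≤ L →
    ∃ Bad, BadEv E W (ctr σ τ P Q) r 20 Bad ∧
      PrP (fun _ => 1 / 2) (Eo E (ctr σ τ P Q) r 20) Bad ≤ C * ((1 : ℝ) / r) ^ (4 / 3 : ℝ) := by
  obtain ⟨C, hC, hp⟩ := prM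
  refine ⟨C * 20 ^ (4 / 3 : ℝ), by positivity, ?_⟩
  intro σ τ E W P Q L xa xb ya yb ys cv ch R hd ho r h1 h2
  have J := joined_c hd (fun x y => mem_ctr) (R.joined (ctr_of (by omega) h2))
  refine ⟨_, badM (LW_of J.1) (LC_of J.2) (by omega) ho, ?_⟩
  have hodd : ∀ l ∈ Eo E (ctr σ τ P Q) r 20, (l.1 + l.2) % 2 = 1 := fun l hl =>
    ho l (mem_sdiff.1 (mem_inter.1 hl).1).1
  have hc := cp_le (P := P) (Q := Q)
  obtain ⟨⟨k, w, q1, q2⟩, k', w', q3, q4⟩ := quad_mk (F := Eo E (ctr σ τ P Q) r 20)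
    (P := sn σ (cp P Q)) (Q := sn τ Q) (s := 20) (par_sn cp_par) (by norm_num) hodd σ τ (by
      intro x y hxy
      rw [lt_rf (σ := σ) (τ := τ)] at hxy
      have h3 := cvx_region R h2 hxy
      cases σ <;> cases τ <;> simp only [rf_true, rf_false, sn_true, sn_false, reduceCtorEq,
        false_implies, true_implies, true_and, and_true] at h3 ⊢ <;> omega)
  have := hp E (ctr σ τ P Q) r 20 k k' w w' (by norm_num) (by omega) q2 q4 q1 q3
  refine this.trans (le_of_eq ?_)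
  rw [show (((20 : ℕ) : ℝ) / (r : ℝ)) = 20 * (1 / r) by push_cast; ring,
    Real.mul_rpow (by norm_num) (by positivity)]
  ring

/-! ### Reflex corners -/

/-- strict inside of the model corner -/
def Pm (σ τ : Bool) : ℤ × ℤ → ℤ × ℤ → Prop :=
  if σ = τ then (if σ = true then PRv 1 else PRv (-1)) else (if σ = true then PRh 1 else PRh (-1))

/-- labels of the model corner -/
def dm (σ τ : Bool) : ℤ × ℤ → ℤ × ℤ → Prop :=
  if σ = τ then (if σ = true then dRv 1 else dRv (-1)) else (if σ = true then dRh 1 else dRh (-1))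

lemma Pm_vt {P1 Q1 : ℤ} (h : (P1 + Q1) % 2 = 0) (h' : (X + Y) % 2 = 0) :
    Pm σ τ (vt (sn σ P1) (sn τ Q1)) (vt (sn σ X) (sn τ Y)) ↔ ¬ (X ≤ P1 ∧ Y ≤ Q1) := by
  cases σ <;> cases τ <;> unfold Pm <;> simp only [sn_true, sn_false, if_true, reduceCtorEq, if_false] <;>
    first
    | (unfold PRv vt; rw [abs_eq_max_neg]; simp only; omega)
    | (unfold PRh vt; rw [abs_eq_max_neg]; simp only; omega)

lemma dm_vt {P1 Q1 : ℤ} (h : (P1 + Q1) % 2 = 0) :
    dm σ τ (vt (sn σ P1) (sn τ Q1)) (lt (rf σ x, rf τ y)) ↔ ¬ (x < P1 ∧ y < Q1) := by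
  cases σ <;> cases τ <;> unfold dm <;>
    simp only [sn_true, sn_false, rf_true, rf_false, if_true, reduceCtorEq, if_false] <;>
    first
    | (unfold dRv vt lt; rw [abs_eq_max_neg]; simp only; omega)
    | (unfold dRh vt lt; rw [abs_eq_max_neg]; simp only; omega)

lemma Pm_ft {P1 Q1 : ℤ} (h : (P1 + Q1) % 2 = 1) (h' : (X + Y) % 2 = 1) :
    Pm σ τ (ft (sn σ P1) (sn τ Q1)) (ft (sn σ X) (sn τ Y)) ↔ ¬ (X ≤ P1 ∧ Y ≤ Q1) := by
  cases σ <;> cases τ <;> unfold Pm <;> simp only [sn_true, sn_false, if_true, reduceCtorEq, if_false] <;>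
    first
    | (unfold PRv ft; rw [abs_eq_max_neg]; simp only; omega)
    | (unfold PRh ft; rw [abs_eq_max_neg]; simp only; omega)

lemma dm_ft {P1 Q1 : ℤ} (h : (P1 + Q1) % 2 = 1) :
    dm σ τ (ft (sn σ P1) (sn τ Q1)) (sh1 (lt (rf σ x, rf τ y))) ↔ ¬ (x < P1 ∧ y < Q1) := by
  cases σ <;> cases τ <;> unfold dm sh1 <;>
    simp only [sn_true, sn_false, rf_true, rf_false, if_true, reduceCtorEq, if_false,
      Function.Embedding.coeFn_mk] <;>
    first
    | (unfold dRv ft lt; rw [abs_eq_max_neg]; simp only; omega)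
    | (unfold dRh ft lt; rw [abs_eq_max_neg]; simp only; omega)

end Pool.Agent.H14.Win
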