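import Mathlib
import Pool.Agent.H14.Win.Cor

set_option autoImplicit false
open Finset

/-! # Bad events at the reflex corners -/

namespace Pool.Agent.H14.Win

open Pool.Agent.H75.Perc hiding ph
open Pool.Agent.H75.TwoArm Pool.Agent.H75.Four Pool.Agent.H69.Q1
open Pool.Agent.Q1 Pool.Agent.H43.Q1 Pool.Agent.H39.Q1 Pool.Agent.Q1.M6c
open Pool.Agent.H60.Q1 Pool.Agent.H99.NC Pool.Agent.H42.FM Pool.Agent.H44.FM Pool.Agent.H14.R45
open Pool.Agent.H33.Q1 (lt tt tv tf lt_inj tt_lt lt_odd lt_tt)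
open Pool.Agent.H60.Q1.Corn (UG ug AG mem_AG corner_reflex PRv PRh dRv dRh)

variable {Ep Wp S : ℤ → ℤ → Prop} {σ τ : Bool} {P Q L xa xb ya yb κ l x y X Y : ℤ}
  {E W M : Finset (ℤ × ℤ)} {c : Bool} {r : ℕ}

lemma joined_o {r : ℤ} (hd : Disjoint E W) (hM : ∀ x y, lt (rf σ x, rf τ y) ∈ M ↔ Md κ l r x y)
    (h : Joined (fun x y => Dt true (Tp σ τ E) (Tp σ τ W) x y ∧ Md κ l r x y)
      (fun x y => Tp σ τ E x y ∧ Md κ l r x y)) : Joined (OW W M) (OE E M) := by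
  have eE : (fun x y => OE E M (rf σ x) (rf τ y)) = fun x y => Tp σ τ E x y ∧ Md κ l r x y := by
    funext x y
    unfold OE Tp
    rw [hM]
  have eW : (fun x y => OW W M (rf σ x) (rf τ y)) =
      fun x y => Dt true (Tp σ τ E) (Tp σ τ W) x y ∧ Md κ l r x y := by
    funext x y
    unfold OW Dt Tp
    rw [hM]
    refine propext ⟨fun h => ⟨⟨fun h' => disjoint_left.1 hd h' h.1, by simp [h.1]⟩, h.2⟩,
      fun h => ⟨h.1.2.2 rfl, h.2⟩⟩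
  refine Joined.rf (σ := σ) (τ := τ) ?_
  rw [eW, eE]; exact h

lemma joined_f {r : ℤ} (hM : ∀ x y, lt (rf σ x, rf τ y) ∈ M ↔ Md κ l r x y)
    (h : Joined (fun x y => Dt false (Tp σ τ E) (Tp σ τ W) x y ∧ Md κ l r x y)
      (fun x y => Tp σ τ E x y ∧ Md κ l r x y)) : Joined (OC E W M) (OE E M) := by
  have eE : (fun x y => OE E M (rf σ x) (rf τ y)) = fun x y => Tp σ τ E x y ∧ Md κ l r x y := by
    funext x y
    unfold OE Tp
    rw [hM]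
  have eC : (fun x y => OC E W M (rf σ x) (rf τ y)) =
      fun x y => Dt false (Tp σ τ E) (Tp σ τ W) x y ∧ Md κ l r x y := by
    funext x y
    unfold OC Dt Tp
    rw [hM]
    refine propext ⟨fun h => ⟨⟨h.2.1, by simp [h.2.2]⟩, h.1⟩, fun h => ⟨h.2, h.1.1, ?_⟩⟩
    intro h'
    have := h.1.2.1 h'
    simp at this
  refine Joined.rf (σ := σ) (τ := τ) ?_
  rw [eC, eE]; exact h

/-- a grid point of the walls of a reflex corner touches a deterministic tile -/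
lemma Rfx.wall (R : Rfx Ep Wp P Q L xa xb ya yb c) {x2 y2 : ℤ} (hL : P - L ≤ x2 ∧ Q - L ≤ y2)
    (hE : Ep x2 y2) (hs : ¬ (xa ≤ x2 ∧ x2 ≤ xb ∧ ya ≤ y2 ∧ y2 ≤ yb)) (hc : Cn (X, Y) x2 y2)
    (hX : X ≤ P) (hY : Y ≤ Q) (hL2 : 20 ≤ L) : ∃ x1 y1, Cn (X, Y) x1 y1 ∧ ¬ Ep x1 y1 ∧
      (Wp x1 y1 ↔ c = true) := by
  have a1 := R.x1; have a2 := R.x2; have a3 := R.x3; have a4 := R.x4
  have b1 := R.y1; have b2 := R.y2; have b3 := R.y3; have b4 := R.y4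
  unfold Cn at hc ⊢
  simp only at hc ⊢
  have g : P ≤ x2 ∨ Q ≤ y2 := by
    by_contra hcon
    exact (R.col x2 y2 hL.1 hL.2 (by omega) (by omega) (by omega)).1 hE
  clear hE
  by_cases hx : P ≤ x2
  · have e := R.col (P - 1) y2 (by omega) hL.2 (by omega) (by omega) (by omega)
    exact ⟨P - 1, y2, by omega, e⟩
  · have e := R.col x2 (Q - 1) hL.1 (by omega) (by omega) (by omega) (by omega)
    exact ⟨x2, Q - 1, by omega, e⟩

/-- labels of the model corner -/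
lemma Rfx.lab (R : Rfx Ep Wp P Q L xa xb ya yb c) {x3 y3 P1 : ℤ}
    (hL : (P - L ≤ x3 ∧ x3 ≤ P + L) ∧ (Q - L ≤ y3 ∧ y3 ≤ Q + L))
    (hs : ¬ (xa ≤ x3 ∧ x3 ≤ xb ∧ ya ≤ y3 ∧ y3 ≤ yb)) (hP1 : P - 1 ≤ P1)
    (hn : ¬ (x3 < P1 ∧ y3 < Q)) : Ep x3 y3 ∨ (¬ Ep x3 y3 ∧ (Wp x3 y3 ↔ c = true)) := by
  have a1 := R.x1; have a2 := R.x2; have a3 := R.x3; have a4 := R.x4
  have b1 := R.y1; have b2 := R.y2; have b3 := R.y3; have b4 := R.y4
  by_cases g : P ≤ x3 ∨ Q ≤ y3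
  · exact Or.inl (R.rnd x3 y3 hL.1.1 hL.1.2 hL.2.1 hL.2.2 g)
  · exact Or.inr (R.col x3 y3 hL.1.1 hL.2.1 (by omega) (by omega) (by omega))

/-- the random tiles outside of the small box -/
lemma Rfx.region (R : Rfx (Tp σ τ E) (Tp σ τ W) P Q L xa xb ya yb c) (h2 : 2 * (r : ℤ) + 8 ≤ L)
    (hm : lt (rf σ x, rf τ y) ∈ Eo E (ctr σ τ P Q) r 20) :
    (P ≤ x ∨ Q ≤ y) ∧ ((P - L ≤ x ∧ x ≤ P + L) ∧ (Q - L ≤ y ∧ y ≤ Q + L)) ∧
      ¬ (xa ≤ x ∧ x ≤ xb ∧ ya ≤ y ∧ y ≤ yb) ∧ Tp σ τ E x y := by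
  obtain ⟨h3, h4⟩ := mem_inter.1 hm
  obtain ⟨h5, h6⟩ := mem_sdiff.1 h3
  rw [mem_ctr] at h4
  have h7 : Tp σ τ E x y := h5
  have a1 := R.x1; have a2 := R.x2; have a3 := R.x3; have a4 := R.x4
  have b1 := R.y1; have b2 := R.y2; have b3 := R.y3; have b4 := R.y4
  have hc := cp_le (P := P) (Q := Q)
  have nsq : ¬ (xa ≤ x ∧ x ≤ xb ∧ ya ≤ y ∧ y ≤ yb) := by
    rintro ⟨g1, g2, g3, g4⟩
    exact h6 (sq_BR (by omega) (by omega) (by omega) (by omega))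
  unfold Md at h4
  refine ⟨?_, ?_, nsq, h7⟩
  · by_contra hcon
    exact (R.col x y (by omega) (by omega) (by omega) (by omega) (by omega)).1 h7
  · omega

lemma cn_rf {X0 x0 : ℤ} : (X0 = x0 ∨ X0 = x0 + 1) ↔ (sn σ X0 = rf σ x0 ∨ sn σ X0 = rf σ x0 + 1) := by
  cases σ <;> simp only [sn_true, sn_false, rf_true, rf_false] <;> omega

lemma Cn_rf {X0 Y0 x0 y0 : ℤ} : Cn (X0, Y0) x0 y0 ↔ Cn (sn σ X0, sn τ Y0) (rf σ x0) (rf τ y0) := by
  unfold Cn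
  exact and_congr cn_rf cn_rf

/-- labels at a vertex near the centre -/
lemma lab_near {w : ℤ × ℤ} {R : ℤ} (hp : (X + Y) % 2 = 0) (h : inR w R (vt X Y)) (hc : Cn (X, Y) x y) :
    lt (x, y) ∈ BR w (R + 1) := by
  rw [inR_iff] at h
  unfold Cn at hc
  simp only at hc
  rw [mem_BR]
  unfold vt at h
  unfold lt
  simp only at h ⊢
  omega

/-- labels at a face near the centre -/
lemma lab_near' {w : ℤ × ℤ} {R : ℤ} (hp : (X + Y) % 2 = 1) (h : inR w R (ft X Y)) (hc : Cn (X, Y) x y) :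
    lt (x, y) ∈ BR w (R + 1) := by
  rw [inR_iff] at h
  unfold Cn at hc
  simp only at hc
  rw [mem_BR]
  unfold ft at h
  unfold lt
  simp only at h ⊢
  omega

/-- **wired reflex corners** -/
theorem rfx_badW (R : Rfx (Tp σ τ E) (Tp σ τ W) P Q L xa xb ya yb true) (hd : Disjoint E W)
    (ho : ∀ e ∈ E, (e.1 + e.2) % 2 = 1) (h1 : 160 ≤ r) (h2 : 2 * (r : ℤ) + 8 ≤ L) :
    BadEv E W (ctr σ τ P Q) r 20 (BW E (ctr σ τ P Q) r 20 (Vwl E W (BR (ctr σ τ P Q) r))) ∧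
      PrP (fun _ => 1 / 2) (Eo E (ctr σ τ P Q) r 20)
        (BW E (ctr σ τ P Q) r 20 (Vwl E W (BR (ctr σ τ P Q) r))) ≤
          ug (Pm σ τ) (dm σ τ) (ctr σ τ P Q) 20 ((r : ℤ) - 3) := by
  have J := joined_o hd (fun x y => mem_ctr) (R.joined (ctr_of (r := r) (by omega) h2))
  refine ⟨badW (LW_of J) (by omega) ho, ?_⟩
  have hc := cp_le (P := P) (Q := Q)
  set p := ctr σ τ P Q with hpd
  -- a vertex at a random label and at a deterministic label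
  have touch : ∀ X0 Y0 x1 y1 x2 y2, (X0 + Y0) % 2 = 0 → inR p ((r : ℤ) - 3) (vt X0 Y0) →
      Cn (X0, Y0) x1 y1 → Cn (X0, Y0) x2 y2 → lt (x1, y1) ∈ W → lt (x2, y2) ∈ Eo E p r 20 →
      Vwl E W (BR p r) (vt X0 Y0) := by
    intro X0 Y0 x1 y1 x2 y2 hp hin c1 c2 m1 m2
    have h3 := lab_near hp hin c1
    have h4 : lt (x1, y1) ∈ BR p r := Pool.Agent.H20.Q1.BR_mono (by omega) h3
    exact ⟨X0, Y0, rfl, hp, ⟨x1, y1, c1, m1, h4⟩, x2, y2, c2, (mem_sdiff.1 (mem_inter.1 m2).1).1,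
      (mem_inter.1 m2).2⟩
  refine prW (by omega) (fun a ha => ?_) (fun x hx => ?_) ?_ ?_ ?_
  · exact ha
  · have := far_of_not_inV hx
    unfold Far at this ⊢
    rw [le_abs, le_abs] at this ⊢
    omega
  · intro y y' hu hl hin hV
    obtain ⟨X0, Y0, rfl, hp⟩ := exists_vt y
    obtain ⟨X', Y', rfl, hp', x2, y2, e2, g1, g2⟩ := unit_vt hp hu
    rw [e2] at hl
    have cn2 : Cn (X0, Y0) x2 y2 := by unfold Cn; simp only; omega
    have hX : X0 = sn σ (sn σ X0) := (sn_sn _ _).symm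
    have hY : Y0 = sn τ (sn τ Y0) := (sn_sn _ _).symm
    rw [hX, hY, hpd]
    unfold ctr
    rw [Pm_vt cp_par (par_sn hp)]
    rintro ⟨k1, k2⟩
    have hl' := hl
    rw [lt_rf (σ := σ) (τ := τ)] at hl'
    obtain ⟨q1, q2, q3, q4⟩ := R.region h2 hl'
    obtain ⟨x1, y1, d1, d2, d3⟩ := R.wall ⟨q2.1.1, q2.2.1⟩ q4 q3 (Cn_rf.1 cn2) (by omega) (by omega)
      (by omega)
    refine hV (touch X0 Y0 (rf σ x1) (rf τ y1) x2 y2 hp hin ?_ cn2 (d3.2 rfl) hl)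
    rw [Cn_rf (σ := σ) (τ := τ), rf_rf, rf_rf]; exact d1
  · intro y y' z hu hl hV hz hm
    obtain ⟨X0, Y0, rfl, hp⟩ := exists_vt y
    obtain ⟨X', Y', rfl, hp', x2, y2, e2, g1, g2⟩ := unit_vt hp hu
    obtain ⟨X3, Y3, rfl, hp3, x3, y3, e3, g3, g4⟩ := unit_vt hp hz
    have hin : inR p ((r : ℤ) - 3) (vt X0 Y0) :=
      (Pool.Agent.H20.Q1.BR_ends hz (mem_AG.1 hm).1.1).1
    rw [e2] at hl
    rw [e3] at hm ⊢
    rw [mem_AG] at hm
    obtain ⟨⟨m1, m2⟩, m3⟩ := hm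
    have m1' : lt (x3, y3) ∈ BR p r := Pool.Agent.H20.Q1.BR_mono (by omega) m1
    have m4 := m1
    rw [lt_rf (σ := σ) (τ := τ), hpd] at m3 m4
    rw [mem_ctr] at m4
    unfold ctr at m3
    rw [dm_vt cp_par] at m3
    have m2' : ¬ (xa ≤ rf σ x3 ∧ rf σ x3 ≤ xb ∧ ya ≤ rf τ y3 ∧ rf τ y3 ≤ yb) := by
      rintro ⟨q1, q2, q3, q4⟩
      have a1 := R.x1; have a4 := R.x4; have b1 := R.y1; have b4 := R.y4
      have := sq_BR (σ := σ) (τ := τ) (P := P) (Q := Q) (x := rf σ x3) (y := rf τ y3) (by omega)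
        (by omega) (by omega) (by omega)
      rw [← lt_rf] at this
      exact m2 this
    unfold Md at m4
    rcases R.lab (by omega) m2' (P1 := cp P Q) (by omega) m3 with q | q
    · have q' : lt (x3, y3) ∈ E := by
        have : lt (rf σ (rf σ x3), rf τ (rf τ y3)) ∈ E := q
        rwa [← lt_rf] at this
      exact mem_inter.2 ⟨mem_sdiff.2 ⟨q', m2⟩, m1'⟩
    · exfalso
      have q' : lt (x3, y3) ∈ W := by
        have : lt (rf σ (rf σ x3), rf τ (rf τ y3)) ∈ W := q.2.2 rfl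
        rwa [← lt_rf] at this
      exact hV (touch X0 Y0 x3 y3 x2 y2 hp hin (by unfold Cn; simp only; omega)
        (by unfold Cn; simp only; omega) q' hl)
  · intro l hl _ _
    have hodd := ho l (mem_sdiff.1 (mem_inter.1 hl).1).1
    obtain ⟨x, y, rfl⟩ : ∃ x y, l = lt (x, y) := ⟨(tt l).1, (tt l).2, (lt_tt hodd).symm⟩
    rw [lt_rf (σ := σ) (τ := τ)] at hl ⊢
    obtain ⟨q1, -, -, -⟩ := R.region h2 hl
    rw [hpd]
    unfold ctr
    rw [dm_vt cp_par]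
    omega

/-- the centre of the face version -/
def cp1 (P Q : ℤ) : ℤ := P - (P + Q + 1) % 2

lemma cp1_par : (cp1 P Q + Q) % 2 = 1 := by unfold cp1; omega
lemma cp1_le : cp1 P Q ≤ P ∧ P - 1 ≤ cp1 P Q := by unfold cp1; omega

def ctf (σ τ : Bool) (P Q : ℤ) : ℤ × ℤ := ft (sn σ (cp1 P Q)) (sn τ Q)

lemma ctf_near : ((ctf σ τ P Q).1 ≤ (ctr σ τ P Q).1 + 1 ∧ (ctr σ τ P Q).1 ≤ (ctf σ τ P Q).1 + 1) ∧
    ((ctf σ τ P Q).2 ≤ (ctr σ τ P Q).2 + 1 ∧ (ctr σ τ P Q).2 ≤ (ctf σ τ P Q).2 + 1) := by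
  have h1 := cp_par (P := P) (Q := Q)
  have h2 := cp1_par (P := P) (Q := Q)
  have h3 := cp_le (P := P) (Q := Q)
  have h4 := cp1_le (P := P) (Q := Q)
  unfold ctf ctr ft vt
  cases σ <;> cases τ <;> simp only [sn_true, sn_false] <;> omega

/-- **free reflex corners** -/
theorem rfx_badF (R : Rfx (Tp σ τ E) (Tp σ τ W) P Q L xa xb ya yb false)
    (ho : ∀ e ∈ E, (e.1 + e.2) % 2 = 1) (h1 : 160 ≤ r) (h2 : 2 * (r : ℤ) + 8 ≤ L) :
    BadEv E W (ctr σ τ P Q) r 20 (BF E (ctr σ τ P Q) r 20 (Fwl E W (BR (ctr σ τ P Q) r))) ∧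
      PrP (fun _ => 1 / 2) (Eo E (ctr σ τ P Q) r 20)
        (BF E (ctr σ τ P Q) r 20 (Fwl E W (BR (ctr σ τ P Q) r))) ≤
          ug (Pm σ τ) (dm σ τ) (ctf σ τ P Q) 23 ((r : ℤ) - 3) := by
  have J := joined_f (fun x y => mem_ctr) (R.joined (ctr_of (r := r) (by omega) h2))
  refine ⟨badF (LC_of J) (by omega) ho, ?_⟩
  have hc := cp1_le (P := P) (Q := Q)
  have hn := ctf_near (σ := σ) (τ := τ) (P := P) (Q := Q)
  set p := ctr σ τ P Q with hpd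
  set w := ctf σ τ P Q with hwd
  have hnb : ∀ {l : ℤ × ℤ} {m n : ℤ}, l ∈ BR w m → m + 1 ≤ n → l ∈ BR p n := by
    intro l m n hl hmn
    rw [mem_BR] at hl ⊢
    omega
  have hnb' : ∀ {l : ℤ × ℤ} {m n : ℤ}, l ∈ BR p m → m + 1 ≤ n → l ∈ BR w n := by
    intro l m n hl hmn
    rw [mem_BR] at hl ⊢
    omega
  have touch : ∀ X0 Y0 x1 y1 x2 y2, (X0 + Y0) % 2 = 1 → inR w ((r : ℤ) - 3) (ft X0 Y0) →
      Cn (X0, Y0) x1 y1 → Cn (X0, Y0) x2 y2 → lt (x1, y1) ∉ E → lt (x1, y1) ∉ W →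
      lt (x2, y2) ∈ Eo E p r 20 → Fwl E W (BR p r) (ft X0 Y0) := by
    intro X0 Y0 x1 y1 x2 y2 hp hin c1 c2 m1 m1' m2
    have h3 := lab_near' hp hin c1
    have h4 : lt (x1, y1) ∈ BR p r := hnb h3 (by omega)
    exact ⟨X0, Y0, rfl, hp, ⟨x1, y1, c1, h4, m1, m1'⟩, x2, y2, c2,
      (mem_sdiff.1 (mem_inter.1 m2).1).1, (mem_inter.1 m2).2⟩
  have sh1_mem : ∀ {l : ℤ × ℤ} {m : ℤ}, sh1 l ∈ BR w m → l ∈ BR w (m + 1) := by
    intro l m hl
    rw [mem_BR] at hl ⊢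
    unfold sh1 at hl
    simp only [Function.Embedding.coeFn_mk] at hl
    omega
  refine prF (w := w) (ρ := 23) (by omega) (fun a ha => ?_) (fun x hx => ?_) ?_ ?_ ?_
  · unfold Near at ha ⊢
    rw [abs_le, abs_le] at ha ⊢
    push_cast at ha
    omega
  · have := far_of_not_inF hx
    unfold Far at this ⊢
    rw [le_abs, le_abs] at this ⊢
    omega
  · intro y y' hu hl hin hV
    obtain ⟨X0, Y0, rfl, hp⟩ := exists_ft y
    obtain ⟨X', Y', rfl, hp', x2, y2, e2, g1, g2⟩ := unit_ft hp hu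
    rw [e2] at hl
    have cn2 : Cn (X0, Y0) x2 y2 := by unfold Cn; simp only; omega
    have hX : X0 = sn σ (sn σ X0) := (sn_sn _ _).symm
    have hY : Y0 = sn τ (sn τ Y0) := (sn_sn _ _).symm
    rw [hX, hY, hwd]
    unfold ctf
    rw [Pm_ft cp1_par (par_sn1 hp)]
    rintro ⟨k1, k2⟩
    have hl' := hl
    rw [lt_rf (σ := σ) (τ := τ)] at hl'
    obtain ⟨q1, q2, q3, q4⟩ := R.region h2 hl'
    obtain ⟨x1, y1, d1, d2, d3⟩ := R.wall ⟨q2.1.1, q2.2.1⟩ q4 q3 (Cn_rf.1 cn2) (by omega) (by omega)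
      (by omega)
    refine hV (touch X0 Y0 (rf σ x1) (rf τ y1) x2 y2 hp hin ?_ cn2 d2 (fun h => ?_) hl)
    · rw [Cn_rf (σ := σ) (τ := τ), rf_rf, rf_rf]; exact d1
    · have := d3.1 h
      simp at this
  · intro y y' z hu hl hV hz hm
    obtain ⟨X0, Y0, rfl, hp⟩ := exists_ft y
    obtain ⟨X', Y', rfl, hp', x2, y2, e2, g1, g2⟩ := unit_ft hp hu
    obtain ⟨X3, Y3, rfl, hp3, x3, y3, e3, g3, g4⟩ := unit_ft hp hz
    have hin : inR w ((r : ℤ) - 3) (ft X0 Y0) :=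
      (Pool.Agent.H20.Q1.BR_ends hz (mem_AG.1 hm).1.1).1
    rw [e2] at hl
    have e3' : ft X0 Y0 + ft X3 Y3 = sh1 (lt (x3, y3)) := by
      rw [← e3]; unfold sh1; simp; rfl
    rw [e3', mem_AG] at hm
    rw [e3]
    obtain ⟨⟨m1, m2⟩, m3⟩ := hm
    have m5 := sh1_mem m1
    have m1' : lt (x3, y3) ∈ BR p r := hnb m5 (by omega)
    have m2' : lt (x3, y3) ∉ BR p ((20 : ℕ) : ℤ) := by
      intro h
      refine m2 ?_
      have h' := hnb' (n := 21) h (by norm_num)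
      rw [mem_BR] at h' ⊢
      unfold sh1
      simp only [Function.Embedding.coeFn_mk]
      omega
    have m4 := m1'
    rw [lt_rf (σ := σ) (τ := τ), hpd] at m4
    rw [lt_rf (σ := σ) (τ := τ), hwd] at m3
    rw [mem_ctr] at m4
    unfold ctf at m3
    rw [dm_ft cp1_par] at m3
    have m2'' : ¬ (xa ≤ rf σ x3 ∧ rf σ x3 ≤ xb ∧ ya ≤ rf τ y3 ∧ rf τ y3 ≤ yb) := by
      rintro ⟨q1, q2, q3, q4⟩
      have a1 := R.x1; have a4 := R.x4; have b1 := R.y1; have b4 := R.y4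
      have := sq_BR (σ := σ) (τ := τ) (P := P) (Q := Q) (x := rf σ x3) (y := rf τ y3) (by omega)
        (by omega) (by omega) (by omega)
      rw [← lt_rf] at this
      exact m2' this
    have hc0 := cp_le (P := P) (Q := Q)
    unfold Md at m4
    rcases R.lab (by omega) m2'' (P1 := cp1 P Q) (by omega) m3 with q | q
    · have q' : lt (x3, y3) ∈ E := by
        have : lt (rf σ (rf σ x3), rf τ (rf τ y3)) ∈ E := q
        rwa [← lt_rf] at this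
      exact mem_inter.2 ⟨mem_sdiff.2 ⟨q', m2'⟩, m1'⟩
    · exfalso
      obtain ⟨q5, q6⟩ := q
      unfold Tp at q5 q6
      rw [← lt_rf] at q5 q6
      refine hV (touch X0 Y0 x3 y3 x2 y2 hp hin (by unfold Cn; simp only; omega)
        (by unfold Cn; simp only; omega) q5 (fun h => ?_) hl)
      have := q6.1 h
      simp at this
  · intro l hl _ _
    have hodd := ho l (mem_sdiff.1 (mem_inter.1 hl).1).1
    obtain ⟨x, y, rfl⟩ : ∃ x y, l = lt (x, y) := ⟨(tt l).1, (tt l).2, (lt_tt hodd).symm⟩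
    rw [lt_rf (σ := σ) (τ := τ)] at hl ⊢
    obtain ⟨q1, -, -, -⟩ := R.region h2 hl
    rw [hwd]
    unfold ctf
    rw [dm_ft cp1_par]
    omega

/-- **Reflex corners** -/
theorem rfx_bad : ∃ C α : ℝ, 0 < C ∧ 0 < α ∧ ∀ (σ τ : Bool) (E W : Finset (ℤ × ℤ))
    (P Q L xa xb ya yb : ℤ) (c : Bool), Rfx (Tp σ τ E) (Tp σ τ W) P Q L xa xb ya yb c →
    Disjoint E W → (∀ e ∈ E, (e.1 + e.2) % 2 = 1) → ∀ r : ℕ, 160 ≤ r → 2 * (r : ℤ) + 8 ≤ L →
    ∃ Bad, BadEv E W (ctr σ τ P Q) r 20 Bad ∧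
      PrP (fun _ => 1 / 2) (Eo E (ctr σ τ P Q) r 20) Bad ≤ C * ((1 : ℝ) / r) ^ (1 + α) := by
  obtain ⟨C, α, hC, hα, hr⟩ := corner_reflex
  refine ⟨C * 46 ^ (1 + α), α, by positivity, hα, ?_⟩
  intro σ τ E W P Q L xa xb ya yb c R hd ho r h1 h2
  have hug : ∀ (w : ℤ × ℤ) (ρ : ℤ), 1 ≤ ρ → ρ ≤ 23 →
      ug (Pm σ τ) (dm σ τ) w ρ ((r : ℤ) - 3) ≤ C * 46 ^ (1 + α) * ((1 : ℝ) / r) ^ (1 + α) := by
    intro w ρ g1 g2
    have e : ug (Pm σ τ) (dm σ τ) w ρ ((r : ℤ) - 3) ≤ C * ((ρ : ℝ) / (((r : ℤ) - 3 : ℤ) : ℝ)) ^ (1 + α) := by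
      have k1 := hr 1 (Or.inl rfl) w ρ ((r : ℤ) - 3) g1 (by omega)
      have k2 := hr (-1) (Or.inr rfl) w ρ ((r : ℤ) - 3) g1 (by omega)
      unfold Pm dm
      cases σ <;> cases τ <;> simp only [if_true, reduceCtorEq, if_false]
      · exact k2.1
      · exact k2.2
      · exact k1.2
      · exact k1.1
    refine e.trans ?_
    rw [mul_assoc, ← Real.mul_rpow (by norm_num) (by positivity)]
    refine mul_le_mul_of_nonneg_left ?_ hC.le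
    have hr' : (160 : ℝ) ≤ r := by exact_mod_cast h1
    have hρ1 : (1 : ℝ) ≤ ρ := by exact_mod_cast g1
    have hρ : (ρ : ℝ) ≤ 23 := by exact_mod_cast g2
    have hcast : (((r : ℤ) - 3 : ℤ) : ℝ) = (r : ℝ) - 3 := by push_cast; ring
    rw [hcast]
    refine Real.rpow_le_rpow (div_nonneg (by linarith) (by linarith)) ?_ (by linarith)
    rw [mul_one_div, div_le_div_iff₀ (by linarith) (by linarith)]
    nlinarith
  cases c
  · obtain ⟨b1, b2⟩ := rfx_badF R ho h1 h2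
    exact ⟨_, b1, b2.trans (hug _ _ (by norm_num) (by norm_num))⟩
  · obtain ⟨b1, b2⟩ := rfx_badW R hd ho h1 h2
    exact ⟨_, b1, b2.trans (hug _ _ (by norm_num) (by norm_num))⟩

end Pool.Agent.H14.Win
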