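import Mathlib
import Pool.Agent.H74.Win.S12

set_option autoImplicit false
open Finset

/-! # Natural windows near a corner of the polygon

Coordinates of `P`. `LNE`, `LSE` : convex corners of the left boundary, `P` is `x ≥ cx` and above (below) the line
`c`; `LSW`, `LNW` : reflex corners, below (above) the line `c` the tiles `x < cx` are missing. `RNW`, `RSW`,
`RSE`, `RNE` : right boundary. `*.E` : the random tiles `EP` of the pushed window; `*.C` : the natural colours. -/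

namespace Pool.Agent.H14.Win

open Pool.Agent.H46.Sp (Win)
open Pool.Agent.H74.Win (PT EP EP_iff LyL LyR LyF LyC gL gR natc sh sh_false sh_true sh_cases m_f M_f)
open Pool.Agent.H44.FM.WG (Gr)
open Pool.Agent.H44.FM.WG.Gr

/-- the push of a group -/
def al (s : Finset Gr) (g : Gr) : ℤ := if g ∈ s then 1 else 0

variable {D : Win} {s : Finset Gr} {g : Gr} {p : Bool} {cx c M x y Y : ℤ} {cv ch cc : Bool}

lemma al_01 : 0 ≤ al s g ∧ al s g ≤ 1 := by
  unfold al; split_ifs <;> omega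

lemma mem_al : g ∈ s ↔ al s g = 1 := by
  unfold al
  split_ifs with h
  · exact ⟨fun _ => rfl, fun _ => h⟩
  · exact ⟨fun h' => absurd h' h, fun h' => by omega⟩

lemma EP_al : EP D s x Y ↔ (0 ≤ Y ∧ Y < D.h ∧ D.a Y ≤ x ∧ x < D.b Y) ∨
    ((0 ≤ Y ∧ Y < D.h ∧ x = D.a Y - 1 ∧ (Y + 1 < D.h → D.a Y ≤ D.a (Y + 1)) ∧
      (1 ≤ Y → D.a Y ≤ D.a (Y - 1))) ∧ al s (gL D Y) = 1) ∨
    ((0 ≤ Y ∧ Y < D.h ∧ x = D.b Y ∧ (Y + 1 < D.h → D.b (Y + 1) ≤ D.b Y) ∧
      (1 ≤ Y → D.b (Y - 1) ≤ D.b Y)) ∧ al s (gR D Y) = 1) ∨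
    ((-1 ≤ Y ∧ Y + 1 < D.h ∧ D.a (Y + 1) ≤ x ∧ x < D.b (Y + 1) ∧
      (0 ≤ Y → x + 1 < D.a Y ∨ D.b Y < x)) ∧ al s fo = 1) ∨
    ((1 ≤ Y ∧ Y ≤ D.h ∧ D.a (Y - 1) ≤ x ∧ x < D.b (Y - 1) ∧
      (Y < D.h → x + 1 < D.a Y ∨ D.b Y < x)) ∧ al s ce = 1) := by
  rw [EP_iff, mem_al, mem_al, mem_al, mem_al]
  unfold PT LyL LyR LyF LyC
  rw [sh_false, add_zero]

lemma EP_box (h : EP D s x Y) : -1 ≤ Y ∧ Y ≤ D.h := by
  rw [EP_al] at h
  omega

/-- the natural colours, lower world -/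
lemma natc_pf : natc D false x y = if y < -1 then D.cb else if D.h ≤ y then D.ct
    else if x < D.m y then D.cl y else if D.M y ≤ x then D.cr y
    else if y = -1 then D.cb else if x < D.a y then D.cl (y - 1) else D.cr (y - 1) := by
  unfold natc
  simp only [Bool.false_eq_true, if_false]

/-- the natural colours, upper world -/
lemma natc_pt : natc D true x y = if y < -1 then D.cb else if D.h ≤ y then D.ct
    else if x < D.m y then D.cl y else if D.M y ≤ x then D.cr y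
    else if y = D.h - 1 then D.ct else if x < D.a (y + 1) then D.cl (y + 1) else D.cr (y + 1) := by
  unfold natc
  simp only [if_true]

lemma hP_cases (hP : ¬ PT D x (y + sh p)) :
    (p = false ∧ ¬ (0 ≤ y ∧ y < D.h ∧ D.a y ≤ x ∧ x < D.b y)) ∨
    (p = true ∧ ¬ (0 ≤ y + 1 ∧ y + 1 < D.h ∧ D.a (y + 1) ≤ x ∧ x < D.b (y + 1))) := by
  cases p
  · left; rw [sh_false, add_zero] at hP; exact ⟨rfl, hP⟩
  · right; rw [sh_true] at hP; exact ⟨rfl, hP⟩

/-- tiles near the corner -/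
def Nr (cx c x Y : ℤ) : Prop := cx - 2 ≤ x ∧ x ≤ cx + 1 ∧ c - 2 ≤ Y ∧ Y ≤ c + 1

/-- tiles in the range -/
def Rg (cx c M x Y : ℤ) : Prop := cx - M + 2 ≤ x ∧ x ≤ cx + M - 2 ∧ c - M + 2 ≤ Y ∧ Y ≤ c + M - 2

/-- convex corner of the left boundary, `P` is above -/
structure LNE (D : Win) (cx c M : ℤ) (g : Gr) (cv ch : Bool) : Prop where
  M0 : 20 ≤ M
  c0 : 0 ≤ c
  cP : c + M + 1 < D.yP
  up : ∀ Z, c ≤ Z → Z ≤ c + M → Z < D.h ∧ D.a Z = cx ∧ cx + M < D.b Z ∧ gL D Z = g
  dn : ∀ Z, 0 ≤ Z → c - M ≤ Z → Z < c → Z < D.h ∧ cx + M < D.a Z ∧ D.a Z < D.b Z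
  cu : ∀ y, c - 1 ≤ y → y ≤ c + M → D.cl y = cv
  cd : ∀ y, c - M ≤ y → y + 2 ≤ c → -1 ≤ y → D.cl y = ch
  c1 : (c = 0 ∧ D.cb = ch) ∨ M + 2 ≤ c

/-- convex corner of the left boundary, `P` is below -/
structure LSE (D : Win) (cx c M : ℤ) (g : Gr) (cv ch : Bool) : Prop where
  M0 : 20 ≤ M
  c0 : c ≤ D.h
  cP : D.yP ≤ c
  dn : ∀ Z, c - M ≤ Z → Z < c → 0 ≤ Z ∧ D.a Z = cx ∧ cx + M < D.b Z ∧ gL D Z = g
  up : ∀ Z, Z < D.h → Z ≤ c + M → c ≤ Z → 0 ≤ Z ∧ cx + M < D.a Z ∧ D.a Z < D.b Z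
  cd : ∀ y, c - M ≤ y → y ≤ c - 1 → D.cl y = cv
  cu : ∀ y, c ≤ y → y ≤ c + M → y < D.h → D.cl y = ch
  c1 : (c = D.h ∧ D.ct = ch) ∨ c + M + 2 ≤ D.h

/-- reflex corner of the left boundary, the tiles on the left below the corner are missing -/
structure LSW (D : Win) (cx c M : ℤ) (g : Gr) (cc : Bool) : Prop where
  M0 : 20 ≤ M
  c0 : M + 2 ≤ c
  cP : c + M + 1 < D.yP
  dn : ∀ Z, c - M ≤ Z → Z < c → 0 ≤ Z ∧ (D.a Z = cx ∨ (D.a Z = cx - 1 ∧ Z = c - 1)) ∧
    cx + M < D.b Z ∧ gL D Z = g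
  up : ∀ Z, c ≤ Z → Z ≤ c + M → Z < D.h ∧ D.a Z + M < cx ∧ cx + M < D.b Z
  cd : ∀ y, c - M ≤ y → y + 2 ≤ c → D.cl y = cc

/-- reflex corner of the left boundary, the tiles on the left above the corner are missing -/
structure LNW (D : Win) (cx c M : ℤ) (g : Gr) (cc : Bool) : Prop where
  M0 : 20 ≤ M
  c0 : c + M + 2 ≤ D.h
  cP : D.yP ≤ c
  up : ∀ Z, c ≤ Z → Z ≤ c + M → 0 ≤ Z ∧ (D.a Z = cx ∨ (D.a Z = cx - 1 ∧ Z = c)) ∧
    cx + M < D.b Z ∧ gL D Z = g
  dn : ∀ Z, c - M ≤ Z → Z < c → 0 ≤ Z ∧ D.a Z + M < cx ∧ cx + M < D.b Z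
  cu : ∀ y, c ≤ y → y ≤ c + M → D.cl y = cc

/-- convex corner of the right boundary, `P` is above -/
structure RNW (D : Win) (cx c M : ℤ) (g : Gr) (cv ch : Bool) : Prop where
  M0 : 20 ≤ M
  c0 : 0 ≤ c
  cQ : c ≤ D.yQ
  up : ∀ Z, c ≤ Z → Z ≤ c + M → Z < D.h ∧ D.b Z = cx ∧ D.a Z + M < cx ∧ gR D Z = g
  dn : ∀ Z, 0 ≤ Z → c - M ≤ Z → Z < c → Z < D.h ∧ D.b Z + M < cx ∧ D.a Z < D.b Z
  cu : ∀ y, c - 1 ≤ y → y ≤ c + M → D.cr y = cv
  cd : ∀ y, c - M ≤ y → y + 2 ≤ c → -1 ≤ y → D.cr y = ch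
  c1 : (c = 0 ∧ D.cb = ch) ∨ M + 2 ≤ c

/-- convex corner of the right boundary, `P` is below -/
structure RSW (D : Win) (cx c M : ℤ) (g : Gr) (cv ch : Bool) : Prop where
  M0 : 20 ≤ M
  c0 : c ≤ D.h
  cQ : D.yQ < c - M
  dn : ∀ Z, c - M ≤ Z → Z < c → 0 ≤ Z ∧ D.b Z = cx ∧ D.a Z + M < cx ∧ gR D Z = g
  up : ∀ Z, Z < D.h → Z ≤ c + M → c ≤ Z → 0 ≤ Z ∧ D.b Z + M < cx ∧ D.a Z < D.b Z
  cd : ∀ y, c - M ≤ y → y ≤ c - 1 → D.cr y = cv
  cu : ∀ y, c ≤ y → y ≤ c + M → y < D.h → D.cr y = ch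
  c1 : (c = D.h ∧ D.ct = ch) ∨ c + M + 2 ≤ D.h

/-- reflex corner of the right boundary, the tiles on the right below the corner are missing -/
structure RSE (D : Win) (cx c M : ℤ) (g : Gr) (cc : Bool) : Prop where
  M0 : 20 ≤ M
  c0 : M + 2 ≤ c
  cQ : c ≤ D.yQ
  dn : ∀ Z, c - M ≤ Z → Z < c → 0 ≤ Z ∧ (D.b Z = cx ∨ (D.b Z = cx + 1 ∧ Z = c - 1)) ∧
    D.a Z + M < cx ∧ gR D Z = g
  up : ∀ Z, c ≤ Z → Z ≤ c + M → Z < D.h ∧ cx + M < D.b Z ∧ D.a Z + M < cx
  cd : ∀ y, c - M ≤ y → y + 2 ≤ c → D.cr y = cc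

/-- reflex corner of the right boundary, the tiles on the right above the corner are missing -/
structure RNE (D : Win) (cx c M : ℤ) (g : Gr) (cc : Bool) : Prop where
  M0 : 20 ≤ M
  c0 : c + M + 2 ≤ D.h
  cQ : D.yQ < c - M
  up : ∀ Z, c ≤ Z → Z ≤ c + M → 0 ≤ Z ∧ (D.b Z = cx ∨ (D.b Z = cx + 1 ∧ Z = c)) ∧
    D.a Z + M < cx ∧ gR D Z = g
  dn : ∀ Z, c - M ≤ Z → Z < c → 0 ≤ Z ∧ cx + M < D.b Z ∧ D.a Z + M < cx
  cu : ∀ y, c ≤ y → y ≤ c + M → D.cr y = cc

lemma LNE.E (h : LNE D cx c M g cv ch) (hr : Rg cx c M x Y) (hn : ¬ Nr cx c x Y) :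
    EP D s x Y ↔ cx - al s g ≤ x ∧ c - al s fo ≤ Y := by
  have M0 := h.M0
  have c0 := h.c0
  have c2 := h.cP
  have Q1 := D.Q1
  have P1 := D.P1
  rw [EP_al]
  unfold Nr at hn
  unfold Rg at hr
  have u0 := h.up (Y - 1)
  have u1 := h.up Y
  have u2 := h.up (Y + 1)
  have d0 := h.dn (Y - 1)
  have d1 := h.dn Y
  have d2 := h.dn (Y + 1)
  have hg : c ≤ Y → al s (gL D Y) = al s g := fun k => by
    rw [(u1 (by omega) (by omega)).2.2.2]
  have a1 := al_01 (s := s) (g := g)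
  have a2 := al_01 (s := s) (g := gL D Y)
  have a4 := al_01 (s := s) (g := fo)
  have a5 := al_01 (s := s) (g := ce)
  clear h
  constructor
  · rintro (h | h | h | h | h) <;> omega
  · intro k
    by_cases q1 : c ≤ Y
    · by_cases q2 : cx ≤ x
      · left; omega
      · right; left; omega
    · right; right; right; left; omega

lemma LSE.E (h : LSE D cx c M g cv ch) (hr : Rg cx c M x Y) (hn : ¬ Nr cx c x Y) :
    EP D s x Y ↔ cx - al s g ≤ x ∧ Y < c + al s ce := by
  have M0 := h.M0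
  have c0 := h.c0
  have c2 := h.cP
  have Q1 := D.Q1
  have P1 := D.P1
  rw [EP_al]
  unfold Nr at hn
  unfold Rg at hr
  have u0 := h.up (Y - 1)
  have u1 := h.up Y
  have u2 := h.up (Y + 1)
  have d0 := h.dn (Y - 1)
  have d1 := h.dn Y
  have d2 := h.dn (Y + 1)
  have hg : Y < c ∧ c - M ≤ Y → al s (gL D Y) = al s g := fun k => by
    rw [(d1 (by omega) (by omega)).2.2.2]
  have a1 := al_01 (s := s) (g := g)
  have a2 := al_01 (s := s) (g := gL D Y)
  have a4 := al_01 (s := s) (g := fo)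
  have a5 := al_01 (s := s) (g := ce)
  clear h
  constructor
  · rintro (h | h | h | h | h) <;> omega
  · intro k
    by_cases q1 : Y < c
    · by_cases q2 : cx ≤ x
      · left; omega
      · right; left; omega
    · right; right; right; right; omega

lemma LSW.E (h : LSW D cx c M g cc) (hr : Rg cx c M x Y) (hn : ¬ Nr cx c x Y) :
    EP D s x Y ↔ cx - al s g ≤ x ∨ c - al s fo ≤ Y := by
  have M0 := h.M0
  have c0 := h.c0
  have c2 := h.cP
  have Q1 := D.Q1
  have P1 := D.P1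
  rw [EP_al]
  unfold Nr at hn
  unfold Rg at hr
  have u0 := h.up (Y - 1)
  have u1 := h.up Y
  have u2 := h.up (Y + 1)
  have d0 := h.dn (Y - 1)
  have d1 := h.dn Y
  have d2 := h.dn (Y + 1)
  have hg : Y < c ∧ c - M ≤ Y → al s (gL D Y) = al s g := fun k => by
    rw [(d1 (by omega) (by omega)).2.2.2]
  have a1 := al_01 (s := s) (g := g)
  have a2 := al_01 (s := s) (g := gL D Y)
  have a4 := al_01 (s := s) (g := fo)
  have a5 := al_01 (s := s) (g := ce)
  clear h
  constructor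
  · rintro (h | h | h | h | h) <;> omega
  · intro k
    by_cases q1 : c ≤ Y ∨ cx ≤ x
    · left; omega
    · by_cases q2 : cx - al s g ≤ x
      · right; left; omega
      · right; right; right; left; omega

lemma LNW.E (h : LNW D cx c M g cc) (hr : Rg cx c M x Y) (hn : ¬ Nr cx c x Y) :
    EP D s x Y ↔ cx - al s g ≤ x ∨ Y < c + al s ce := by
  have M0 := h.M0
  have c0 := h.c0
  have c2 := h.cP
  have Q1 := D.Q1
  have P1 := D.P1
  rw [EP_al]
  unfold Nr at hn
  unfold Rg at hr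
  have u0 := h.up (Y - 1)
  have u1 := h.up Y
  have u2 := h.up (Y + 1)
  have d0 := h.dn (Y - 1)
  have d1 := h.dn Y
  have d2 := h.dn (Y + 1)
  have hg : c ≤ Y → al s (gL D Y) = al s g := fun k => by
    rw [(u1 (by omega) (by omega)).2.2.2]
  have a1 := al_01 (s := s) (g := g)
  have a2 := al_01 (s := s) (g := gL D Y)
  have a4 := al_01 (s := s) (g := fo)
  have a5 := al_01 (s := s) (g := ce)
  clear h
  constructor
  · rintro (h | h | h | h | h) <;> omega
  · intro k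
    by_cases q1 : Y < c ∨ cx ≤ x
    · left; omega
    · by_cases q2 : cx - al s g ≤ x
      · right; left; omega
      · right; right; right; right; omega

lemma RNW.E (h : RNW D cx c M g cv ch) (hr : Rg cx c M x Y) (hn : ¬ Nr cx c x Y) :
    EP D s x Y ↔ x < cx + al s g ∧ c - al s fo ≤ Y := by
  have M0 := h.M0
  have c0 := h.c0
  have c2 := h.cQ
  have Q1 := D.Q1
  have P1 := D.P1
  rw [EP_al]
  unfold Nr at hn
  unfold Rg at hr
  have u0 := h.up (Y - 1)
  have u1 := h.up Y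
  have u2 := h.up (Y + 1)
  have d0 := h.dn (Y - 1)
  have d1 := h.dn Y
  have d2 := h.dn (Y + 1)
  have hg : c ≤ Y → al s (gR D Y) = al s g := fun k => by
    rw [(u1 (by omega) (by omega)).2.2.2]
  have a1 := al_01 (s := s) (g := g)
  have a2 := al_01 (s := s) (g := gR D Y)
  have a4 := al_01 (s := s) (g := fo)
  have a5 := al_01 (s := s) (g := ce)
  clear h
  constructor
  · rintro (h | h | h | h | h) <;> omega
  · intro k
    by_cases q1 : c ≤ Y
    · by_cases q2 : x < cx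
      · left; omega
      · right; right; left; omega
    · right; right; right; left; omega

lemma RSW.E (h : RSW D cx c M g cv ch) (hr : Rg cx c M x Y) (hn : ¬ Nr cx c x Y) :
    EP D s x Y ↔ x < cx + al s g ∧ Y < c + al s ce := by
  have M0 := h.M0
  have c0 := h.c0
  have c2 := h.cQ
  have Q1 := D.Q1
  have P1 := D.P1
  rw [EP_al]
  unfold Nr at hn
  unfold Rg at hr
  have u0 := h.up (Y - 1)
  have u1 := h.up Y
  have u2 := h.up (Y + 1)
  have d0 := h.dn (Y - 1)
  have d1 := h.dn Y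
  have d2 := h.dn (Y + 1)
  have hg : Y < c ∧ c - M ≤ Y → al s (gR D Y) = al s g := fun k => by
    rw [(d1 (by omega) (by omega)).2.2.2]
  have a1 := al_01 (s := s) (g := g)
  have a2 := al_01 (s := s) (g := gR D Y)
  have a4 := al_01 (s := s) (g := fo)
  have a5 := al_01 (s := s) (g := ce)
  clear h
  constructor
  · rintro (h | h | h | h | h) <;> omega
  · intro k
    by_cases q1 : Y < c
    · by_cases q2 : x < cx
      · left; omega
      · right; right; left; omega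
    · right; right; right; right; omega

lemma RSE.E (h : RSE D cx c M g cc) (hr : Rg cx c M x Y) (hn : ¬ Nr cx c x Y) :
    EP D s x Y ↔ x < cx + al s g ∨ c - al s fo ≤ Y := by
  have M0 := h.M0
  have c0 := h.c0
  have c2 := h.cQ
  have Q1 := D.Q1
  have P1 := D.P1
  rw [EP_al]
  unfold Nr at hn
  unfold Rg at hr
  have u0 := h.up (Y - 1)
  have u1 := h.up Y
  have u2 := h.up (Y + 1)
  have d0 := h.dn (Y - 1)
  have d1 := h.dn Y
  have d2 := h.dn (Y + 1)
  have hg : Y < c ∧ c - M ≤ Y → al s (gR D Y) = al s g := fun k => by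
    rw [(d1 (by omega) (by omega)).2.2.2]
  have a1 := al_01 (s := s) (g := g)
  have a2 := al_01 (s := s) (g := gR D Y)
  have a4 := al_01 (s := s) (g := fo)
  have a5 := al_01 (s := s) (g := ce)
  clear h
  constructor
  · rintro (h | h | h | h | h) <;> omega
  · intro k
    by_cases q1 : c ≤ Y ∨ x < cx
    · left; omega
    · by_cases q2 : x < cx + al s g
      · right; right; left; omega
      · right; right; right; left; omega

lemma RNE.E (h : RNE D cx c M g cc) (hr : Rg cx c M x Y) (hn : ¬ Nr cx c x Y) :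
    EP D s x Y ↔ x < cx + al s g ∨ Y < c + al s ce := by
  have M0 := h.M0
  have c0 := h.c0
  have c2 := h.cQ
  have Q1 := D.Q1
  have P1 := D.P1
  rw [EP_al]
  unfold Nr at hn
  unfold Rg at hr
  have u0 := h.up (Y - 1)
  have u1 := h.up Y
  have u2 := h.up (Y + 1)
  have d0 := h.dn (Y - 1)
  have d1 := h.dn Y
  have d2 := h.dn (Y + 1)
  have hg : c ≤ Y → al s (gR D Y) = al s g := fun k => by
    rw [(u1 (by omega) (by omega)).2.2.2]
  have a1 := al_01 (s := s) (g := g)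
  have a2 := al_01 (s := s) (g := gR D Y)
  have a4 := al_01 (s := s) (g := fo)
  have a5 := al_01 (s := s) (g := ce)
  clear h
  constructor
  · rintro (h | h | h | h | h) <;> omega
  · intro k
    by_cases q1 : Y < c ∨ x < cx
    · left; omega
    · by_cases q2 : x < cx + al s g
      · right; right; left; omega
      · right; right; right; right; omega

lemma LNE.C (h : LNE D cx c M g cv ch) (hr : Rg cx c M x y)
    (hP : ¬ PT D x (y + sh p)) : natc D p x y = if x < cx ∧ c - 1 ≤ y then cv else ch := by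
  have M0 := h.M0
  have c0 := h.c0
  have c2 := h.cP
  have c1 := h.c1
  have Q0 := D.Q0
  have Q1 := D.Q1
  have P0 := D.P0
  have P1 := D.P1
  unfold Rg at hr
  have u0 := h.up y
  have u1 := h.up (y + 1)
  have u2 := h.up (y + 1 + 1)
  have d0 := h.dn y
  have d1 := h.dn (y + 1)
  have d2 := h.dn (y - 1)
  have e1 := m_f D y
  have e2 := M_f D y
  rcases hP_cases hP with ⟨rfl, hP⟩ | ⟨rfl, hP⟩
  · rw [natc_pf]
    split_ifs <;> first
      | (exfalso; omega)
      | exact h.cu _ (by omega) (by omega)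
      | exact h.cd _ (by omega) (by omega) (by omega)
      | (rcases c1 with ⟨c1, c2⟩ | c1
         · exact c2
         · exfalso; omega)
  · rw [natc_pt]
    split_ifs <;> first
      | (exfalso; omega)
      | exact h.cu _ (by omega) (by omega)
      | exact h.cd _ (by omega) (by omega) (by omega)
      | (rcases c1 with ⟨c1, c2⟩ | c1
         · exact c2
         · exfalso; omega)

lemma LSE.C (h : LSE D cx c M g cv ch) (hr : Rg cx c M x y)
    (hP : ¬ PT D x (y + sh p)) : natc D p x y = if x < cx ∧ y ≤ c - 1 then cv else ch := by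
  have M0 := h.M0
  have c0 := h.c0
  have c2 := h.cP
  have c1 := h.c1
  have Q0 := D.Q0
  have Q1 := D.Q1
  have P0 := D.P0
  have P1 := D.P1
  unfold Rg at hr
  have u0 := h.up y
  have u1 := h.up (y + 1)
  have u2 := h.up (y + 1 + 1)
  have d0 := h.dn y
  have d1 := h.dn (y + 1)
  have d2 := h.dn (y - 1)
  have e1 := m_f D y
  have e2 := M_f D y
  rcases hP_cases hP with ⟨rfl, hP⟩ | ⟨rfl, hP⟩
  · rw [natc_pf]
    split_ifs <;> first
      | (exfalso; omega)
      | exact h.cd _ (by omega) (by omega)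
      | exact h.cu _ (by omega) (by omega) (by omega)
      | (rcases c1 with ⟨c1, c2⟩ | c1
         · exact c2
         · exfalso; omega)
  · rw [natc_pt]
    split_ifs <;> first
      | (exfalso; omega)
      | exact h.cd _ (by omega) (by omega)
      | exact h.cu _ (by omega) (by omega) (by omega)
      | (rcases c1 with ⟨c1, c2⟩ | c1
         · exact c2
         · exfalso; omega)

lemma LSW.C (h : LSW D cx c M g cc) (hr : Rg cx c M x y)
    (hP : ¬ PT D x (y + sh p)) : natc D p x y = cc := by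
  have M0 := h.M0
  have c0 := h.c0
  have c2 := h.cP
  have Q0 := D.Q0
  have Q1 := D.Q1
  have P0 := D.P0
  have P1 := D.P1
  unfold Rg at hr
  have u0 := h.up y
  have u1 := h.up (y + 1)
  have u2 := h.up (y + 1 + 1)
  have d0 := h.dn y
  have d1 := h.dn (y + 1)
  have d2 := h.dn (y - 1)
  have e1 := m_f D y
  have e2 := M_f D y
  rcases hP_cases hP with ⟨rfl, hP⟩ | ⟨rfl, hP⟩
  · rw [natc_pf]
    split_ifs <;> first
      | (exfalso; omega)
      | exact h.cd _ (by omega) (by omega)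
  · rw [natc_pt]
    split_ifs <;> first
      | (exfalso; omega)
      | exact h.cd _ (by omega) (by omega)

lemma LNW.C (h : LNW D cx c M g cc) (hr : Rg cx c M x y)
    (hP : ¬ PT D x (y + sh p)) : natc D p x y = cc := by
  have M0 := h.M0
  have c0 := h.c0
  have c2 := h.cP
  have Q0 := D.Q0
  have Q1 := D.Q1
  have P0 := D.P0
  have P1 := D.P1
  unfold Rg at hr
  have u0 := h.up y
  have u1 := h.up (y + 1)
  have u2 := h.up (y + 1 + 1)
  have d0 := h.dn y
  have d1 := h.dn (y + 1)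
  have d2 := h.dn (y - 1)
  have e1 := m_f D y
  have e2 := M_f D y
  rcases hP_cases hP with ⟨rfl, hP⟩ | ⟨rfl, hP⟩
  · rw [natc_pf]
    split_ifs <;> first
      | (exfalso; omega)
      | exact h.cu _ (by omega) (by omega)
  · rw [natc_pt]
    split_ifs <;> first
      | (exfalso; omega)
      | exact h.cu _ (by omega) (by omega)

lemma RNW.C (h : RNW D cx c M g cv ch) (hr : Rg cx c M x y)
    (hP : ¬ PT D x (y + sh p)) : natc D p x y = if cx ≤ x ∧ c - 1 ≤ y then cv else ch := by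
  have M0 := h.M0
  have c0 := h.c0
  have c2 := h.cQ
  have c1 := h.c1
  have Q0 := D.Q0
  have Q1 := D.Q1
  have P0 := D.P0
  have P1 := D.P1
  unfold Rg at hr
  have u0 := h.up y
  have u1 := h.up (y + 1)
  have u2 := h.up (y + 1 + 1)
  have d0 := h.dn y
  have d1 := h.dn (y + 1)
  have d2 := h.dn (y - 1)
  have e1 := m_f D y
  have e2 := M_f D y
  rcases hP_cases hP with ⟨rfl, hP⟩ | ⟨rfl, hP⟩
  · rw [natc_pf]
    split_ifs <;> first
      | (exfalso; omega)
      | exact h.cu _ (by omega) (by omega)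
      | exact h.cd _ (by omega) (by omega) (by omega)
      | (rcases c1 with ⟨c1, c2⟩ | c1
         · exact c2
         · exfalso; omega)
  · rw [natc_pt]
    split_ifs <;> first
      | (exfalso; omega)
      | exact h.cu _ (by omega) (by omega)
      | exact h.cd _ (by omega) (by omega) (by omega)
      | (rcases c1 with ⟨c1, c2⟩ | c1
         · exact c2
         · exfalso; omega)

lemma RSW.C (h : RSW D cx c M g cv ch) (hr : Rg cx c M x y)
    (hP : ¬ PT D x (y + sh p)) : natc D p x y = if cx ≤ x ∧ y ≤ c - 1 then cv else ch := by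
  have M0 := h.M0
  have c0 := h.c0
  have c2 := h.cQ
  have c1 := h.c1
  have Q0 := D.Q0
  have Q1 := D.Q1
  have P0 := D.P0
  have P1 := D.P1
  unfold Rg at hr
  have u0 := h.up y
  have u1 := h.up (y + 1)
  have u2 := h.up (y + 1 + 1)
  have d0 := h.dn y
  have d1 := h.dn (y + 1)
  have d2 := h.dn (y - 1)
  have e1 := m_f D y
  have e2 := M_f D y
  rcases hP_cases hP with ⟨rfl, hP⟩ | ⟨rfl, hP⟩
  · rw [natc_pf]
    split_ifs <;> first
      | (exfalso; omega)
      | exact h.cd _ (by omega) (by omega)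
      | exact h.cu _ (by omega) (by omega) (by omega)
      | (rcases c1 with ⟨c1, c2⟩ | c1
         · exact c2
         · exfalso; omega)
  · rw [natc_pt]
    split_ifs <;> first
      | (exfalso; omega)
      | exact h.cd _ (by omega) (by omega)
      | exact h.cu _ (by omega) (by omega) (by omega)
      | (rcases c1 with ⟨c1, c2⟩ | c1
         · exact c2
         · exfalso; omega)

lemma RSE.C (h : RSE D cx c M g cc) (hr : Rg cx c M x y)
    (hP : ¬ PT D x (y + sh p)) : natc D p x y = cc := by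
  have M0 := h.M0
  have c0 := h.c0
  have c2 := h.cQ
  have Q0 := D.Q0
  have Q1 := D.Q1
  have P0 := D.P0
  have P1 := D.P1
  unfold Rg at hr
  have u0 := h.up y
  have u1 := h.up (y + 1)
  have u2 := h.up (y + 1 + 1)
  have d0 := h.dn y
  have d1 := h.dn (y + 1)
  have d2 := h.dn (y - 1)
  have e1 := m_f D y
  have e2 := M_f D y
  rcases hP_cases hP with ⟨rfl, hP⟩ | ⟨rfl, hP⟩
  · rw [natc_pf]
    split_ifs <;> first
      | (exfalso; omega)
      | exact h.cd _ (by omega) (by omega)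
  · rw [natc_pt]
    split_ifs <;> first
      | (exfalso; omega)
      | exact h.cd _ (by omega) (by omega)

lemma RNE.C (h : RNE D cx c M g cc) (hr : Rg cx c M x y)
    (hP : ¬ PT D x (y + sh p)) : natc D p x y = cc := by
  have M0 := h.M0
  have c0 := h.c0
  have c2 := h.cQ
  have Q0 := D.Q0
  have Q1 := D.Q1
  have P0 := D.P0
  have P1 := D.P1
  unfold Rg at hr
  have u0 := h.up y
  have u1 := h.up (y + 1)
  have u2 := h.up (y + 1 + 1)
  have d0 := h.dn y
  have d1 := h.dn (y + 1)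
  have d2 := h.dn (y - 1)
  have e1 := m_f D y
  have e2 := M_f D y
  rcases hP_cases hP with ⟨rfl, hP⟩ | ⟨rfl, hP⟩
  · rw [natc_pf]
    split_ifs <;> first
      | (exfalso; omega)
      | exact h.cu _ (by omega) (by omega)
  · rw [natc_pt]
    split_ifs <;> first
      | (exfalso; omega)
      | exact h.cu _ (by omega) (by omega)

end Pool.Agent.H14.Win
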