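import Mathlib
import Pool.Agent.H14.Win.CorR
import Pool.Agent.H14.R45.DispF
import Pool.Agent.H74.Win.NatE

set_option autoImplicit false
open Finset

/-! # One corner of a window

`Cnr` : the labels `E` (random) and `W` (open) look like a corner, convex or reflex, up to a reflection.
`dispG_of` : two environments in the large box of a window which differ only at the labels `S`. `cnr_rect` : the
potentials of two such environments on a rectangle of random tiles. -/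

namespace Pool.Agent.H14.Win

open Pool.Agent.H75.Perc hiding ph
open Pool.Agent.H75.TwoArm Pool.Agent.H75.Four Pool.Agent.H69.Q1
open Pool.Agent.Q1 Pool.Agent.H43.Q1 Pool.Agent.H39.Q1 Pool.Agent.Q1.M6c
open Pool.Agent.H60.Q1 Pool.Agent.H99.NC Pool.Agent.H42.FM Pool.Agent.H44.FM Pool.Agent.H14.R45
open Pool.Agent.H33.Q1 (lt tt tv tf lt_inj tt_lt lt_odd lt_tt)
open Pool.Agent.H74.R45 (Pot RT lt_mem_RT)
open Pool.Agent.H46.Sp (Win)
open Pool.Agent.H74.Win (OutB GB XB XB_E odd_GB GB_not_Wo XB_sub XB_disj)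

variable {D : Win} {O : OutB D} {E1 W1 E2 W2 S E W : Finset (ℤ × ℤ)} {p : ℤ × ℤ} {r : ℕ}
  {Bad : Finset (ℤ × ℤ) → Prop} {δ : ℝ}

/-- two environments which differ only at the labels of `S` -/
theorem dispG_of {hE1 : E1 ⊆ GB D} {hW1 : W1 ⊆ GB D} {hd1 : Disjoint E1 W1} {hE2 : E2 ⊆ GB D}
    {hW2 : W2 ⊆ GB D} {hd2 : Disjoint E2 W2} (hS : S ⊆ GB D) (hSp : S ⊆ BR p ((20 : ℕ) : ℤ))
    (hEE : E1 \ S = E2 \ S) (hWW : W1 \ S = W2 \ S) (far : Far p (r + 2) (vx O.c0))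
    (bad : BadEv (E1 ∪ S) (od (W1 \ S ∪ O.Wo)) p r 20 Bad)
    (pr : PrP (fun _ => 1 / 2) (Eo (E1 ∪ S) p r 20) Bad ≤ δ) (sr : 20 ≤ r) :
    DispG (XB O E1 W1 hE1 hW1 hd1) (XB O E2 W2 hE2 hW2 hd2) (E1 ∪ S) (od (W1 \ S ∪ O.Wo))
      (od (W1 ∪ O.Wo)) (od (W2 ∪ O.Wo)) p r 20 Bad δ := by
  have mE : ∀ l, l ∉ S → (l ∈ E1 ↔ l ∈ E2) := by
    intro l hl
    have := Finset.ext_iff.1 hEE l
    simp only [mem_sdiff, hl, not_false_eq_true, and_true] at this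
    exact this
  have mW : ∀ l, l ∉ S → (l ∈ W1 ↔ l ∈ W2) := by
    intro l hl
    have := Finset.ext_iff.1 hWW l
    simp only [mem_sdiff, hl, not_false_eq_true, and_true] at this
    exact this
  have hES : E1 ∪ S ⊆ GB D := union_subset hE1 hS
  have hsub : E1 ∪ S ∪ od (W1 \ S ∪ O.Wo) ⊆ GB D ∪ O.Wo := by
    refine (union_subset_union_right od_sub).trans ?_
    rw [← union_assoc]
    exact union_subset_union_left (union_subset hES (sdiff_subset.trans hW1))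
  have odm : ∀ {A B : Finset (ℤ × ℤ)}, A ⊆ B → od A ⊆ od B := fun h => filter_subset_filter _ h
  refine
    { hX := ?_
      hZ := ?_
      hc := rfl
      hk := rfl
      oE := fun e he => odd_GB (hES he)
      XE := subset_union_left
      ZE := ?_
      XE' := ?_
      ZE' := ?_
      XW := odm (union_subset_union_left sdiff_subset)
      ZW := ?_
      XW' := ?_
      ZW' := ?_
      dis := ?_
      root := fun h => O.hroot (hES h)
      out := ⟨O.g, O.hg.anti hsub, fun v hv => O.hlow v (hv.mono hsub)⟩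
      far := far
      bad := bad
      pr := pr
      sr := sr }
  · exact planeEnv_od
  · exact planeEnv_od
  · intro l hl
    by_cases h : l ∈ S
    · exact mem_union_right _ h
    · exact mem_union_left _ ((mE l h).2 hl)
  · intro l hl
    obtain ⟨h1, h2⟩ := mem_sdiff.1 hl
    exact (mem_union.1 h1).resolve_right fun h => h2 (hSp h)
  · intro l hl
    obtain ⟨h1, h2⟩ := mem_sdiff.1 hl
    have h3 : l ∉ S := fun h => h2 (hSp h)
    exact (mE l h3).1 ((mem_union.1 h1).resolve_right h3)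
  · rw [hWW]
    exact odm (union_subset_union_left sdiff_subset)
  · intro l hl
    obtain ⟨h1, h2⟩ := mem_sdiff.1 hl
    obtain ⟨h1, ho⟩ := mem_filter.1 h1
    have h2 : ¬ (l ∈ W1 \ S ∪ O.Wo) := fun h => h2 (mem_filter.2 ⟨h, ho⟩)
    rw [mem_union, not_or, mem_sdiff] at h2
    have h3 : l ∈ W1 := (mem_union.1 h1).resolve_right h2.2
    have h4 : l ∈ S := by
      by_contra h
      exact h2.1 ⟨h3, h⟩
    exact mem_inter.2 ⟨mem_union_right _ h4, hSp h4⟩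
  · intro l hl
    obtain ⟨h1, h2⟩ := mem_sdiff.1 hl
    obtain ⟨h1, ho⟩ := mem_filter.1 h1
    have h2 : ¬ (l ∈ W1 \ S ∪ O.Wo) := fun h => h2 (mem_filter.2 ⟨h, ho⟩)
    rw [mem_union, not_or, mem_sdiff] at h2
    have h3 : l ∈ W2 := (mem_union.1 h1).resolve_right h2.2
    have h4 : l ∈ S := by
      by_contra h
      exact h2.1 ⟨(mW l h).2 h3, h⟩
    exact mem_inter.2 ⟨mem_union_right _ h4, hSp h4⟩
  · rw [disjoint_left]
    intro l hl hl'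
    rcases mem_union.1 (od_sub hl') with h | h
    · obtain ⟨h1, h2⟩ := mem_sdiff.1 h
      rcases mem_union.1 hl with h3 | h3
      · exact disjoint_left.1 hd1 h3 h1
      · exact h2 h3
    · exact GB_not_Wo O (hES hl) h

/-- a corner, convex or reflex, up to a reflection -/
def Cnr (σ τ : Bool) (E W : Finset (ℤ × ℤ)) (P Q L xa xb ya yb : ℤ) : Prop :=
  (∃ ys cv ch, Cvx (Tp σ τ E) (Tp σ τ W) P Q L xa xb ya yb ys cv ch) ∨
    ∃ c, Rfx (Tp σ τ E) (Tp σ τ W) P Q L xa xb ya yb c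

variable {σ τ : Bool} {P Q L xa xb ya yb x y : ℤ}

/-- the small rectangle and a tile which is not random -/
lemma Cnr.info (h : Cnr σ τ E W P Q L xa xb ya yb) :
    P - 16 ≤ xa ∧ xa ≤ P - 1 ∧ P + 2 ≤ xb ∧ xb ≤ P + 16 ∧
    Q - 16 ≤ ya ∧ ya ≤ Q - 1 ∧ Q + 2 ≤ yb ∧ yb ≤ Q + 16 ∧
    (17 ≤ L → lt (rf σ (xa - 1), rf τ (ya - 1)) ∉ E) := by
  rcases h with ⟨ys, cv, ch, R⟩ | ⟨c, R⟩
  · have a1 := R.x1; have a2 := R.x2; have a3 := R.x3; have a4 := R.x4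
    have b1 := R.y1; have b2 := R.y2; have b3 := R.y3; have b4 := R.y4
    refine ⟨a1, a2, a3, a4, b1, b2, b3, b4, fun hL => ?_⟩
    exact (R.col (xa - 1) (ya - 1) (by omega) (by omega) (by omega) (by omega) (by omega)
      (by omega)).1
  · have a1 := R.x1; have a2 := R.x2; have a3 := R.x3; have a4 := R.x4
    have b1 := R.y1; have b2 := R.y2; have b3 := R.y3; have b4 := R.y4
    refine ⟨a1, by omega, a3, a4, b1, by omega, b3, b4, fun hL => ?_⟩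
    exact (R.col (xa - 1) (ya - 1) (by omega) (by omega) (by omega) (by omega) (by omega)).1

theorem cnr_bad : ∃ C α : ℝ, 0 < C ∧ 0 < α ∧ ∀ (σ τ : Bool) (E W : Finset (ℤ × ℤ))
    (P Q L xa xb ya yb : ℤ), Cnr σ τ E W P Q L xa xb ya yb →
    Disjoint E W → (∀ e ∈ E, (e.1 + e.2) % 2 = 1) → ∀ r : ℕ, 160 ≤ r → 2 * (r : ℤ) + 8 ≤ L →
    ∃ Bad, BadEv E W (ctr σ τ P Q) r 20 Bad ∧
      PrP (fun _ => 1 / 2) (Eo E (ctr σ τ P Q) r 20) Bad ≤ C * ((1 : ℝ) / r) ^ (1 + α) := by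
  obtain ⟨C1, hC1, h1⟩ := cvx_bad
  obtain ⟨C2, α, hC2, hα, h2⟩ := rfx_bad
  refine ⟨C1 + C2, min α (1 / 3), by positivity, by positivity, ?_⟩
  intro σ τ E W P Q L xa xb ya yb hc hd ho r hr hL
  have hr0 : (1 : ℝ) ≤ r := by
    have : 1 ≤ r := by omega
    exact_mod_cast this
  have hle : (1 : ℝ) / r ≤ 1 := by rw [div_le_one (by linarith)]; exact hr0
  have hpos : (0 : ℝ) < 1 / r := by positivity
  rcases hc with ⟨ys, cv, ch, R⟩ | ⟨c, R⟩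
  · obtain ⟨Bad, b1, b2⟩ := h1 σ τ E W P Q L xa xb ya yb ys cv ch R hd ho r hr hL
    refine ⟨Bad, b1, b2.trans ?_⟩
    have e1 : ((1 : ℝ) / r) ^ (4 / 3 : ℝ) ≤ ((1 : ℝ) / r) ^ (1 + min α (1 / 3)) :=
      Real.rpow_le_rpow_of_exponent_ge hpos hle (by have := min_le_right α (1 / 3); linarith)
    have e2 : (0 : ℝ) ≤ ((1 : ℝ) / r) ^ (1 + min α (1 / 3)) := by positivity
    calc C1 * ((1 : ℝ) / r) ^ (4 / 3 : ℝ) ≤ C1 * ((1 : ℝ) / r) ^ (1 + min α (1 / 3)) :=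
          mul_le_mul_of_nonneg_left e1 hC1.le
      _ ≤ (C1 + C2) * ((1 : ℝ) / r) ^ (1 + min α (1 / 3)) :=
          mul_le_mul_of_nonneg_right (by linarith) e2
  · obtain ⟨Bad, b1, b2⟩ := h2 σ τ E W P Q L xa xb ya yb c R hd ho r hr hL
    refine ⟨Bad, b1, b2.trans ?_⟩
    have e1 : ((1 : ℝ) / r) ^ (1 + α) ≤ ((1 : ℝ) / r) ^ (1 + min α (1 / 3)) :=
      Real.rpow_le_rpow_of_exponent_ge hpos hle (by have := min_le_left α (1 / 3); linarith)
    have e2 : (0 : ℝ) ≤ ((1 : ℝ) / r) ^ (1 + min α (1 / 3)) := by positivity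
    calc C2 * ((1 : ℝ) / r) ^ (1 + α) ≤ C2 * ((1 : ℝ) / r) ^ (1 + min α (1 / 3)) :=
          mul_le_mul_of_nonneg_left e1 hC2.le
      _ ≤ (C1 + C2) * ((1 : ℝ) / r) ^ (1 + min α (1 / 3)) :=
          mul_le_mul_of_nonneg_right (by linarith) e2

lemma tv_ctr : (tv (ctr σ τ P Q)).1 = sn σ (cp P Q) ∧ (tv (ctr σ τ P Q)).2 = sn τ Q := by
  have h := par_sn (σ := σ) (τ := τ) (cp_par (P := P) (Q := Q))
  unfold ctr tv vt
  simp only
  omega

/-- the corner is not deep in a rectangle of random tiles -/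
lemma Cnr.pos (h : Cnr σ τ E W P Q L xa xb ya yb) (hL : 17 ≤ L) {x0 x1 y0 y1 : ℤ}
    (hR : RT x0 x1 y0 y1 ⊆ E) :
    (tv (ctr σ τ P Q)).1 ≤ x0 + 20 ∨ x1 - 20 ≤ (tv (ctr σ τ P Q)).1 ∨
      (tv (ctr σ τ P Q)).2 ≤ y0 + 20 ∨ y1 - 20 ≤ (tv (ctr σ τ P Q)).2 := by
  obtain ⟨a1, a2, a3, a4, b1, b2, b3, b4, ht⟩ := h.info
  have h1 : ¬ (x0 ≤ rf σ (xa - 1) ∧ rf σ (xa - 1) < x1 ∧ y0 ≤ rf τ (ya - 1) ∧ rf τ (ya - 1) < y1) := by
    intro h2
    refine ht hL (hR ?_)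
    rw [lt_mem_RT]
    exact h2
  rw [tv_ctr.1, tv_ctr.2]
  have hc := cp_le (P := P) (Q := Q)
  clear ht hR
  cases σ <;> cases τ <;> simp only [rf_true, rf_false, sn_true, sn_false] at h1 ⊢ <;> omega

/-- **One corner**: the potentials of two environments which differ only near a corner -/
theorem cnr_rect (hAP : AP PlaneK) : ∃ α : ℝ, 0 < α ∧ ∀ η : ℝ, 0 < η → ∃ C : ℝ, 0 < C ∧ ∃ n0 : ℕ,
    ∀ n : ℕ, n0 ≤ n → ∀ (D : Win) (O : OutB D) (E1 W1 E2 W2 S : Finset (ℤ × ℤ))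
    (hE1 : E1 ⊆ GB D) (hW1 : W1 ⊆ GB D) (hd1 : Disjoint E1 W1) (hE2 : E2 ⊆ GB D)
    (hW2 : W2 ⊆ GB D) (hd2 : Disjoint E2 W2) (σ τ : Bool) (P Q L xa xb ya yb : ℤ),
    Cnr σ τ (E1 ∪ S) (od (W1 \ S ∪ O.Wo)) P Q L xa xb ya yb → η * n ≤ L → S ⊆ GB D →
    (∀ x y, lt (rf σ x, rf τ y) ∈ S → xa ≤ x ∧ x ≤ xb ∧ ya ≤ y ∧ y ≤ yb) →
    E1 \ S = E2 \ S → W1 \ S = W2 \ S →
    ((tv (vx O.c0)).1 + η * n ≤ (tv (ctr σ τ P Q)).1 ∨ (tv (ctr σ τ P Q)).1 + η * n ≤ (tv (vx O.c0)).1 ∨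
      (tv (vx O.c0)).2 + η * n ≤ (tv (ctr σ τ P Q)).2 ∨
      (tv (ctr σ τ P Q)).2 + η * n ≤ (tv (vx O.c0)).2) →
    ∀ (x0 x1 y0 y1 : ℤ), RT x0 x1 y0 y1 ⊆ E1 → RT x0 x1 y0 y1 ⊆ E2 →
    ((x1 - x0 : ℤ) : ℝ) ≤ n / η → ((y1 - y0 : ℤ) : ℝ) ≤ n / η →
    ∀ HX HZ : ℤ → ℤ → ℂ, Pot (fun c => (XB O E1 W1 hE1 hW1 hd1).inc c) HX x0 x1 y0 y1 →
    Pot (fun c => (XB O E2 W2 hE2 hW2 hd2).inc c) HZ x0 x1 y0 y1 → ∀ x y x' y' : ℤ,
    x0 + η * n ≤ x → x + η * n ≤ x1 → y0 + η * n ≤ y → y + η * n ≤ y1 →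
    x0 + η * n ≤ x' → x' + η * n ≤ x1 → y0 + η * n ≤ y' → y' + η * n ≤ y1 →
    ‖(HZ x' y' - HX x' y') - (HZ x y - HX x y)‖ ≤ C * (n : ℝ) ^ (-(1 / 3) - α) := by
  obtain ⟨C0, hC0, hrect⟩ := dispG_rect hAP
  obtain ⟨C1, α, hC1, hα, hbad⟩ := cnr_bad
  refine ⟨α, hα, ?_⟩
  intro η hη
  set N : ℕ := ⌈2 / (η * η)⌉₊ with hN
  refine ⟨C0 * (N + 1) * (C1 * (32 / η) ^ (1 + α)) * η ^ (2 / 3 : ℝ), by positivity,
    ⌈2560 / η⌉₊, ?_⟩
  intro n hn D O E1 W1 E2 W2 S hE1 hW1 hd1 hE2 hW2 hd2 σ τ P Q L xa xb ya yb hc hL hS hSr hEE hWW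
    hroot x0 x1 y0 y1 hR1 hR2 hx hy HX HZ hX hZ x y x' y' a1 a2 a3 a4 b1 b2 b3 b4
  have hn1 : 2560 / η ≤ (n : ℝ) := (Nat.le_ceil _).trans (by exact_mod_cast hn)
  have hηn : 2560 ≤ η * n := by
    rw [div_le_iff₀ hη] at hn1
    linarith
  have hn0 : (0 : ℝ) < n := by
    by_contra h
    have : (n : ℝ) = 0 := le_antisymm (not_lt.1 h) (by positivity)
    rw [this] at hηn
    linarith
  set m : ℕ := ⌊η * n⌋₊ with hmd
  have hηR : 0 ≤ η * n := by positivity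
  have hmle : (m : ℝ) ≤ η * n := Nat.floor_le hηR
  have hmlt : η * n < m + 1 := Nat.lt_floor_add_one _
  have hm : 2560 ≤ m := by
    refine Nat.le_floor ?_
    push_cast
    exact hηn
  have hmhalf : η * n / 2 ≤ m := by
    have : (2560 : ℝ) ≤ m := by exact_mod_cast hm
    linarith
  have hmL : (m : ℤ) ≤ L := by
    have : (m : ℝ) ≤ L := hmle.trans hL
    exact_mod_cast this
  set r : ℕ := m / 8 with hr
  have cvt : ∀ {u v : ℤ}, (u : ℝ) + η * n ≤ v → u + m ≤ v := by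
    intro u v h
    have : (u : ℝ) + m ≤ v := by linarith
    exact_mod_cast this
  have hroot' : Far (ctr σ τ P Q) (r + 2) (vx O.c0) := by
    have h1 : (tv (vx O.c0)).1 + (m : ℤ) ≤ (tv (ctr σ τ P Q)).1 ∨ (tv (ctr σ τ P Q)).1 + (m : ℤ) ≤ (tv (vx O.c0)).1 ∨
      (tv (vx O.c0)).2 + (m : ℤ) ≤ (tv (ctr σ τ P Q)).2 ∨
      (tv (ctr σ τ P Q)).2 + (m : ℤ) ≤ (tv (vx O.c0)).2 := by
      rcases hroot with h | h | h | h
      · exact Or.inl (cvt h)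
      · exact Or.inr (Or.inl (cvt h))
      · exact Or.inr (Or.inr (Or.inl (cvt h)))
      · exact Or.inr (Or.inr (Or.inr (cvt h)))
    unfold Far
    rw [le_abs, le_abs]
    unfold tv at h1
    simp only at h1
    clear cvt hroot hSr
    omega
  have hdW : Disjoint (E1 ∪ S) (od (W1 \ S ∪ O.Wo)) := by
    rw [disjoint_left]
    intro l hl hl'
    rcases mem_union.1 (od_sub hl') with h | h
    · obtain ⟨h1, h2⟩ := mem_sdiff.1 h
      rcases mem_union.1 hl with h3 | h3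
      · exact disjoint_left.1 hd1 h3 h1
      · exact h2 h3
    · exact GB_not_Wo O (union_subset hE1 hS hl) h
  obtain ⟨Bad, hB, hPr⟩ := hbad σ τ _ _ P Q L xa xb ya yb hc hdW
    (fun e he => odd_GB (union_subset hE1 hS he)) r (by omega) (by omega)
  obtain ⟨i1, i2, i3, i4, i5, i6, i7, i8, -⟩ := hc.info
  have hSp : S ⊆ BR (ctr σ τ P Q) ((20 : ℕ) : ℤ) := by
    intro e he
    obtain ⟨u, v, rfl⟩ : ∃ u v, e = lt (u, v) :=
      ⟨(tt e).1, (tt e).2, (lt_tt (odd_GB (hS he))).symm⟩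
    rw [lt_rf (σ := σ) (τ := τ)] at he ⊢
    obtain ⟨j1, j2, j3, j4⟩ := hSr _ _ he
    exact sq_BR (by omega) (by omega) (by omega) (by omega)
  have DG := dispG_of (hE1 := hE1) (hW1 := hW1) (hd1 := hd1) (hE2 := hE2) (hW2 := hW2) (hd2 := hd2)
    hS hSp hEE hWW hroot' hB hPr (by omega)
  have hcov : ∀ {z : ℤ}, (z : ℝ) ≤ n / η → z ≤ (N : ℤ) * m := by
    intro z hz
    have h1 : (n : ℝ) / η ≤ (N : ℝ) * m := by
      have h2 : 2 / (η * η) ≤ (N : ℝ) := Nat.le_ceil _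
      calc (n : ℝ) / η = 2 / (η * η) * (η * n / 2) := by field_simp
        _ ≤ N * m := mul_le_mul h2 hmhalf (by positivity) (by positivity)
    have : (z : ℝ) ≤ (N : ℝ) * m := hz.trans h1
    exact_mod_cast this
  have key := hrect _ _ _ _ _ _ _ _ _ _ _ DG x0 x1 y0 y1 m N hR1 hR2 (by omega) (by omega)
    (hcov hx) (hcov hy) (hc.pos (by omega) (hR1.trans subset_union_left)) HX HZ hX hZ x y x' y'
    (cvt a1) (by have := cvt a2; omega) (cvt a3) (by have := cvt a4; omega)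
    (cvt b1) (by have := cvt b2; omega) (cvt b3) (by have := cvt b4; omega)
  refine key.trans ?_
  have hr1 : η * n / 32 ≤ r := by
    have h1 : (m : ℝ) < 8 * r + 8 := by
      have : m < 8 * r + 8 := by omega
      exact_mod_cast this
    have h2 : (2560 : ℝ) ≤ m := by exact_mod_cast hm
    linarith
  have hr2 : (1 : ℝ) / r ≤ 32 / η * (1 / n) := by
    have h0 : 0 < η * n / 32 := by positivity
    calc (1 : ℝ) / r ≤ 1 / (η * n / 32) := one_div_le_one_div_of_le h0 hr1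
      _ = 32 / η * (1 / n) := by field_simp
  have e1 : ((1 : ℝ) / r) ^ (1 + α) ≤ (32 / η) ^ (1 + α) * (n : ℝ) ^ (-(1 + α)) := by
    calc ((1 : ℝ) / r) ^ (1 + α) ≤ (32 / η * (1 / n)) ^ (1 + α) :=
          Real.rpow_le_rpow (by positivity) hr2 (by linarith)
      _ = (32 / η) ^ (1 + α) * (n : ℝ) ^ (-(1 + α)) := by
          rw [Real.mul_rpow (by positivity) (by positivity), Real.rpow_neg (by positivity),
            one_div, Real.inv_rpow (by positivity)]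
  have e2 : (m : ℝ) ^ (2 / 3 : ℝ) ≤ η ^ (2 / 3 : ℝ) * (n : ℝ) ^ (2 / 3 : ℝ) := by
    rw [← Real.mul_rpow hη.le hn0.le]
    exact Real.rpow_le_rpow (by positivity) hmle (by norm_num)
  calc C0 * (N + 1) * (C1 * ((1 : ℝ) / r) ^ (1 + α)) * (m : ℝ) ^ (2 / 3 : ℝ)
      ≤ C0 * (N + 1) * (C1 * ((32 / η) ^ (1 + α) * (n : ℝ) ^ (-(1 + α)))) *
          (η ^ (2 / 3 : ℝ) * (n : ℝ) ^ (2 / 3 : ℝ)) := by
        refine mul_le_mul ?_ e2 (by positivity) (by positivity)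
        refine mul_le_mul_of_nonneg_left ?_ (by positivity)
        exact mul_le_mul_of_nonneg_left e1 hC1.le
    _ = C0 * (N + 1) * (C1 * (32 / η) ^ (1 + α)) * η ^ (2 / 3 : ℝ) *
          ((n : ℝ) ^ (-(1 + α)) * (n : ℝ) ^ (2 / 3 : ℝ)) := by ring
    _ = C0 * (N + 1) * (C1 * (32 / η) ^ (1 + α)) * η ^ (2 / 3 : ℝ) *
          (n : ℝ) ^ (-(1 / 3) - α) := by
        rw [← Real.rpow_add hn0]
        congr 2
        ring

end Pool.Agent.H14.Win
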