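import Mathlib
import Pool.Agent.H14.Win.LocN
import Pool.Agent.H14.Win.Step

set_option autoImplicit false
open Finset

/-! # Natural windows look like corners

`LocV`, `LocX` : convex and reflex corners of the natural window of the world `p` pushed by `s`, after the
reflection `σ`, `τ`. `SQ` : the small rectangle at the corner, without the outermost frame of the large box;
`SL` : its labels. `LocV.cnr`, `LocX.cnr` : labels which are natural outside of the small rectangle. -/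

namespace Pool.Agent.H14.Win

open Pool.Agent.H46.Sp (Win)
open Pool.Agent.H33.Q1 (lt tt tv tf lt_inj tt_lt lt_odd lt_tt)
open Pool.Agent.H14.R45 (od od_sub lt_mem_od)
open Pool.Agent.H74.Win (PT EP EP_iff natc sh sh_false sh_true sh_cases sh_nonneg sh_le OutB GB InB TB mem_TB
  TB_sub mem_GB)
open Pool.Agent.H44.FM.WG (Gr)
open Pool.Agent.H44.FM.WG.Gr

variable {D : Win} {s : Finset Gr} {g : Gr} {p : Bool} {cx c M x y Y α β ys : ℤ} {cv ch cc σ τ : Bool}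

/-- a convex corner -/
structure LocV (D : Win) (p : Bool) (s : Finset Gr) (σ τ : Bool) (cx c M α β ys : ℤ) (cv ch : Bool) :
    Prop where
  M0 : 60 ≤ M
  a0 : 0 ≤ α
  a1 : α ≤ 1
  b0 : 0 ≤ β
  b1 : β ≤ 1
  bx : (σ = true ∧ D.a (D.yP - 1) ≤ cx ∧ cx + M ≤ D.b D.yQ) ∨
    (σ = false ∧ D.a (D.yP - 1) + M ≤ cx ∧ cx ≤ D.b D.yQ)
  bt : (τ = true ∧ 0 ≤ c ∧ c + M ≤ D.h ∧ ys = c - 1) ∨ (τ = false ∧ M ≤ c ∧ c ≤ D.h ∧ ys = -c)
  E : ∀ x y, Rg cx c (M - 2) (rf σ x) (rf τ y) → ¬ Nr cx c (rf σ x) (rf τ y + sh p) →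
    (EP D s (rf σ x) (rf τ y + sh p) ↔ sn σ cx - α ≤ x ∧ sn τ (c - sh p) - β ≤ y)
  C : ∀ x y, Rg cx c (M - 2) (rf σ x) (rf τ y) → ¬ PT D (rf σ x) (rf τ y + sh p) →
    natc D p (rf σ x) (rf τ y) = if x < sn σ cx ∧ ys ≤ y then cv else ch

/-- a reflex corner -/
structure LocX (D : Win) (p : Bool) (s : Finset Gr) (σ τ : Bool) (cx c M α β : ℤ) (cc : Bool) :
    Prop where
  M0 : 60 ≤ M
  a0 : 0 ≤ α
  a1 : α ≤ 1
  b0 : 0 ≤ β
  b1 : β ≤ 1
  bx : D.a (D.yP - 1) + M ≤ cx ∧ cx + M ≤ D.b D.yQ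
  bt : M ≤ c ∧ c + M ≤ D.h
  E : ∀ x y, Rg cx c (M - 2) (rf σ x) (rf τ y) → ¬ Nr cx c (rf σ x) (rf τ y + sh p) →
    (EP D s (rf σ x) (rf τ y + sh p) ↔ sn σ cx - α ≤ x ∨ sn τ (c - sh p) - β ≤ y)
  C : ∀ x y, Rg cx c (M - 2) (rf σ x) (rf τ y) → ¬ PT D (rf σ x) (rf τ y + sh p) →
    natc D p (rf σ x) (rf τ y) = cc

lemma Rg_sh (h : Rg cx c (M - 2) x y) : Rg cx c M x (y + sh p) ∧ Rg cx c M x y := by
  have h1 := sh_nonneg p
  have h2 := sh_le p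
  unfold Rg at *
  omega

section

open Pool.Agent.H46.Sp.Win (a_min b_max)

lemma LNE.loc (h : LNE D cx c M g cv ch) (hM : 60 ≤ M) :
    LocV D p s true true cx c M (al s g) (al s fo) (c - 1) cv ch where
  M0 := hM
  a0 := al_01.1
  a1 := al_01.2
  b0 := al_01.1
  b1 := al_01.2
  bx := by
    have h1 := h.up c le_rfl (by omega)
    have h2 := a_min (D := D) h.c0 h1.1
    have h3 := b_max (D := D) h.c0 h1.1
    left
    exact ⟨rfl, by omega, by omega⟩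
  bt := by
    have h1 := h.cP
    have h2 := D.P1
    left
    exact ⟨rfl, h.c0, by omega, rfl⟩
  E := by
    intro x y hr hn
    simp only [rf_true, sn_true] at hr hn ⊢
    rw [h.E (Rg_sh hr).1 hn]
    omega
  C := by
    intro x y hr hP
    simp only [rf_true, sn_true] at hr hP ⊢
    exact (h.C (Rg_sh (p := p) hr).2 hP).trans (if_congr (by omega) rfl rfl)

lemma LSE.loc (h : LSE D cx c M g cv ch) (hM : 60 ≤ M) :
    LocV D p s true false cx c M (al s g) (al s ce) (-c) cv ch where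
  M0 := hM
  a0 := al_01.1
  a1 := al_01.2
  b0 := al_01.1
  b1 := al_01.2
  bx := by
    have c0 := h.c0
    have h1 := h.dn (c - 1) (by omega) (by omega)
    have h2 := a_min (D := D) h1.1 (by omega)
    have h3 := b_max (D := D) h1.1 (by omega)
    left
    exact ⟨rfl, by omega, by omega⟩
  bt := by
    have h1 := h.dn (c - M) le_rfl (by omega)
    right
    exact ⟨rfl, by omega, h.c0, rfl⟩
  E := by
    intro x y hr hn
    simp only [rf_true, sn_true, rf_false, sn_false] at hr hn ⊢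
    rw [h.E (Rg_sh hr).1 hn]
    omega
  C := by
    intro x y hr hP
    simp only [rf_true, sn_true, rf_false] at hr hP ⊢
    exact (h.C (Rg_sh (p := p) hr).2 hP).trans (if_congr (by omega) rfl rfl)

lemma RNW.loc (h : RNW D cx c M g cv ch) (hM : 60 ≤ M) :
    LocV D p s false true cx c M (al s g) (al s fo) (c - 1) cv ch where
  M0 := hM
  a0 := al_01.1
  a1 := al_01.2
  b0 := al_01.1
  b1 := al_01.2
  bx := by
    have h1 := h.up c le_rfl (by omega)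
    have h2 := a_min (D := D) h.c0 h1.1
    have h3 := b_max (D := D) h.c0 h1.1
    right
    exact ⟨rfl, by omega, by omega⟩
  bt := by
    have h1 := h.up (c + M) (by omega) le_rfl
    left
    exact ⟨rfl, h.c0, by omega, rfl⟩
  E := by
    intro x y hr hn
    simp only [rf_true, sn_true, rf_false, sn_false] at hr hn ⊢
    rw [h.E (Rg_sh hr).1 hn]
    omega
  C := by
    intro x y hr hP
    simp only [rf_true, rf_false, sn_false] at hr hP ⊢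
    exact (h.C (Rg_sh (p := p) hr).2 hP).trans (if_congr (by omega) rfl rfl)

lemma RSW.loc (h : RSW D cx c M g cv ch) (hM : 60 ≤ M) :
    LocV D p s false false cx c M (al s g) (al s ce) (-c) cv ch where
  M0 := hM
  a0 := al_01.1
  a1 := al_01.2
  b0 := al_01.1
  b1 := al_01.2
  bx := by
    have c0 := h.c0
    have h1 := h.dn (c - 1) (by omega) (by omega)
    have h2 := a_min (D := D) h1.1 (by omega)
    have h3 := b_max (D := D) h1.1 (by omega)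
    right
    exact ⟨rfl, by omega, by omega⟩
  bt := by
    have h1 := h.dn (c - M) le_rfl (by omega)
    right
    exact ⟨rfl, by omega, h.c0, rfl⟩
  E := by
    intro x y hr hn
    simp only [rf_false, sn_false] at hr hn ⊢
    rw [h.E (Rg_sh hr).1 hn]
    omega
  C := by
    intro x y hr hP
    simp only [rf_false, sn_false] at hr hP ⊢
    exact (h.C (Rg_sh (p := p) hr).2 hP).trans (if_congr (by omega) rfl rfl)

lemma LSW.loc (h : LSW D cx c M g cc) (hM : 60 ≤ M) :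
    LocX D p s true true cx c M (al s g) (al s fo) cc where
  M0 := hM
  a0 := al_01.1
  a1 := al_01.2
  b0 := al_01.1
  b1 := al_01.2
  bx := by
    have h0 := h.c0
    have h1 := h.up c le_rfl (by omega)
    have h2 := a_min (D := D) (y := c) (by omega) h1.1
    have h3 := b_max (D := D) (y := c) (by omega) h1.1
    exact ⟨by omega, by omega⟩
  bt := by
    have h0 := h.c0
    have h1 := h.cP
    have h2 := D.P1
    exact ⟨by omega, by omega⟩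
  E := by
    intro x y hr hn
    simp only [rf_true, sn_true] at hr hn ⊢
    rw [h.E (Rg_sh hr).1 hn]
    omega
  C := by
    intro x y hr hP
    simp only [rf_true] at hr hP ⊢
    exact h.C (Rg_sh (p := p) hr).2 hP

lemma LNW.loc (h : LNW D cx c M g cc) (hM : 60 ≤ M) :
    LocX D p s true false cx c M (al s g) (al s ce) cc where
  M0 := hM
  a0 := al_01.1
  a1 := al_01.2
  b0 := al_01.1
  b1 := al_01.2
  bx := by
    have c0 := h.c0
    have h1 := h.dn (c - 1) (by omega) (by omega)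
    have h2 := a_min (D := D) h1.1 (by omega)
    have h3 := b_max (D := D) h1.1 (by omega)
    exact ⟨by omega, by omega⟩
  bt := by
    have h1 := h.dn (c - M) le_rfl (by omega)
    have h0 := h.c0
    exact ⟨by omega, by omega⟩
  E := by
    intro x y hr hn
    simp only [rf_true, sn_true, rf_false, sn_false] at hr hn ⊢
    rw [h.E (Rg_sh hr).1 hn]
    omega
  C := by
    intro x y hr hP
    simp only [rf_true, rf_false] at hr hP ⊢
    exact h.C (Rg_sh (p := p) hr).2 hP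

lemma RSE.loc (h : RSE D cx c M g cc) (hM : 60 ≤ M) :
    LocX D p s false true cx c M (al s g) (al s fo) cc where
  M0 := hM
  a0 := al_01.1
  a1 := al_01.2
  b0 := al_01.1
  b1 := al_01.2
  bx := by
    have h0 := h.c0
    have h1 := h.up c le_rfl (by omega)
    have h2 := a_min (D := D) (y := c) (by omega) h1.1
    have h3 := b_max (D := D) (y := c) (by omega) h1.1
    exact ⟨by omega, by omega⟩
  bt := by
    have h0 := h.c0
    have h1 := h.up (c + M) (by omega) le_rfl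
    exact ⟨by omega, by omega⟩
  E := by
    intro x y hr hn
    simp only [rf_true, sn_true, rf_false, sn_false] at hr hn ⊢
    rw [h.E (Rg_sh hr).1 hn]
    omega
  C := by
    intro x y hr hP
    simp only [rf_true, rf_false] at hr hP ⊢
    exact h.C (Rg_sh (p := p) hr).2 hP

lemma RNE.loc (h : RNE D cx c M g cc) (hM : 60 ≤ M) :
    LocX D p s false false cx c M (al s g) (al s ce) cc where
  M0 := hM
  a0 := al_01.1
  a1 := al_01.2
  b0 := al_01.1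
  b1 := al_01.2
  bx := by
    have c0 := h.c0
    have h1 := h.dn (c - 1) (by omega) (by omega)
    have h2 := a_min (D := D) h1.1 (by omega)
    have h3 := b_max (D := D) h1.1 (by omega)
    exact ⟨by omega, by omega⟩
  bt := by
    have h1 := h.dn (c - M) le_rfl (by omega)
    have h0 := h.c0
    exact ⟨by omega, by omega⟩
  E := by
    intro x y hr hn
    simp only [rf_false, sn_false] at hr hn ⊢
    rw [h.E (Rg_sh hr).1 hn]
    omega
  C := by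
    intro x y hr hP
    simp only [rf_false] at hr hP ⊢
    exact h.C (Rg_sh (p := p) hr).2 hP

end

/-! ### The small rectangle -/

/-- the small rectangle at a corner -/
def SQ (D : Win) (cx c x y : ℤ) : Prop :=
  cx - 12 ≤ x ∧ x ≤ cx + 12 ∧ c - 12 ≤ y ∧ y ≤ c + 12 ∧
    D.a (D.yP - 1) ≤ x + 3 ∧ x ≤ D.b D.yQ + 2 ∧ -3 ≤ y ∧ y ≤ D.h + 1

lemma SQ.inB (h : SQ D cx c x y) : InB D x y := by
  unfold SQ at h; unfold InB; omega

/-- the labels of the small rectangle -/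
noncomputable def SL (D : Win) (cx c : ℤ) : Finset (ℤ × ℤ) := TB D (SQ D cx c)

lemma mem_SL : lt (x, y) ∈ SL D cx c ↔ SQ D cx c x y := by
  unfold SL
  rw [mem_TB]
  exact ⟨fun h => h.2, fun h => ⟨h.inB, h⟩⟩

lemma SL_sub : SL D cx c ⊆ GB D := TB_sub

variable {E W : Finset (ℤ × ℤ)}

/-- labels which are natural near a corner, outside of the small rectangle -/
structure NatC (D : Win) (p : Bool) (s : Finset Gr) (cx c M : ℤ) (E W : Finset (ℤ × ℤ)) : Prop where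
  E : ∀ x y, cx - M ≤ x → x ≤ cx + M → c - M ≤ y → y ≤ c + M → ¬ SQ D cx c x y →
    (lt (x, y) ∈ E ↔ EP D s x (y + sh p))
  W : ∀ x y, cx - M ≤ x → x ≤ cx + M → c - M ≤ y → y ≤ c + M → ¬ SQ D cx c x y → InB D x y →
    ¬ EP D s x (y + sh p) → (lt (x, y) ∈ W ↔ natc D p x y = true)

/-- the columns of the small rectangle, convex corners -/
lemma LocV.xr (h : LocV D p s σ τ cx c M α β ys cv ch) : ∃ xa xb : ℤ,
    (sn σ cx - α - 16 ≤ xa ∧ xa ≤ sn σ cx - α - 1 ∧ sn σ cx - α + 2 ≤ xb ∧ xb ≤ sn σ cx - α + 16) ∧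
    (∀ x, (xa ≤ x ∧ x ≤ xb) ↔ (cx - 12 ≤ rf σ x ∧ rf σ x ≤ cx + 12 ∧ D.a (D.yP - 1) ≤ rf σ x + 3 ∧
      rf σ x ≤ D.b D.yQ + 2)) ∧
    (∀ x, xa ≤ x + 1 → x ≤ sn σ cx + M - 6 → D.a (D.yP - 1) ≤ rf σ x + 4 ∧ rf σ x ≤ D.b D.yQ + 3) := by
  have h0 := h.M0
  have h1 := h.a0
  have h2 := h.a1
  rcases h.bx with ⟨rfl, h3, h4⟩ | ⟨rfl, h3, h4⟩
  · refine ⟨max (cx - 12) (D.a (D.yP - 1) - 3), cx + 12, ?_, ?_, ?_⟩
    · rw [sn_true]; omega
    · intro x; rw [rf_true]; omega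
    · intro x; rw [rf_true, sn_true]; omega
  · refine ⟨max (-cx - 13) (-D.b D.yQ - 3), -cx + 11, ?_, ?_, ?_⟩
    · rw [sn_false]; omega
    · intro x; rw [rf_false]; omega
    · intro x; rw [rf_false, sn_false]; omega

/-- the rows of the small rectangle, convex corners -/
lemma LocV.yr (h : LocV D p s σ τ cx c M α β ys cv ch) : ∃ ya yb : ℤ,
    (sn τ (c - sh p) - β - 16 ≤ ya ∧ ya ≤ sn τ (c - sh p) - β - 1 ∧ sn τ (c - sh p) - β + 2 ≤ yb ∧
      yb ≤ sn τ (c - sh p) - β + 16) ∧ (ya ≤ ys ∧ ys ≤ yb) ∧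
    (∀ y, (ya ≤ y ∧ y ≤ yb) ↔ (c - 12 ≤ rf τ y ∧ rf τ y ≤ c + 12 ∧ -3 ≤ rf τ y ∧ rf τ y ≤ D.h + 1)) ∧
    (∀ y, ya ≤ y + 1 → y ≤ sn τ (c - sh p) + M - 6 → -4 ≤ rf τ y ∧ rf τ y ≤ D.h + 2) := by
  have h0 := h.M0
  have h1 := h.b0
  have h2 := h.b1
  have k1 := sh_nonneg p
  have k2 := sh_le p
  rcases h.bt with ⟨rfl, h3, h4, h5⟩ | ⟨rfl, h3, h4, h5⟩
  · refine ⟨max (c - 12) (-3), c + 12, ?_, ?_, ?_, ?_⟩
    · rw [sn_true]; omega
    · omega
    · intro x; rw [rf_true]; omega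
    · intro x; rw [rf_true, sn_true]; omega
  · refine ⟨max (-c - 13) (-D.h - 2), -c + 11, ?_, ?_, ?_, ?_⟩
    · rw [sn_false]; omega
    · omega
    · intro x; rw [rf_false]; omega
    · intro x; rw [rf_false, sn_false]; omega

lemma rg_of (h1 : sn σ cx - M + 6 ≤ x) (h2 : x ≤ sn σ cx + M - 6) (h3 : sn τ (c - sh p) - M + 6 ≤ y)
    (h4 : y ≤ sn τ (c - sh p) + M - 6) : Rg cx c (M - 2) (rf σ x) (rf τ y) ∧
      cx - M ≤ rf σ x ∧ rf σ x ≤ cx + M ∧ c - M ≤ rf τ y ∧ rf τ y ≤ c + M := by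
  have k1 := sh_nonneg p
  have k2 := sh_le p
  unfold Rg
  cases σ <;> cases τ <;> simp only [rf_true, rf_false, sn_true, sn_false] at * <;> omega

/-- labels of the large box -/
lemma mem_odW (O : OutB D) {S : Finset (ℤ × ℤ)} (hB : InB D x y) (hS : lt (x, y) ∉ S) :
    lt (x, y) ∈ od (W \ S ∪ O.Wo) ↔ lt (x, y) ∈ W := by
  rw [lt_mem_od, mem_union, mem_sdiff]
  have : lt (x, y) ∉ O.Wo := fun h => O.far x y h hB
  tauto

theorem LocV.cnr (h : LocV D p s σ τ cx c M α β ys cv ch) (O : OutB D) (N : NatC D p s cx c M E W) :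
    ∃ xa xb ya yb, Cnr σ τ (E ∪ SL D cx c) (od (W \ SL D cx c ∪ O.Wo)) (sn σ cx - α)
      (sn τ (c - sh p) - β) (M - 10) xa xb ya yb ∧
      ∀ x y, lt (rf σ x, rf τ y) ∈ SL D cx c → xa ≤ x ∧ x ≤ xb ∧ ya ≤ y ∧ y ≤ yb := by
  obtain ⟨xa, xb, ⟨a1, a2, a3, a4⟩, aS, aB⟩ := h.xr
  obtain ⟨ya, yb, ⟨b1, b2, b3, b4⟩, ⟨s1, s2⟩, bS, bB⟩ := h.yr
  have hM := h.M0
  have α0 := h.a0
  have α1 := h.a1
  have β0 := h.b0
  have β1 := h.b1
  have k1 := sh_nonneg p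
  have k2 := sh_le p
  have hSQ : ∀ x y, SQ D cx c (rf σ x) (rf τ y) ↔ xa ≤ x ∧ x ≤ xb ∧ ya ≤ y ∧ y ≤ yb := by
    intro x y
    have e1 := aS x
    have e2 := bS y
    unfold SQ
    constructor
    · rintro ⟨u1, u2, u3, u4, u5, u6, u7, u8⟩
      obtain ⟨v1, v2⟩ := e1.2 ⟨u1, u2, u5, u6⟩
      obtain ⟨v3, v4⟩ := e2.2 ⟨u3, u4, u7, u8⟩
      exact ⟨v1, v2, v3, v4⟩
    · rintro ⟨v1, v2, v3, v4⟩
      obtain ⟨u1, u2, u5, u6⟩ := e1.1 ⟨v1, v2⟩
      obtain ⟨u3, u4, u7, u8⟩ := e2.1 ⟨v3, v4⟩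
      exact ⟨u1, u2, u3, u4, u5, u6, u7, u8⟩
  have hNr : ∀ X Y, Nr cx c X (Y + sh p) → SQ D cx c X Y := by
    intro X Y
    have e1 := h.bx
    have e2 := h.bt
    unfold Nr SQ
    omega
  -- random tiles
  have TE : ∀ x y, sn σ cx - M + 6 ≤ x → x ≤ sn σ cx + M - 6 → sn τ (c - sh p) - M + 6 ≤ y →
      y ≤ sn τ (c - sh p) + M - 6 → ¬ (xa ≤ x ∧ x ≤ xb ∧ ya ≤ y ∧ y ≤ yb) →
      (Tp σ τ (E ∪ SL D cx c) x y ↔ sn σ cx - α ≤ x ∧ sn τ (c - sh p) - β ≤ y) ∧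
      (Tp σ τ (E ∪ SL D cx c) x y ↔ EP D s (rf σ x) (rf τ y + sh p)) := by
    intro x y c1 c2 c3 c4 c5
    obtain ⟨r1, r2, r3, r4, r5⟩ := rg_of (p := p) (σ := σ) (τ := τ) c1 c2 c3 c4
    rw [← hSQ] at c5
    have e1 := N.E _ _ r2 r3 r4 r5 c5
    have e2 := h.E x y r1 (fun h => c5 (hNr _ _ h))
    have e3 : Tp σ τ (E ∪ SL D cx c) x y ↔ EP D s (rf σ x) (rf τ y + sh p) := by
      unfold Tp
      rw [mem_union, mem_SL, ← e1]
      tauto
    exact ⟨e3.trans e2, e3⟩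
  -- open tiles
  have TW : ∀ x y, sn σ cx - M + 6 ≤ x → x ≤ sn σ cx + M - 6 → sn τ (c - sh p) - M + 6 ≤ y →
      y ≤ sn τ (c - sh p) + M - 6 → ¬ (xa ≤ x ∧ x ≤ xb ∧ ya ≤ y ∧ y ≤ yb) → xa ≤ x + 1 → ya ≤ y + 1 →
      ¬ (sn σ cx - α ≤ x ∧ sn τ (c - sh p) - β ≤ y) →
      (Tp σ τ (od (W \ SL D cx c ∪ O.Wo)) x y ↔ (if x < sn σ cx ∧ ys ≤ y then cv else ch) = true) := by
    intro x y c1 c2 c3 c4 c5 c6 c7 c8
    obtain ⟨r1, r2, r3, r4, r5⟩ := rg_of (p := p) (σ := σ) (τ := τ) c1 c2 c3 c4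
    have e0 := TE x y c1 c2 c3 c4 c5
    have hEP : ¬ EP D s (rf σ x) (rf τ y + sh p) := fun h => c8 (e0.1.1 (e0.2.2 h))
    rw [← hSQ] at c5
    have g1 := aB x c6 (by omega)
    have g2 := bB y c7 (by omega)
    have hB : InB D (rf σ x) (rf τ y) := ⟨g1.1, g1.2, g2.1, g2.2⟩
    unfold Tp
    rw [mem_odW O hB (fun h => c5 (mem_SL.1 h)), N.W _ _ r2 r3 r4 r5 c5 hB hEP,
      h.C x y r1 (fun h => hEP (EP_iff.2 (Or.inl h)))]
  refine ⟨xa, xb, ya, yb, Or.inl ⟨ys, cv, ch, ?_⟩, fun x y hS => (hSQ x y).1 (mem_SL.1 hS)⟩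
  refine ⟨a1, a2, a3, a4, b1, b2, b3, b4, s1, s2, ?_, ?_, ?_, ?_⟩
  · intro x y c1 c2 c3 c4
    exact mem_union_right _ (mem_SL.2 ((hSQ x y).2 ⟨c1, c2, c3, c4⟩))
  · intro x y c1 c2 c3 c4
    by_cases hs : xa ≤ x ∧ x ≤ xb ∧ ya ≤ y ∧ y ≤ yb
    · exact mem_union_right _ (mem_SL.2 ((hSQ x y).2 hs))
    · exact (TE x y (by omega) (by omega) (by omega) (by omega) hs).1.2 ⟨c3, c4⟩
  · intro x y c1 c2 c3 c4 c5 c6
    have hs : ¬ (xa ≤ x ∧ x ≤ xb ∧ ya ≤ y ∧ y ≤ yb) := by omega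
    have e1 := TE x y (by omega) (by omega) (by omega) (by omega) hs
    have e2 := TW x y (by omega) (by omega) (by omega) (by omega) hs c3 c4 (by omega)
    refine ⟨fun h => absurd (e1.1.1 h) (by omega), e2.trans ?_⟩
    rw [if_congr (show (x < sn σ cx ∧ ys ≤ y ↔ x < sn σ cx - α ∧ ys ≤ y) by
      clear e1 e2 TE TW; omega) rfl rfl]
  · intro x y c1 c2 c3 c4 c5 h
    have hs : ¬ (xa ≤ x ∧ x ≤ xb ∧ ya ≤ y ∧ y ≤ yb) := by omega
    have e1 := (TE x y (by omega) (by omega) (by omega) (by omega) hs).1.1 h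
    omega

/-- the columns of the small rectangle, reflex corners -/
lemma LocX.xr (h : LocX D p s σ τ cx c M α β cc) : ∃ xa xb : ℤ,
    (sn σ cx - α - 16 ≤ xa ∧ xa ≤ sn σ cx - α - 2 ∧ sn σ cx - α + 2 ≤ xb ∧ xb ≤ sn σ cx - α + 16) ∧
    (∀ x, (xa ≤ x ∧ x ≤ xb) ↔ (cx - 12 ≤ rf σ x ∧ rf σ x ≤ cx + 12 ∧ D.a (D.yP - 1) ≤ rf σ x + 3 ∧
      rf σ x ≤ D.b D.yQ + 2)) ∧
    (∀ x, sn σ cx - M + 6 ≤ x → x ≤ sn σ cx + M - 6 → D.a (D.yP - 1) ≤ rf σ x + 4 ∧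
      rf σ x ≤ D.b D.yQ + 3) := by
  have h0 := h.M0
  have h1 := h.a0
  have h2 := h.a1
  obtain ⟨h3, h4⟩ := h.bx
  cases σ
  · refine ⟨-cx - 13, -cx + 11, ?_, ?_, ?_⟩
    · rw [sn_false]; omega
    · intro x; rw [rf_false]; omega
    · intro x; rw [rf_false, sn_false]; omega
  · refine ⟨cx - 12, cx + 12, ?_, ?_, ?_⟩
    · rw [sn_true]; omega
    · intro x; rw [rf_true]; omega
    · intro x; rw [rf_true, sn_true]; omega

/-- the rows of the small rectangle, reflex corners -/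
lemma LocX.yr (h : LocX D p s σ τ cx c M α β cc) : ∃ ya yb : ℤ,
    (sn τ (c - sh p) - β - 16 ≤ ya ∧ ya ≤ sn τ (c - sh p) - β - 2 ∧ sn τ (c - sh p) - β + 2 ≤ yb ∧
      yb ≤ sn τ (c - sh p) - β + 16) ∧
    (∀ y, (ya ≤ y ∧ y ≤ yb) ↔ (c - 12 ≤ rf τ y ∧ rf τ y ≤ c + 12 ∧ -3 ≤ rf τ y ∧ rf τ y ≤ D.h + 1)) ∧
    (∀ y, sn τ (c - sh p) - M + 6 ≤ y → y ≤ sn τ (c - sh p) + M - 6 → -4 ≤ rf τ y ∧
      rf τ y ≤ D.h + 2) := by
  have h0 := h.M0
  have h1 := h.b0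
  have h2 := h.b1
  have k1 := sh_nonneg p
  have k2 := sh_le p
  obtain ⟨h3, h4⟩ := h.bt
  cases τ
  · refine ⟨-c - 13, -c + 11, ?_, ?_, ?_⟩
    · rw [sn_false]; omega
    · intro x; rw [rf_false]; omega
    · intro x; rw [rf_false, sn_false]; omega
  · refine ⟨c - 12, c + 12, ?_, ?_, ?_⟩
    · rw [sn_true]; omega
    · intro x; rw [rf_true]; omega
    · intro x; rw [rf_true, sn_true]; omega

theorem LocX.cnr (h : LocX D p s σ τ cx c M α β cc) (O : OutB D) (N : NatC D p s cx c M E W) :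
    ∃ xa xb ya yb, Cnr σ τ (E ∪ SL D cx c) (od (W \ SL D cx c ∪ O.Wo)) (sn σ cx - α)
      (sn τ (c - sh p) - β) (M - 10) xa xb ya yb ∧
      ∀ x y, lt (rf σ x, rf τ y) ∈ SL D cx c → xa ≤ x ∧ x ≤ xb ∧ ya ≤ y ∧ y ≤ yb := by
  obtain ⟨xa, xb, ⟨a1, a2, a3, a4⟩, aS, aB⟩ := h.xr
  obtain ⟨ya, yb, ⟨b1, b2, b3, b4⟩, bS, bB⟩ := h.yr
  have hM := h.M0
  have α0 := h.a0
  have α1 := h.a1
  have β0 := h.b0
  have β1 := h.b1
  have k1 := sh_nonneg p
  have k2 := sh_le p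
  have hSQ : ∀ x y, SQ D cx c (rf σ x) (rf τ y) ↔ xa ≤ x ∧ x ≤ xb ∧ ya ≤ y ∧ y ≤ yb := by
    intro x y
    have e1 := aS x
    have e2 := bS y
    unfold SQ
    constructor
    · rintro ⟨u1, u2, u3, u4, u5, u6, u7, u8⟩
      obtain ⟨v1, v2⟩ := e1.2 ⟨u1, u2, u5, u6⟩
      obtain ⟨v3, v4⟩ := e2.2 ⟨u3, u4, u7, u8⟩
      exact ⟨v1, v2, v3, v4⟩
    · rintro ⟨v1, v2, v3, v4⟩
      obtain ⟨u1, u2, u5, u6⟩ := e1.1 ⟨v1, v2⟩
      obtain ⟨u3, u4, u7, u8⟩ := e2.1 ⟨v3, v4⟩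
      exact ⟨u1, u2, u3, u4, u5, u6, u7, u8⟩
  have hNr : ∀ X Y, Nr cx c X (Y + sh p) → SQ D cx c X Y := by
    intro X Y
    have e1 := h.bx
    have e2 := h.bt
    unfold Nr SQ
    omega
  -- random tiles
  have TE : ∀ x y, sn σ cx - M + 6 ≤ x → x ≤ sn σ cx + M - 6 → sn τ (c - sh p) - M + 6 ≤ y →
      y ≤ sn τ (c - sh p) + M - 6 → ¬ (xa ≤ x ∧ x ≤ xb ∧ ya ≤ y ∧ y ≤ yb) →
      (Tp σ τ (E ∪ SL D cx c) x y ↔ sn σ cx - α ≤ x ∨ sn τ (c - sh p) - β ≤ y) ∧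
      (Tp σ τ (E ∪ SL D cx c) x y ↔ EP D s (rf σ x) (rf τ y + sh p)) := by
    intro x y c1 c2 c3 c4 c5
    obtain ⟨r1, r2, r3, r4, r5⟩ := rg_of (p := p) (σ := σ) (τ := τ) c1 c2 c3 c4
    rw [← hSQ] at c5
    have e1 := N.E _ _ r2 r3 r4 r5 c5
    have e2 := h.E x y r1 (fun h => c5 (hNr _ _ h))
    have e3 : Tp σ τ (E ∪ SL D cx c) x y ↔ EP D s (rf σ x) (rf τ y + sh p) := by
      unfold Tp
      rw [mem_union, mem_SL, ← e1]
      tauto
    exact ⟨e3.trans e2, e3⟩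
  refine ⟨xa, xb, ya, yb, Or.inr ⟨cc, ?_⟩, fun x y hS => (hSQ x y).1 (mem_SL.1 hS)⟩
  refine ⟨a1, a2, a3, a4, b1, b2, b3, b4, ?_, ?_, ?_⟩
  · intro x y c1 c2 c3 c4
    exact mem_union_right _ (mem_SL.2 ((hSQ x y).2 ⟨c1, c2, c3, c4⟩))
  · intro x y c1 c2 c3 c4 c5
    by_cases hs : xa ≤ x ∧ x ≤ xb ∧ ya ≤ y ∧ y ≤ yb
    · exact mem_union_right _ (mem_SL.2 ((hSQ x y).2 hs))
    · exact (TE x y (by omega) (by omega) (by omega) (by omega) hs).1.2 c5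
  · intro x y c1 c2 c3 c4 c5
    have hs : ¬ (xa ≤ x ∧ x ≤ xb ∧ ya ≤ y ∧ y ≤ yb) := by omega
    have e0 := TE x y (by omega) (by omega) (by omega) (by omega) hs
    have hE : ¬ Tp σ τ (E ∪ SL D cx c) x y := fun h => absurd (e0.1.1 h) (by omega)
    refine ⟨hE, ?_⟩
    obtain ⟨r1, r2, r3, r4, r5⟩ := rg_of (p := p) (σ := σ) (τ := τ) (cx := cx) (c := c) (M := M)
      (x := x) (y := y) (by omega) (by omega) (by omega) (by omega)
    have hEP : ¬ EP D s (rf σ x) (rf τ y + sh p) := fun h => hE (e0.2.2 h)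
    rw [← hSQ] at hs
    have g1 := aB x (by omega) (by omega)
    have g2 := bB y (by omega) (by omega)
    have hB : InB D (rf σ x) (rf τ y) := ⟨g1.1, g1.2, g2.1, g2.2⟩
    unfold Tp
    rw [mem_odW O hB (fun h => hs (mem_SL.1 h)), N.W _ _ r2 r3 r4 r5 hs hB hEP,
      h.C x y r1 (fun h => hEP (EP_iff.2 (Or.inl h)))]

end Pool.Agent.H14.Win
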