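import Mathlib
import Pool.Agent.H14.Win.LocW
import Pool.Agent.H74.Win.FlatC

set_option autoImplicit false
open Finset

/-! # The corners of a coarse window

`loc_of` : at every corner `(X, K)` of the polyomino the natural window looks like a corner (`LocV` or
`LocX`) with the centre `(n X, n K)`, up to distance `n / 2`. -/

namespace Pool.Agent.H14.Win

open Pool.Agent.H46.Sp (Win)
open Pool.Agent.H74.Win (CorL CorR mul_gap div_rng gL gR a_drop a_rise b_rise b_drop)
open Pool.Agent.H31.Sp (Coarse CoarseC)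
open Pool.Agent.H44.FM.WG (Gr)
open Pool.Agent.H44.FM.WG.Gr

variable {D : Win} {n H : ℤ} {A B : ℤ → ℤ} {YP YQ : ℤ} {CL CR : ℤ → Bool} {X K Z y M : ℤ}

/-- rows above the line `n K` -/
lemma rowU (C : Coarse D n H A B) (hK : 0 ≤ K) (hKH : K < H) (h1 : n * K ≤ Z)
    (h2 : Z + 1 < n * K + n) : 0 ≤ Z ∧ Z < D.h ∧
    (D.a Z = n * A K ∨ (D.a Z = n * A K - 1 ∧ Z = n * K ∧ 0 < K ∧ A (K - 1) < A K)) ∧
    (D.b Z = n * B K ∨ (D.b Z = n * B K + 1 ∧ Z = n * K ∧ 0 < K ∧ B K < B (K - 1))) := by
  have hn : 0 < n := C.pos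
  obtain ⟨e1, e2⟩ := div_rng (k := K) hn h1 (by omega)
  have g1 : 0 ≤ n * K := mul_nonneg hn.le hK
  have g2 := mul_gap hn hKH
  have hh := C.hh
  have c1 : 0 ≤ Z := by omega
  have c2 : Z < D.h := by omega
  have ha := C.a Z c1 c2
  have hb := C.b Z c1 c2
  rw [e1, e2] at ha hb
  refine ⟨c1, c2, ?_, ?_⟩
  · rcases ha with ha | ⟨ha, ⟨h3, -⟩ | ⟨h3, h4⟩⟩
    · exact Or.inl ha
    · omega
    · exact Or.inr ⟨ha, by omega, h4⟩
  · rcases hb with ha | ⟨ha, ⟨h3, -⟩ | ⟨h3, h4⟩⟩
    · exact Or.inl ha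
    · omega
    · exact Or.inr ⟨ha, by omega, h4⟩

/-- rows below the line `n K` -/
lemma rowD (C : Coarse D n H A B) (hK : 0 < K) (hKH : K ≤ H) (h1 : n * K < Z + n)
    (h2 : Z < n * K) : 0 ≤ Z ∧ Z < D.h ∧
    (D.a Z = n * A (K - 1) ∨ (D.a Z = n * A (K - 1) - 1 ∧ Z = n * K - 1 ∧ K < H ∧ A K < A (K - 1))) ∧
    (D.b Z = n * B (K - 1) ∨ (D.b Z = n * B (K - 1) + 1 ∧ Z = n * K - 1 ∧ K < H ∧ B (K - 1) < B K)) := by
  have hn : 0 < n := C.pos
  have e0 : n * K = n * (K - 1) + n := by ring
  obtain ⟨e1, e2⟩ := div_rng (k := K - 1) (Z := Z) hn (by omega) (by omega)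
  have g1 : 0 ≤ n * (K - 1) := mul_nonneg hn.le (by omega)
  have g2 : n * K ≤ n * H := mul_le_mul_of_nonneg_left hKH hn.le
  have hh := C.hh
  have c1 : 0 ≤ Z := by omega
  have c2 : Z < D.h := by omega
  have ha := C.a Z c1 c2
  have hb := C.b Z c1 c2
  rw [e1, e2, sub_add_cancel] at ha hb
  refine ⟨c1, c2, ?_, ?_⟩
  · rcases ha with ha | ⟨ha, ⟨h3, h4⟩ | ⟨h3, h4, -⟩⟩
    · exact Or.inl ha
    · exact Or.inr ⟨ha, by omega, h4⟩
    · omega
  · rcases hb with ha | ⟨ha, ⟨h3, h4⟩ | ⟨h3, h4, -⟩⟩
    · exact Or.inl ha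
    · exact Or.inr ⟨ha, by omega, h4⟩
    · omega

section

variable (C : CoarseC D n H A B YP YQ CL CR) (hn : 200 ≤ n)

include C hn

/-- a drop of the left boundary -/
lemma dropL (hK : 0 < K) (hKH : K < H) (h : A K < A (K - 1)) : K < YP := by
  have n0 : 0 < n := by omega
  have r0 := rowU C.toCoarse hK.le hKH (Z := n * K) le_rfl (by omega)
  have r1 := rowD C.toCoarse hK hKH.le (Z := n * K - 1) (by omega) (by omega)
  have g := mul_gap n0 h
  have := a_drop (D := D) (y := n * K - 1) (by omega) (by omega) (by rw [sub_add_cancel]; omega)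
  have e := C.yP
  by_contra hc
  have : n * YP ≤ n * K := mul_le_mul_of_nonneg_left (by omega) n0.le
  omega

/-- a rise of the left boundary -/
lemma riseL (hK : 0 < K) (hKH : K < H) (h : A (K - 1) < A K) : YP ≤ K := by
  have n0 : 0 < n := by omega
  have r0 := rowU C.toCoarse hK.le hKH (Z := n * K) le_rfl (by omega)
  have r1 := rowD C.toCoarse hK hKH.le (Z := n * K - 1) (by omega) (by omega)
  have g := mul_gap n0 h
  have := a_rise (D := D) (y := n * K - 1) (by omega) (by rw [sub_add_cancel]; omega)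
  have e := C.yP
  by_contra hc
  have := mul_gap n0 (show K < YP by omega)
  omega

/-- a rise of the right boundary -/
lemma riseR (hK : 0 < K) (hKH : K < H) (h : B (K - 1) < B K) : K ≤ YQ := by
  have n0 : 0 < n := by omega
  have r0 := rowU C.toCoarse hK.le hKH (Z := n * K) le_rfl (by omega)
  have r1 := rowD C.toCoarse hK hKH.le (Z := n * K - 1) (by omega) (by omega)
  have g := mul_gap n0 h
  have := b_rise (D := D) (y := n * K - 1) (by omega) (by rw [sub_add_cancel]; omega)
  have e := C.yQ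
  by_contra hc
  have := mul_gap n0 (show YQ < K by omega)
  omega

/-- a drop of the right boundary -/
lemma dropR (hK : 0 < K) (hKH : K < H) (h : B K < B (K - 1)) : YQ < K := by
  have n0 : 0 < n := by omega
  have r0 := rowU C.toCoarse hK.le hKH (Z := n * K) le_rfl (by omega)
  have r1 := rowD C.toCoarse hK hKH.le (Z := n * K - 1) (by omega) (by omega)
  have g := mul_gap n0 h
  have := b_drop (D := D) (y := n * K - 1) (by omega) (by rw [sub_add_cancel]; omega)
  have e := C.yQ
  by_contra hc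
  have : n * K ≤ n * YQ := mul_le_mul_of_nonneg_left (by omega) n0.le
  omega

lemma YP_pos : 0 < YP := by
  have n0 : 0 < n := by omega
  have e := C.yP
  have P0 := D.P0
  by_contra hc
  have : n * YP ≤ n * 0 := mul_le_mul_of_nonneg_left (by omega) n0.le
  rw [mul_zero] at this
  omega

lemma YP_le : YP ≤ H := by
  have n0 : 0 < n := by omega
  have e := C.yP
  have e2 := C.hh
  have P0 := D.P1
  by_contra hc
  have := mul_gap n0 (show H < YP by omega)
  omega

lemma YQ_nonneg : 0 ≤ YQ := by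
  have n0 : 0 < n := by omega
  have e := C.yQ
  have P0 := D.Q0
  by_contra hc
  have := mul_gap n0 (show YQ < 0 by omega)
  rw [mul_zero] at this
  omega

lemma YQ_lt : YQ < H := by
  have n0 : 0 < n := by omega
  have e := C.yQ
  have e2 := C.hh
  have P0 := D.Q1
  by_contra hc
  have : n * H ≤ n * YQ := mul_le_mul_of_nonneg_left (by omega) n0.le
  omega

/-- `(A K, K)`, the bottom or a drop -/
lemma lne (hK : 0 ≤ K) (hKH : K < H) (h : 0 < K → A K < A (K - 1)) :
    LNE D (n * A K) (n * K) (n / 2) ll (CL K) (if K = 0 then D.cb else CL (K - 1)) := by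
  have n0 : 0 < n := by omega
  have hP : K < YP := by
    rcases eq_or_lt_of_le hK with rfl | hK'
    · exact YP_pos C hn
    · exact dropL C hn hK' hKH (h hK')
  have gP := mul_gap n0 hP
  have eP := C.yP
  have gK : 0 ≤ n * K := mul_nonneg n0.le hK
  have gAB := mul_gap n0 (C.AB K hK hKH)
  refine ⟨by omega, gK, by omega, ?_, ?_, ?_, ?_, ?_⟩
  · intro Z h1 h2
    have r := rowU C.toCoarse hK hKH h1 (by omega)
    have e1 : D.a Z = n * A K := by
      rcases r.2.2.1 with h3 | ⟨-, -, h3, h4⟩
      · exact h3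
      · have := h h3; omega
    refine ⟨r.2.1, e1, by omega, ?_⟩
    unfold gL
    rw [if_pos (by omega)]
  · intro Z h1 h2 h3
    have hK' : 0 < K := by
      by_contra hc
      have : K = 0 := by omega
      rw [this, mul_zero] at h3
      omega
    have r := rowD C.toCoarse hK' hKH.le (Z := Z) (by omega) h3
    have g := mul_gap n0 (h hK')
    refine ⟨r.2.1, by omega, ?_⟩
    have := D.ab Z r.1 r.2.1
    omega
  · intro y h1 h2
    rw [C.cl y (by omega) (by have := D.P1; omega), if_pos (by omega),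
      (div_rng (k := K) n0 (by omega) (by omega)).1]
  · intro y h1 h2 h3
    have hK' : 0 < K := by
      by_contra hc
      have : K = 0 := by omega
      rw [this, mul_zero] at h2
      omega
    have e0 : n * K = n * (K - 1) + n := by ring
    rw [C.cl y (by omega) (by have := D.P1; omega), if_pos (by omega),
      (div_rng (k := K - 1) n0 (by omega) (by omega)).1, if_neg (by omega)]
  · rcases eq_or_lt_of_le hK with hK' | hK'
    · left
      rw [← hK', mul_zero]
      exact ⟨rfl, by simp⟩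
    · right
      have := mul_gap n0 hK'
      rw [mul_zero] at this
      omega

/-- `(A (K - 1), K)`, the top or a rise -/
lemma lse (hK : 0 < K) (hKH : K ≤ H) (h : K < H → A (K - 1) < A K) :
    LSE D (n * A (K - 1)) (n * K) (n / 2) (if K ≤ YP then ll else lu) (CL (K - 1))
      (if K = H then D.ct else CL K) := by
  have n0 : 0 < n := by omega
  have hP : YP ≤ K := by
    rcases eq_or_lt_of_le hKH with hK' | hK'
    · rw [hK']; exact YP_le C hn
    · exact riseL C hn hK hK' (h hK')
  have gP : n * YP ≤ n * K := mul_le_mul_of_nonneg_left hP n0.le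
  have eP := C.yP
  have gK := mul_gap n0 hK
  rw [mul_zero] at gK
  have gH : n * K ≤ n * H := mul_le_mul_of_nonneg_left hKH n0.le
  have hh := C.hh
  have gAB := mul_gap n0 (C.AB (K - 1) (by omega) (by omega))
  have e0 : n * K = n * (K - 1) + n := by ring
  refine ⟨by omega, by omega, by omega, ?_, ?_, ?_, ?_, ?_⟩
  · intro Z h1 h2
    have r := rowD C.toCoarse hK hKH (Z := Z) (by omega) h2
    have e1 : D.a Z = n * A (K - 1) := by
      rcases r.2.2.1 with h3 | ⟨-, -, h3, h4⟩
      · exact h3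
      · have := h h3; omega
    refine ⟨r.1, e1, by omega, ?_⟩
    unfold gL
    by_cases c : K ≤ YP
    · have : n * K ≤ n * YP := mul_le_mul_of_nonneg_left c n0.le
      rw [if_pos (by omega), if_pos c]
    · have := mul_gap n0 (show YP < K by omega)
      rw [if_neg (by omega), if_neg c]
  · intro Z h1 h2 h3
    have hK' : K < H := by
      by_contra hc
      have : K = H := by omega
      rw [this] at h3
      omega
    have r := rowU C.toCoarse hK.le hK' (Z := Z) h3 (by omega)
    have g := mul_gap n0 (h hK')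
    have := D.ab Z r.1 r.2.1
    refine ⟨r.1, by omega, by omega⟩
  · intro y h1 h2
    rw [C.cl y (by omega) (by omega)]
    by_cases c : y + 1 < D.yP
    · rw [if_pos c, (div_rng (k := K - 1) n0 (by omega) (by omega)).1]
    · rw [if_neg c, (div_rng (k := K - 1) n0 (by omega) (by omega)).1]
  · intro y h1 h2 h3
    have hK' : K < H := by
      by_contra hc
      have : K = H := by omega
      rw [this] at h1
      omega
    rw [C.cl y (by omega) (by omega), if_neg (by omega),
      (div_rng (k := K) n0 (by omega) (by omega)).1, if_neg (by omega)]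
  · rcases eq_or_lt_of_le hKH with hK' | hK'
    · left
      rw [if_pos hK']
      exact ⟨by rw [hK', hh], rfl⟩
    · right
      have := mul_gap n0 hK'
      omega

/-- `(A (K - 1), K)`, a drop -/
lemma lsw (hK : 0 < K) (hKH : K < H) (h : A K < A (K - 1)) :
    LSW D (n * A (K - 1)) (n * K) (n / 2) ll (CL (K - 1)) := by
  have n0 : 0 < n := by omega
  have gP := mul_gap n0 (dropL C hn hK hKH h)
  have eP := C.yP
  have gK := mul_gap n0 hK
  rw [mul_zero] at gK
  have g := mul_gap n0 h
  have gAB := mul_gap n0 (C.AB (K - 1) (by omega) (by omega))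
  have gov : A (K - 1) < B K := by
    have := C.ov1 (K - 1) (by omega) (by omega); rwa [sub_add_cancel] at this
  have gov' := mul_gap n0 gov
  have e0 : n * K = n * (K - 1) + n := by ring
  refine ⟨by omega, by omega, by omega, ?_, ?_, ?_⟩
  · intro Z h1 h2
    have r := rowD C.toCoarse hK hKH.le (Z := Z) (by omega) h2
    refine ⟨r.1, by omega, by omega, ?_⟩
    unfold gL
    rw [if_pos (by omega)]
  · intro Z h1 h2
    have r := rowU C.toCoarse hK.le hKH (Z := Z) h1 (by omega)
    exact ⟨r.2.1, by omega, by omega⟩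
  · intro y h1 h2
    rw [C.cl y (by omega) (by have := D.P1; omega), if_pos (by omega),
      (div_rng (k := K - 1) n0 (by omega) (by omega)).1]

/-- `(A K, K)`, a rise -/
lemma lnw (hK : 0 < K) (hKH : K < H) (h : A (K - 1) < A K) :
    LNW D (n * A K) (n * K) (n / 2) lu (CL K) := by
  have n0 : 0 < n := by omega
  have gP : n * YP ≤ n * K := mul_le_mul_of_nonneg_left (riseL C hn hK hKH h) n0.le
  have eP := C.yP
  have gK := mul_gap n0 hK
  rw [mul_zero] at gK
  have gH := mul_gap n0 hKH
  have hh := C.hh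
  have g := mul_gap n0 h
  have gAB := mul_gap n0 (C.AB K (by omega) (by omega))
  have gov : A K < B (K - 1) := by
    have := C.ov2 (K - 1) (by omega) (by omega); rwa [sub_add_cancel] at this
  have gov' := mul_gap n0 gov
  have e0 : n * K = n * (K - 1) + n := by ring
  refine ⟨by omega, by omega, by omega, ?_, ?_, ?_⟩
  · intro Z h1 h2
    have r := rowU C.toCoarse hK.le hKH (Z := Z) h1 (by omega)
    refine ⟨r.1, by omega, by omega, ?_⟩
    unfold gL
    rw [if_neg (by omega)]
  · intro Z h1 h2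
    have r := rowD C.toCoarse hK hKH.le (Z := Z) (by omega) h2
    exact ⟨r.1, by omega, by omega⟩
  · intro y h1 h2
    rw [C.cl y (by omega) (by omega), if_neg (by omega),
      (div_rng (k := K) n0 (by omega) (by omega)).1]

/-- `(B K, K)`, the bottom or a rise -/
lemma rnw (hK : 0 ≤ K) (hKH : K < H) (h : 0 < K → B (K - 1) < B K) :
    RNW D (n * B K) (n * K) (n / 2) (if K < YQ then rl else ru) (CR K)
      (if K = 0 then D.cb else CR (K - 1)) := by
  have n0 : 0 < n := by omega
  have hQ : K ≤ YQ := by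
    rcases eq_or_lt_of_le hK with rfl | hK'
    · exact YQ_nonneg C hn
    · exact riseR C hn hK' hKH (h hK')
  have gQ : n * K ≤ n * YQ := mul_le_mul_of_nonneg_left hQ n0.le
  have eQ := C.yQ
  have gK : 0 ≤ n * K := mul_nonneg n0.le hK
  have gH := mul_gap n0 hKH
  have hh := C.hh
  have gAB := mul_gap n0 (C.AB K hK hKH)
  refine ⟨by omega, gK, by omega, ?_, ?_, ?_, ?_, ?_⟩
  · intro Z h1 h2
    have r := rowU C.toCoarse hK hKH h1 (by omega)
    have e1 : D.b Z = n * B K := by
      rcases r.2.2.2 with h3 | ⟨-, -, h3, h4⟩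
      · exact h3
      · have := h h3; omega
    refine ⟨r.2.1, e1, by omega, ?_⟩
    unfold gR
    by_cases c : K < YQ
    · have := mul_gap n0 c
      rw [if_pos (by omega), if_pos c]
    · have : n * YQ ≤ n * K := mul_le_mul_of_nonneg_left (by omega) n0.le
      rw [if_neg (by omega), if_neg c]
  · intro Z h1 h2 h3
    have hK' : 0 < K := by
      by_contra hc
      have : K = 0 := by omega
      rw [this, mul_zero] at h3
      omega
    have r := rowD C.toCoarse hK' hKH.le (Z := Z) (by omega) h3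
    have g := mul_gap n0 (h hK')
    refine ⟨r.2.1, by omega, ?_⟩
    have := D.ab Z r.1 r.2.1
    omega
  · intro y h1 h2
    rw [C.cr y (by omega) (by omega)]
    by_cases c : y < D.yQ
    · rw [if_pos c, (div_rng (k := K) n0 (by omega) (by omega)).1]
    · rw [if_neg c, (div_rng (k := K) n0 (by omega) (by omega)).1]
  · intro y h1 h2 h3
    have hK' : 0 < K := by
      by_contra hc
      have : K = 0 := by omega
      rw [this, mul_zero] at h2
      omega
    have e0 : n * K = n * (K - 1) + n := by ring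
    rw [C.cr y (by omega) (by omega), if_pos (by omega),
      (div_rng (k := K - 1) n0 (by omega) (by omega)).1, if_neg (by omega)]
  · rcases eq_or_lt_of_le hK with hK' | hK'
    · left
      rw [← hK', mul_zero]
      exact ⟨rfl, by simp⟩
    · right
      have := mul_gap n0 hK'
      rw [mul_zero] at this
      omega

/-- `(B (K - 1), K)`, the top or a drop -/
lemma rsw (hK : 0 < K) (hKH : K ≤ H) (h : K < H → B K < B (K - 1)) :
    RSW D (n * B (K - 1)) (n * K) (n / 2) ru (CR (K - 1)) (if K = H then D.ct else CR K) := by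
  have n0 : 0 < n := by omega
  have hQ : YQ < K := by
    rcases eq_or_lt_of_le hKH with hK' | hK'
    · rw [hK']; exact YQ_lt C hn
    · exact dropR C hn hK hK' (h hK')
  have gQ := mul_gap n0 hQ
  have eQ := C.yQ
  have Q0 := D.Q0
  have gK := mul_gap n0 hK
  rw [mul_zero] at gK
  have gH : n * K ≤ n * H := mul_le_mul_of_nonneg_left hKH n0.le
  have hh := C.hh
  have gAB := mul_gap n0 (C.AB (K - 1) (by omega) (by omega))
  have e0 : n * K = n * (K - 1) + n := by ring
  refine ⟨by omega, by omega, by omega, ?_, ?_, ?_, ?_, ?_⟩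
  · intro Z h1 h2
    have r := rowD C.toCoarse hK hKH (Z := Z) (by omega) h2
    have e1 : D.b Z = n * B (K - 1) := by
      rcases r.2.2.2 with h3 | ⟨-, -, h3, h4⟩
      · exact h3
      · have := h h3; omega
    refine ⟨r.1, e1, by omega, ?_⟩
    unfold gR
    rw [if_neg (by omega)]
  · intro Z h1 h2 h3
    have hK' : K < H := by
      by_contra hc
      have : K = H := by omega
      rw [this] at h3
      omega
    have r := rowU C.toCoarse hK.le hK' (Z := Z) h3 (by omega)
    have g := mul_gap n0 (h hK')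
    have := D.ab Z r.1 r.2.1
    refine ⟨r.1, by omega, by omega⟩
  · intro y h1 h2
    rw [C.cr y (by omega) (by omega), if_neg (by omega),
      (div_rng (k := K - 1) n0 (by omega) (by omega)).1]
  · intro y h1 h2 h3
    have hK' : K < H := by
      by_contra hc
      have : K = H := by omega
      rw [this] at h1
      omega
    rw [C.cr y (by omega) (by omega), if_neg (by omega),
      (div_rng (k := K) n0 (by omega) (by omega)).1, if_neg (by omega)]
  · rcases eq_or_lt_of_le hKH with hK' | hK'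
    · left
      rw [if_pos hK']
      exact ⟨by rw [hK', hh], rfl⟩
    · right
      have := mul_gap n0 hK'
      omega

/-- `(B (K - 1), K)`, a rise -/
lemma rse (hK : 0 < K) (hKH : K < H) (h : B (K - 1) < B K) :
    RSE D (n * B (K - 1)) (n * K) (n / 2) rl (CR (K - 1)) := by
  have n0 : 0 < n := by omega
  have gQ : n * K ≤ n * YQ := mul_le_mul_of_nonneg_left (riseR C hn hK hKH h) n0.le
  have eQ := C.yQ
  have gK := mul_gap n0 hK
  rw [mul_zero] at gK
  have gH := mul_gap n0 hKH
  have hh := C.hh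
  have g := mul_gap n0 h
  have gAB := mul_gap n0 (C.AB (K - 1) (by omega) (by omega))
  have gov : A K < B (K - 1) := by
    have := C.ov2 (K - 1) (by omega) (by omega); rwa [sub_add_cancel] at this
  have gov' := mul_gap n0 gov
  have e0 : n * K = n * (K - 1) + n := by ring
  refine ⟨by omega, by omega, by omega, ?_, ?_, ?_⟩
  · intro Z h1 h2
    have r := rowD C.toCoarse hK hKH.le (Z := Z) (by omega) h2
    refine ⟨r.1, by omega, by omega, ?_⟩
    unfold gR
    rw [if_pos (by omega)]
  · intro Z h1 h2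
    have r := rowU C.toCoarse hK.le hKH (Z := Z) h1 (by omega)
    exact ⟨r.2.1, by omega, by omega⟩
  · intro y h1 h2
    rw [C.cr y (by omega) (by omega), if_pos (by omega),
      (div_rng (k := K - 1) n0 (by omega) (by omega)).1]

/-- `(B K, K)`, a drop -/
lemma rne (hK : 0 < K) (hKH : K < H) (h : B K < B (K - 1)) :
    RNE D (n * B K) (n * K) (n / 2) ru (CR K) := by
  have n0 : 0 < n := by omega
  have gQ := mul_gap n0 (dropR C hn hK hKH h)
  have eQ := C.yQ
  have Q0 := D.Q0
  have gK := mul_gap n0 hK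
  rw [mul_zero] at gK
  have gH := mul_gap n0 hKH
  have hh := C.hh
  have g := mul_gap n0 h
  have gAB := mul_gap n0 (C.AB K (by omega) (by omega))
  have gov : A (K - 1) < B K := by
    have := C.ov1 (K - 1) (by omega) (by omega); rwa [sub_add_cancel] at this
  have gov' := mul_gap n0 gov
  have e0 : n * K = n * (K - 1) + n := by ring
  refine ⟨by omega, by omega, by omega, ?_, ?_, ?_⟩
  · intro Z h1 h2
    have r := rowU C.toCoarse hK.le hKH (Z := Z) h1 (by omega)
    refine ⟨r.1, by omega, by omega, ?_⟩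
    unfold gR
    rw [if_neg (by omega)]
  · intro Z h1 h2
    have r := rowD C.toCoarse hK hKH.le (Z := Z) (by omega) h2
    exact ⟨r.1, by omega, by omega⟩
  · intro y h1 h2
    rw [C.cr y (by omega) (by omega), if_neg (by omega),
      (div_rng (k := K) n0 (by omega) (by omega)).1]

/-- **Every corner of the polyomino** -/
theorem loc_of (p : Bool) (s : Finset Gr) (h : CorL H A X K ∨ CorR H B X K) :
    ∃ (σ τ : Bool) (α β : ℤ), (0 ≤ α ∧ α ≤ 1 ∧ 0 ≤ β ∧ β ≤ 1) ∧
      ((∃ ys cv ch, LocV D p s σ τ (n * X) (n * K) (n / 2) α β ys cv ch) ∨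
        ∃ cc, LocX D p s σ τ (n * X) (n * K) (n / 2) α β cc) := by
  have hM : 60 ≤ n / 2 := by omega
  have a01 : ∀ g g' : Gr, 0 ≤ al s g ∧ al s g ≤ 1 ∧ 0 ≤ al s g' ∧ al s g' ≤ 1 := fun g g' =>
    ⟨al_01.1, al_01.2, al_01.1, al_01.2⟩
  rcases h with ⟨h0, h1, h2, h3⟩ | ⟨h0, h1, h2, h3⟩
  · rcases h2 with ⟨rfl, h4⟩ | ⟨rfl, h4⟩
    · by_cases hK : K = 0
      · exact ⟨_, _, _, _, a01 _ _, Or.inl ⟨_, _, _, (lne C hn h0 h4 (fun h => absurd h (by omega))).loc hM⟩⟩
      · rcases lt_or_gt_of_ne (h3 (by omega) h4) with h5 | h5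
        · exact ⟨_, _, _, _, a01 _ _, Or.inr ⟨_, (lnw C hn (by omega) h4 h5).loc hM⟩⟩
        · exact ⟨_, _, _, _, a01 _ _, Or.inl ⟨_, _, _, (lne C hn h0 h4 (fun _ => h5)).loc hM⟩⟩
    · by_cases hK : K = H
      · exact ⟨_, _, _, _, a01 _ _, Or.inl ⟨_, _, _, (lse C hn h4 h1 (fun h => absurd h (by omega))).loc hM⟩⟩
      · rcases lt_or_gt_of_ne (h3 h4 (by omega)) with h5 | h5
        · exact ⟨_, _, _, _, a01 _ _, Or.inl ⟨_, _, _, (lse C hn h4 h1 (fun _ => h5)).loc hM⟩⟩
        · exact ⟨_, _, _, _, a01 _ _, Or.inr ⟨_, (lsw C hn h4 (by omega) h5).loc hM⟩⟩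
  · rcases h2 with ⟨rfl, h4⟩ | ⟨rfl, h4⟩
    · by_cases hK : K = 0
      · exact ⟨_, _, _, _, a01 _ _, Or.inl ⟨_, _, _, (rnw C hn h0 h4 (fun h => absurd h (by omega))).loc hM⟩⟩
      · rcases lt_or_gt_of_ne (h3 (by omega) h4) with h5 | h5
        · exact ⟨_, _, _, _, a01 _ _, Or.inl ⟨_, _, _, (rnw C hn h0 h4 (fun _ => h5)).loc hM⟩⟩
        · exact ⟨_, _, _, _, a01 _ _, Or.inr ⟨_, (rne C hn (by omega) h4 h5).loc hM⟩⟩
    · by_cases hK : K = H
      · exact ⟨_, _, _, _, a01 _ _, Or.inl ⟨_, _, _, (rsw C hn h4 h1 (fun h => absurd h (by omega))).loc hM⟩⟩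
      · rcases lt_or_gt_of_ne (h3 h4 (by omega)) with h5 | h5
        · exact ⟨_, _, _, _, a01 _ _, Or.inr ⟨_, (rse C hn h4 (by omega) h5).loc hM⟩⟩
        · exact ⟨_, _, _, _, a01 _ _, Or.inl ⟨_, _, _, (rsw C hn h4 h1 (fun _ => h5)).loc hM⟩⟩

end

end Pool.Agent.H14.Win
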