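import Mathlib
import Pool.Agent.H14.Win.LocC

set_option autoImplicit false
open Finset

/-! # Displacement lemma for coarse windows

`SmB` : tiles within distance `12` of a corner of the polyomino, without the outermost frame of the large
box. `NatA D n H A B p s E W` : outside of the small tiles the random labels `E` and the open labels `W` are those
of the natural window of the world `p` pushed by `s`. `disp_win` : the potentials of two such environments on a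
rectangle of random tiles differ by at most `C n ^ (-1/3 - α)` at distance `η n` from the boundary of the
rectangle. -/

namespace Pool.Agent.H14.Win

open Pool.Agent.H75.Perc hiding ph
open Pool.Agent.H75.TwoArm Pool.Agent.H75.Four Pool.Agent.H69.Q1
open Pool.Agent.Q1 Pool.Agent.Q1.M6c
open Pool.Agent.H33.Q1 (lt tt tv tf lt_inj tt_lt lt_odd lt_tt)
open Pool.Agent.H14.R45 (od od_sub lt_mem_od)
open Pool.Agent.H74.R45 (Pot RT lt_mem_RT exists_pot)
open Pool.Agent.H46.Sp (Win)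
open Pool.Agent.H74.Win (PT EP EP_iff natc sh OutB GB InB TB mem_TB TB_sub mem_GB odd_GB XB XB_E inc_tile CorL CorR
  mul_gap)
open Pool.Agent.H31.Sp (Coarse CoarseC)
open Pool.Agent.H44.FM.WG (Gr)

variable {D : Win} {n H : ℤ} {A B : ℤ → ℤ} {YP YQ : ℤ} {CL CR : ℤ → Bool} {p : Bool} {s : Finset Gr}
  {E W E' W' S : Finset (ℤ × ℤ)} {X K x y : ℤ}

/-- small tiles -/
def SmB (D : Win) (n H : ℤ) (A B : ℤ → ℤ) (x y : ℤ) : Prop :=
  ∃ X K, (CorL H A X K ∨ CorR H B X K) ∧ SQ D (n * X) (n * K) x y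

/-- labels which are natural outside of the small tiles -/
structure NatA (D : Win) (n H : ℤ) (A B : ℤ → ℤ) (p : Bool) (s : Finset Gr) (E W : Finset (ℤ × ℤ)) :
    Prop where
  E : ∀ x y, ¬ SmB D n H A B x y → (lt (x, y) ∈ E ↔ EP D s x (y + sh p))
  W : ∀ x y, ¬ SmB D n H A B x y → InB D x y → ¬ EP D s x (y + sh p) →
    (lt (x, y) ∈ W ↔ natc D p x y = true)

lemma NatA.natC (N : NatA D n H A B p s E W) (hn : 200 ≤ n) :
    NatC D p s (n * X) (n * K) (n / 2) E W := by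
  have n0 : 0 < n := by omega
  have key : ∀ x y, n * X - n / 2 ≤ x → x ≤ n * X + n / 2 → n * K - n / 2 ≤ y → y ≤ n * K + n / 2 →
      ¬ SQ D (n * X) (n * K) x y → ¬ SmB D n H A B x y := by
    rintro x y h1 h2 h3 h4 h5 ⟨X', K', -, h7⟩
    have h8 := h7
    unfold SQ at h8
    have eX : X' = X := by
      rcases lt_trichotomy X' X with h | h | h
      · have := mul_gap n0 h; omega
      · exact h
      · have := mul_gap n0 h; omega
    have eK : K' = K := by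
      rcases lt_trichotomy K' K with h | h | h
      · have := mul_gap n0 h; omega
      · exact h
      · have := mul_gap n0 h; omega
    rw [eX, eK] at h7
    exact h5 h7
  exact ⟨fun x y h1 h2 h3 h4 h5 => N.E x y (key x y h1 h2 h3 h4 h5),
    fun x y h1 h2 h3 h4 h5 => N.W x y (key x y h1 h2 h3 h4 h5)⟩

/-- replace the labels of `S` -/
def rp (S E E' : Finset (ℤ × ℤ)) : Finset (ℤ × ℤ) := (E \ S) ∪ (E' ∩ S)

lemma mem_rp {l : ℤ × ℤ} : l ∈ rp S E E' ↔ (l ∈ S ∧ l ∈ E') ∨ (l ∉ S ∧ l ∈ E) := by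
  unfold rp
  rw [mem_union, mem_sdiff, mem_inter]
  tauto

lemma rp_sub {G : Finset (ℤ × ℤ)} (h : E ⊆ G) (h' : E' ⊆ G) : rp S E E' ⊆ G := by
  intro l hl
  rcases mem_rp.1 hl with h1 | h1
  · exact h' h1.2
  · exact h h1.2

lemma rp_disj (h : Disjoint E W) (h' : Disjoint E' W') : Disjoint (rp S E E') (rp S W W') := by
  rw [disjoint_left]
  intro l hl hl'
  rw [mem_rp] at hl hl'
  rcases hl with h1 | h1 <;> rcases hl' with h2 | h2
  · exact disjoint_left.1 h' h1.2 h2.2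
  · exact h2.1 h1.1
  · exact h1.1 h2.1
  · exact disjoint_left.1 h h1.2 h2.2

lemma rp_sdiff {F F' : Finset (ℤ × ℤ)} : F \ S = rp S F F' \ S := by
  ext l
  rw [mem_sdiff, mem_sdiff, mem_rp]
  tauto

lemma sub_rp {R : Finset (ℤ × ℤ)} (h : R ⊆ E) (h' : R ⊆ E') : R ⊆ rp S E E' := by
  intro l hl
  rw [mem_rp]
  by_cases hS : l ∈ S
  · exact Or.inl ⟨hS, h' hl⟩
  · exact Or.inr ⟨hS, h hl⟩

lemma rp_iff {l : ℤ × ℤ} (h : l ∉ S → (l ∈ E ↔ l ∈ E')) : l ∈ rp S E E' ↔ l ∈ E' := by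
  rw [mem_rp]
  by_cases hS : l ∈ S
  · simp only [hS, true_and, not_true_eq_false, false_and, or_false]
  · rw [h hS]
    simp only [hS, false_and, not_false_eq_true, true_and, false_or]

lemma NatA.rp (N : NatA D n H A B p s E W) (E' W' : Finset (ℤ × ℤ))
    (hc : CorL H A X K ∨ CorR H B X K) :
    NatA D n H A B p s (rp (SL D (n * X) (n * K)) E E') (rp (SL D (n * X) (n * K)) W W') := by
  have key : ∀ x y, ¬ SmB D n H A B x y → lt (x, y) ∉ SL D (n * X) (n * K) :=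
    fun x y h h1 => h ⟨X, K, hc, mem_SL.1 h1⟩
  refine ⟨fun x y h => ?_, fun x y h h1 h2 => ?_⟩
  · rw [← N.E x y h, mem_rp]
    have := key x y h
    tauto
  · rw [← N.W x y h h1 h2, mem_rp]
    have := key x y h
    tauto

/-- the root is away from the corners -/
def RootC (η : ℝ) (n H : ℤ) (A B : ℤ → ℤ) (O : OutB D) : Prop :=
  ∀ X K, (CorL H A X K ∨ CorR H B X K) →
    (((tv (vx O.c0)).1 : ℝ) + η * n ≤ (n * X : ℤ) ∨ ((n * X : ℤ) : ℝ) + η * n ≤ (tv (vx O.c0)).1 ∨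
      ((tv (vx O.c0)).2 : ℝ) + η * n ≤ (n * K : ℤ) ∨ ((n * K : ℤ) : ℝ) + η * n ≤ (tv (vx O.c0)).2)

/-- size of the polyomino -/
noncomputable def ext (H : ℤ) (A B : ℤ → ℤ) : ℤ := ∑ K ∈ Ico 0 H, (|A K| + |B K|)

lemma le_ext (h0 : 0 ≤ K) (h1 : K < H) : |A K| ≤ ext H A B ∧ |B K| ≤ ext H A B := by
  have h := single_le_sum (s := Ico 0 H) (f := fun K => |A K| + |B K|)
    (fun i _ => add_nonneg (abs_nonneg _) (abs_nonneg _)) (mem_Ico.2 ⟨h0, h1⟩)
  have e1 := abs_nonneg (A K)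
  have e2 := abs_nonneg (B K)
  unfold ext
  constructor <;> linarith

/-- the large box -/
lemma box_le (C : Coarse D n H A B) : -(n * ext H A B) - 1 ≤ D.a (D.yP - 1) ∧
    D.b D.yQ ≤ n * ext H A B + 1 := by
  have n0 := C.pos
  have P0 := D.P0
  have P1 := D.P1
  have Q0 := D.Q0
  have Q1 := D.Q1
  obtain ⟨r1, r2⟩ := C.row (y := D.yP - 1) (by omega) (by omega)
  obtain ⟨r3, r4⟩ := C.row (y := D.yQ) Q0 Q1
  have a1 := (C.a_le (y := D.yP - 1) (by omega) (by omega)).1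
  have b1 := (C.le_b (y := D.yQ) Q0 Q1).2
  have e1 := (le_ext (A := A) (B := B) r1 r2).1
  have e2 := (le_ext (A := A) (B := B) r3 r4).2
  rw [abs_le] at e1 e2
  constructor
  · have : n * (-ext H A B) ≤ n * A ((D.yP - 1) / n) := mul_le_mul_of_nonneg_left e1.1 n0.le
    rw [mul_neg] at this
    linarith
  · have : n * B (D.yQ / n) ≤ n * ext H A B := mul_le_mul_of_nonneg_left e2.2 n0.le
    linarith

/-- rectangles of tiles of the large box -/
lemma rt_side (C : Coarse D n H A B) {x0 x1 y0 y1 : ℤ} (hR : RT x0 x1 y0 y1 ⊆ GB D) (hx : x0 < x1)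
    (hy : y0 < y1) : x1 - x0 ≤ n * (2 * ext H A B + H + 12) ∧ y1 - y0 ≤ n * (2 * ext H A B + H + 12) := by
  have h1 : InB D x0 y0 := mem_GB.1 (hR (lt_mem_RT.2 ⟨le_rfl, hx, le_rfl, hy⟩))
  have h2 : InB D (x1 - 1) (y1 - 1) := mem_GB.1 (hR (lt_mem_RT.2 ⟨by omega, by omega, by omega, by omega⟩))
  have h3 := box_le C
  have h4 := C.hh
  have h5 := C.hn
  have h6 : 0 ≤ ext H A B := by
    have := (le_ext (A := A) (B := B) le_rfl C.HH).1
    exact (abs_nonneg _).trans this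
  have h7 : 0 ≤ n * ext H A B := mul_nonneg (by omega) h6
  have h8 : 0 ≤ n * H := mul_nonneg (by omega) C.HH.le
  have e : n * (2 * ext H A B + H + 12) = 2 * (n * ext H A B) + n * H + 12 * n := by ring
  unfold InB at h1 h2
  rw [e]
  omega

/-- **One corner of a coarse window** -/
theorem step_win (hAP : AP PlaneK) : ∃ α : ℝ, 0 < α ∧ ∀ (H : ℤ) (A B : ℤ → ℤ) (η : ℝ), 0 < η →
    ∃ C : ℝ, 0 < C ∧ ∃ n0 : ℕ, ∀ n : ℕ, n0 ≤ n → ∀ (D : Win) (YP YQ : ℤ) (CL CR : ℤ → Bool),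
    CoarseC D n H A B YP YQ CL CR → ∀ O : OutB D, RootC η n H A B O → ∀ (p : Bool) (s : Finset Gr)
    (E W E' W' : Finset (ℤ × ℤ)) (hE : E ⊆ GB D) (hW : W ⊆ GB D) (hd : Disjoint E W) (hE' : E' ⊆ GB D)
    (hW' : W' ⊆ GB D) (hd' : Disjoint E' W'), NatA D n H A B p s E W →
    ∀ X K : ℤ, (CorL H A X K ∨ CorR H B X K) →
    E \ SL D (n * X) (n * K) = E' \ SL D (n * X) (n * K) →
    W \ SL D (n * X) (n * K) = W' \ SL D (n * X) (n * K) →
    ∀ (x0 x1 y0 y1 : ℤ), RT x0 x1 y0 y1 ⊆ E → RT x0 x1 y0 y1 ⊆ E' →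
    ∀ HX HZ : ℤ → ℤ → ℂ, Pot (fun c => (XB O E W hE hW hd).inc c) HX x0 x1 y0 y1 →
    Pot (fun c => (XB O E' W' hE' hW' hd').inc c) HZ x0 x1 y0 y1 → ∀ x y x' y' : ℤ,
    x0 + η * n ≤ x → x + η * n ≤ x1 → y0 + η * n ≤ y → y + η * n ≤ y1 →
    x0 + η * n ≤ x' → x' + η * n ≤ x1 → y0 + η * n ≤ y' → y' + η * n ≤ y1 →
    ‖(HZ x' y' - HX x' y') - (HZ x y - HX x y)‖ ≤ C * (n : ℝ) ^ (-(1 / 3) - α) := by
  obtain ⟨α, hα, key⟩ := cnr_rect hAP
  refine ⟨α, hα, ?_⟩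
  intro H A B η hη
  by_cases hH : H ≤ 0
  · refine ⟨1, one_pos, 0, ?_⟩
    intro n _ D YP YQ CL CR C
    exact absurd C.HH (by omega)
  have hext : 0 ≤ ext H A B := by
    have := (le_ext (A := A) (B := B) le_rfl (by omega : 0 < H)).1
    exact (abs_nonneg _).trans this
  set T : ℤ := 2 * ext H A B + H + 12 with hT
  have hT12 : (12 : ℝ) ≤ T := by
    have : (12 : ℤ) ≤ T := by omega
    exact_mod_cast this
  set θ : ℝ := min (η / 2) (1 / T) with hθ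
  have hθ0 : 0 < θ := lt_min (by positivity) (by positivity)
  have hθ1 : θ ≤ η / 2 := min_le_left _ _
  have hθ2 : θ ≤ 1 / T := min_le_right _ _
  have hθ3 : θ ≤ 1 / 12 := hθ2.trans (one_div_le_one_div_of_le (by norm_num) hT12)
  obtain ⟨C, hC, n0, key⟩ := key θ hθ0
  refine ⟨C, hC, max n0 (max 200 ⌈8 / η⌉₊), ?_⟩
  intro n hn D YP YQ CL CR Cs O hroot p s E W E' W' hE hW hd hE' hW' hd' N X K hc hEE hWW x0 x1 y0 y1
    hR hR' HX HZ hX hZ x y x' y' a1 a2 a3 a4 b1 b2 b3 b4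
  have hn0 : n0 ≤ n := (le_max_left _ _).trans hn
  have hn1 : 200 ≤ n := (le_max_left _ _).trans ((le_max_right _ _).trans hn)
  have hn2 : ⌈8 / η⌉₊ ≤ n := (le_max_right _ _).trans ((le_max_right _ _).trans hn)
  have hnz : (200 : ℤ) ≤ n := by exact_mod_cast hn1
  have hnr : (200 : ℝ) ≤ n := by exact_mod_cast hn1
  have hηn : 8 ≤ η * n := by
    have h1 : 8 / η ≤ (n : ℝ) := (Nat.le_ceil _).trans (by exact_mod_cast hn2)
    rw [div_le_iff₀ hη] at h1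
    linarith
  have hθn : θ * n + 4 ≤ η * n := by
    have : θ * n ≤ η / 2 * n := mul_le_mul_of_nonneg_right hθ1 (by positivity)
    linarith
  have hx01 : x0 < x1 := by
    have : (x0 : ℝ) < x1 := by linarith
    exact_mod_cast this
  have hy01 : y0 < y1 := by
    have : (y0 : ℝ) < y1 := by linarith
    exact_mod_cast this
  obtain ⟨side1, side2⟩ := rt_side Cs.toCoarse (hR.trans hE) hx01 hy01
  have hside : ∀ {z : ℤ}, z ≤ (n : ℤ) * T → (z : ℝ) ≤ n / θ := by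
    intro z hz
    have h1 : (z : ℝ) ≤ (n : ℝ) * T := by exact_mod_cast hz
    refine h1.trans ?_
    rw [le_div_iff₀ hθ0]
    have h2 : (T : ℝ) * θ ≤ 1 := by
      calc (T : ℝ) * θ ≤ T * (1 / T) := mul_le_mul_of_nonneg_left hθ2 (by positivity)
        _ = 1 := by field_simp
    calc (n : ℝ) * T * θ = n * (T * θ) := by ring
      _ ≤ n * 1 := mul_le_mul_of_nonneg_left h2 (by positivity)
      _ = n := mul_one _
  have hL : θ * n ≤ ((n / 2 - 10 : ℤ) : ℝ) := by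
    have h1 : θ * n ≤ 1 / 12 * n := mul_le_mul_of_nonneg_right hθ3 (by positivity)
    have h2 : (n : ℝ) ≤ 2 * ((n / 2 : ℤ) : ℝ) + 1 := by
      have : (n : ℤ) ≤ 2 * (n / 2 : ℤ) + 1 := by omega
      exact_mod_cast this
    push_cast
    push_cast at h2
    linarith
  obtain ⟨σ, τ, α', β, ⟨α0, α1, β0, β1⟩, hloc⟩ := loc_of Cs hnz p s hc
  have NC := N.natC (X := X) (K := K) hnz
  obtain ⟨xa, xb, ya, yb, hcnr, hS⟩ : ∃ xa xb ya yb, Cnr σ τ (E ∪ SL D (n * X) (n * K))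
      (od (W \ SL D (n * X) (n * K) ∪ O.Wo)) (sn σ (n * X) - α') (sn τ (n * K - sh p) - β)
      ((n : ℤ) / 2 - 10) xa xb ya yb ∧
      ∀ x y, lt (rf σ x, rf τ y) ∈ SL D (n * X) (n * K) → xa ≤ x ∧ x ≤ xb ∧ ya ≤ y ∧ y ≤ yb := by
    rcases hloc with ⟨ys, cv, ch, h⟩ | ⟨cc, h⟩
    · exact h.cnr O NC
    · exact h.cnr O NC
  have hct : |(tv (ctr σ τ (sn σ (n * X) - α') (sn τ (n * K - sh p) - β))).1 - n * X| ≤ 2 ∧
      |(tv (ctr σ τ (sn σ (n * X) - α') (sn τ (n * K - sh p) - β))).2 - n * K| ≤ 2 := by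
    rw [tv_ctr.1, tv_ctr.2]
    have h1 := cp_le (P := sn σ (n * X) - α') (Q := sn τ (n * K - sh p) - β)
    have h2 := Pool.Agent.H74.Win.sh_nonneg p
    have h3 := Pool.Agent.H74.Win.sh_le p
    clear hcnr hS
    rw [abs_le, abs_le]
    cases σ <;> cases τ <;> simp only [sn_true, sn_false] at h1 ⊢ <;> omega
  refine key n hn0 D O E W E' W' (SL D (n * X) (n * K)) hE hW hd hE' hW' hd' σ τ _ _ _ xa xb ya yb
    hcnr hL SL_sub hS hEE hWW ?_ x0 x1 y0 y1 hR hR' (hside side1) (hside side2) HX HZ hX hZ x y x' y'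
    (by linarith) (by linarith) (by linarith) (by linarith) (by linarith) (by linarith) (by linarith)
    (by linarith)
  have cast2 : ∀ {u v : ℤ}, |u - v| ≤ 2 → (u : ℝ) ≤ v + 2 ∧ (v : ℝ) ≤ u + 2 := by
    intro u v h
    rw [abs_le] at h
    have h1 : u ≤ v + 2 := by omega
    have h2 : v ≤ u + 2 := by omega
    exact ⟨by exact_mod_cast h1, by exact_mod_cast h2⟩
  have c1 := cast2 hct.1
  have c2 := cast2 hct.2
  have hroot' := hroot X K hc
  simp only [Int.cast_natCast] at hroot'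
  rcases hroot' with h | h | h | h
  · exact Or.inl (by linarith [c1.2])
  · exact Or.inr (Or.inl (by linarith [c1.1]))
  · exact Or.inr (Or.inr (Or.inl (by linarith [c2.2])))
  · exact Or.inr (Or.inr (Or.inr (by linarith [c2.1])))

/-! ### All corners -/

open Classical in
/-- the corners of the polyomino -/
noncomputable def cns (H : ℤ) (A B : ℤ → ℤ) : Finset (ℤ × ℤ) :=
  (((Icc 0 H).image fun K => (A K, K)) ∪ ((Icc 0 H).image fun K => (A (K - 1), K)) ∪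
    ((Icc 0 H).image fun K => (B K, K)) ∪ ((Icc 0 H).image fun K => (B (K - 1), K))).filter
      fun c => CorL H A c.1 c.2 ∨ CorR H B c.1 c.2

lemma mem_cns {c : ℤ × ℤ} : c ∈ cns H A B ↔ CorL H A c.1 c.2 ∨ CorR H B c.1 c.2 := by
  classical
  obtain ⟨X, K⟩ := c
  unfold cns
  rw [mem_filter]
  refine ⟨fun h => h.2, fun h => ⟨?_, h⟩⟩
  simp only [mem_union, mem_image, mem_Icc, Prod.mk.injEq]
  rcases h with ⟨h1, h2, ⟨h3, -⟩ | ⟨h3, -⟩, -⟩ | ⟨h1, h2, ⟨h3, -⟩ | ⟨h3, -⟩, -⟩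
  · exact Or.inl (Or.inl (Or.inl ⟨K, ⟨h1, h2⟩, h3.symm, rfl⟩))
  · exact Or.inl (Or.inl (Or.inr ⟨K, ⟨h1, h2⟩, h3.symm, rfl⟩))
  · exact Or.inl (Or.inr ⟨K, ⟨h1, h2⟩, h3.symm, rfl⟩)
  · exact Or.inr ⟨K, ⟨h1, h2⟩, h3.symm, rfl⟩

/-- the potential of an environment on a rectangle of random tiles -/
lemma pot_rect {X : Env} {x0 x1 y0 y1 : ℤ} (hE : RT x0 x1 y0 y1 ⊆ X.E) :
    ∃ H, Pot (fun c => X.inc c) H x0 x1 y0 y1 :=
  exists_pot fun _ _ h1 h2 h3 h4 => inc_tile (hE (lt_mem_RT.2 ⟨h1, h2, h3, h4⟩))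

/-- **Displacement lemma for coarse windows** -/
theorem disp_win (hAP : AP PlaneK) : ∃ α : ℝ, 0 < α ∧ ∀ (H : ℤ) (A B : ℤ → ℤ) (η : ℝ), 0 < η →
    ∃ C : ℝ, 0 < C ∧ ∃ n0 : ℕ, ∀ n : ℕ, n0 ≤ n → ∀ (D : Win) (YP YQ : ℤ) (CL CR : ℤ → Bool),
    CoarseC D n H A B YP YQ CL CR → ∀ O : OutB D, RootC η n H A B O → ∀ (p : Bool) (s : Finset Gr)
    (E W E' W' : Finset (ℤ × ℤ)) (hE : E ⊆ GB D) (hW : W ⊆ GB D) (hd : Disjoint E W) (hE' : E' ⊆ GB D)
    (hW' : W' ⊆ GB D) (hd' : Disjoint E' W'), NatA D n H A B p s E W → NatA D n H A B p s E' W' →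
    ∀ (x0 x1 y0 y1 : ℤ), RT x0 x1 y0 y1 ⊆ E → RT x0 x1 y0 y1 ⊆ E' →
    ∀ HX HZ : ℤ → ℤ → ℂ, Pot (fun c => (XB O E W hE hW hd).inc c) HX x0 x1 y0 y1 →
    Pot (fun c => (XB O E' W' hE' hW' hd').inc c) HZ x0 x1 y0 y1 → ∀ x y x' y' : ℤ,
    x0 + η * n ≤ x → x + η * n ≤ x1 → y0 + η * n ≤ y → y + η * n ≤ y1 →
    x0 + η * n ≤ x' → x' + η * n ≤ x1 → y0 + η * n ≤ y' → y' + η * n ≤ y1 →
    ‖(HZ x' y' - HX x' y') - (HZ x y - HX x y)‖ ≤ C * (n : ℝ) ^ (-(1 / 3) - α) := by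
  obtain ⟨α, hα, step⟩ := step_win hAP
  refine ⟨α, hα, ?_⟩
  intro H A B η hη
  obtain ⟨C, hC, n0, step⟩ := step H A B η hη
  refine ⟨((cns H A B).card + 1) * C, by positivity, n0, ?_⟩
  intro n hn D YP YQ CL CR Cs O hroot p s E W E' W' hE hW hd hE' hW' hd' N N' x0 x1 y0 y1 hR hR'
    HX HZ hX hZ x y x' y' a1 a2 a3 a4 b1 b2 b3 b4
  have key : ∀ T : Finset (ℤ × ℤ), (∀ c ∈ T, CorL H A c.1 c.2 ∨ CorR H B c.1 c.2) →
      ∀ (E W E' W' : Finset (ℤ × ℤ)) (hE : E ⊆ GB D) (hW : W ⊆ GB D) (hd : Disjoint E W)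
      (hE' : E' ⊆ GB D) (hW' : W' ⊆ GB D) (hd' : Disjoint E' W'), NatA D n H A B p s E W →
      (∀ l, (∀ c ∈ T, l ∉ SL D (n * c.1) (n * c.2)) → (l ∈ E ↔ l ∈ E') ∧ (l ∈ W ↔ l ∈ W')) →
      RT x0 x1 y0 y1 ⊆ E → RT x0 x1 y0 y1 ⊆ E' →
      ∀ HX HZ : ℤ → ℤ → ℂ, Pot (fun c => (XB O E W hE hW hd).inc c) HX x0 x1 y0 y1 →
      Pot (fun c => (XB O E' W' hE' hW' hd').inc c) HZ x0 x1 y0 y1 →
      ‖(HZ x' y' - HX x' y') - (HZ x y - HX x y)‖ ≤ (T.card + 1) * C * (n : ℝ) ^ (-(1 / 3) - α) := by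
    intro T
    induction T using Finset.induction_on with
    | empty =>
      intro _ E W E' W' hE hW hd hE' hW' hd' N hag hR hR' HX HZ hX hZ
      have h0 : CorL H A (A 0) 0 ∨ CorR H B (A 0) 0 := Or.inl
        ⟨le_rfl, Cs.HH.le, Or.inl ⟨rfl, Cs.HH⟩, fun h => absurd h (lt_irrefl _)⟩
      have eE : E = E' := Finset.ext fun l => (hag l (fun c hc => absurd hc (notMem_empty c))).1
      have eW : W = W' := Finset.ext fun l => (hag l (fun c hc => absurd hc (notMem_empty c))).2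
      have := step n hn D YP YQ CL CR Cs O hroot p s E W E' W' hE hW hd hE' hW' hd' N (A 0) 0 h0
        (by rw [eE]) (by rw [eW]) x0 x1 y0 y1 hR hR' HX HZ hX hZ x y x' y' a1 a2 a3 a4 b1 b2 b3 b4
      rw [card_empty]
      push_cast
      rw [zero_add, one_mul]
      exact this
    | insert c T hcT ih =>
      intro hT E W E' W' hE hW hd hE' hW' hd' N hag hR hR' HX HZ hX hZ
      have hc := hT c (mem_insert_self c T)
      set S := SL D (n * c.1) (n * c.2) with hS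
      have hR2 : RT x0 x1 y0 y1 ⊆ rp S E E' := sub_rp hR hR'
      obtain ⟨HY, hY⟩ := pot_rect (X := XB O (rp S E E') (rp S W W') (rp_sub hE hE') (rp_sub hW hW')
        (rp_disj hd hd')) (x0 := x0) (x1 := x1) (y0 := y0) (y1 := y1) hR2
      have h1 := step n hn D YP YQ CL CR Cs O hroot p s E W (rp S E E') (rp S W W') hE hW hd
        (rp_sub hE hE') (rp_sub hW hW') (rp_disj hd hd') N c.1 c.2 hc rp_sdiff rp_sdiff x0 x1 y0 y1 hR hR2 HX HY
        hX hY x y x' y' a1 a2 a3 a4 b1 b2 b3 b4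
      have h2 := ih (fun c' hc' => hT c' (mem_insert_of_mem hc')) (rp S E E') (rp S W W') E' W'
        (rp_sub hE hE') (rp_sub hW hW') (rp_disj hd hd') hE' hW' hd' (N.rp E' W' hc) (by
          intro l hl
          have h3 : l ∉ S → (l ∈ E ↔ l ∈ E') ∧ (l ∈ W ↔ l ∈ W') := fun hlS => hag l (by
            intro c' hc'
            rcases mem_insert.1 hc' with rfl | h
            · exact hlS
            · exact hl c' h)
          exact ⟨rp_iff fun h => (h3 h).1, rp_iff fun h => (h3 h).2⟩) hR2 hR' HY HZ hY hZ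
      have e : (HZ x' y' - HX x' y') - (HZ x y - HX x y) =
          ((HY x' y' - HX x' y') - (HY x y - HX x y)) + ((HZ x' y' - HY x' y') - (HZ x y - HY x y)) := by
        ring
      rw [e, card_insert_of_notMem hcT]
      refine (norm_add_le _ _).trans ((add_le_add h1 h2).trans (le_of_eq ?_))
      push_cast
      ring
  refine key (cns H A B) (fun c hc => mem_cns.1 hc) E W E' W' hE hW hd hE' hW' hd' N ?_ hR hR' HX HZ
    hX hZ
  intro l hl
  by_cases hG : l ∈ GB D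
  · obtain ⟨u, v, rfl⟩ : ∃ u v, l = lt (u, v) := ⟨(tt l).1, (tt l).2, (lt_tt (odd_GB hG)).symm⟩
    have hs : ¬ SmB D n H A B u v := by
      rintro ⟨X, K, hc, hq⟩
      exact hl (X, K) (mem_cns.2 hc) (mem_SL.2 hq)
    have e1 := N.E u v hs
    have e2 := N'.E u v hs
    refine ⟨e1.trans e2.symm, ?_⟩
    by_cases hEP : EP D s u (v + sh p)
    · exact iff_of_false (disjoint_left.1 hd (e1.2 hEP)) (disjoint_left.1 hd' (e2.2 hEP))
    · exact (N.W u v hs (mem_GB.1 hG) hEP).trans (N'.W u v hs (mem_GB.1 hG) hEP).symm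
  · exact ⟨iff_of_false (fun h => hG (hE h)) (fun h => hG (hE' h)),
      iff_of_false (fun h => hG (hW h)) (fun h => hG (hW' h))⟩

end Pool.Agent.H14.Win
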