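import Mathlib
import Pool.Agent.H14.Win.DispW
import Pool.Agent.H74.Win.Mid
import Pool.Agent.H31.Sp.FzS

set_option autoImplicit false
open Finset

/-! # The environments to which the displacement lemma applies

`natA_of` : labels which are those of the natural window away from the corners and on the frame.
`natA_XO` : natural windows with any frozen tiles; `natA_XC2` : the middle environments of the three translations;
`natA_v0` : the window of the other world at the same place. -/

namespace Pool.Agent.H14.Win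

open Pool.Agent.H75.Perc hiding ph
open Pool.Agent.H75.TwoArm Pool.Agent.H75.Four Pool.Agent.H69.Q1
open Pool.Agent.Q1 Pool.Agent.Q1.M6c
open Pool.Agent.H33.Q1 (lt tt tv tf lt_inj tt_lt lt_odd lt_tt)
open Pool.Agent.H46.Sp (Win)
open Pool.Agent.H46.Sp.Win (a_min b_max)
open Pool.Agent.H74.Win
open Pool.Agent.H31.Sp (Coarse CoarseC fz_sm wo_off)
open Pool.Agent.H44.FM.WG (Gr)
open Pool.Agent.H44.FM.WG.Gr
open Pool.Agent.H42.Sp (Ix)

variable {D : Win} {n H : ℤ} {A B : ℤ → ℤ} {YP YQ : ℤ} {CL CR : ℤ → Bool} {p : Bool} {s : Finset Gr}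
  {E W S : Finset (ℤ × ℤ)} {X K x y Y : ℤ}

/-- random tiles of the pushed windows are near `P` -/
lemma EP_near (h : EP D s x Y) : D.a (D.yP - 1) ≤ x + 1 ∧ x ≤ D.b D.yQ ∧ -1 ≤ Y ∧ Y ≤ D.h := by
  rw [EP_al] at h
  rcases h with ⟨h1, h2, h3, h4⟩ | ⟨⟨h1, h2, h3, -⟩, -⟩ | ⟨⟨h1, h2, h3, -⟩, -⟩ |
    ⟨⟨h1, h2, h3, h4, -⟩, -⟩ | ⟨⟨h1, h2, h3, h4, -⟩, -⟩
  · have k1 := a_min (D := D) h1 h2
    have k2 := b_max (D := D) h1 h2
    omega
  · have k1 := a_min (D := D) h1 h2
    have k2 := b_max (D := D) h1 h2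
    have k3 := D.ab Y h1 h2
    omega
  · have k1 := a_min (D := D) h1 h2
    have k2 := b_max (D := D) h1 h2
    have k3 := D.ab Y h1 h2
    omega
  · have k1 := a_min (D := D) (y := Y + 1) (by omega) h2
    have k2 := b_max (D := D) (y := Y + 1) (by omega) h2
    omega
  · have k1 := a_min (D := D) (y := Y - 1) (by omega) (by omega)
    have k2 := b_max (D := D) (y := Y - 1) (by omega) (by omega)
    omega

/-- tiles which are not small are on the frame or away from the corners -/
lemma not_smB (h : ¬ SmB D n H A B x y) (hz : Zn D x y) :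
    ¬ Sm n H A B x y ∧ ¬ Sm n H A B x (y + sh p) := by
  have k1 := sh_nonneg p
  have k2 := sh_le p
  constructor
  · rintro ⟨X, K, hc, h1, h2, h3, h4⟩
    refine h ⟨X, K, hc, ?_⟩
    unfold SQ
    unfold Zn at hz
    omega
  · rintro ⟨X, K, hc, h1, h2, h3, h4⟩
    refine h ⟨X, K, hc, ?_⟩
    unfold SQ
    unfold Zn at hz
    omega

theorem natA_of (C : CoarseC D n H A B YP YQ CL CR) (h30 : 30 ≤ n)
    (hE : ∀ x y, ¬ Sm n H A B x y → ¬ Sm n H A B x (y + sh p) → Fl2 D x y →
      (lt (x, y) ∈ E ↔ lt (x, y) ∈ EO D p (gA D p s)))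
    (hE' : ∀ x y, ¬ Zn D x y → lt (x, y) ∉ E)
    (hW : ∀ x y, ¬ Sm n H A B x y → ¬ Sm n H A B x (y + sh p) → Fl2 D x y →
      lt (x, y) ∉ EO D p (gA D p s) → (lt (x, y) ∈ W ↔ lt (x, y) ∈ WO D p (gA D p s) (Snat D p)))
    (hW' : ∀ x y, ¬ Zn D x y → lt (x, y) ∉ EO D p (gA D p s) →
      (lt (x, y) ∈ W ↔ lt (x, y) ∈ WO D p (gA D p s) (Snat D p))) : NatA D n H A B p s E W := by
  have k1 := sh_nonneg p
  have k2 := sh_le p
  have key : ∀ x y, Fl2 D x y → (lt (x, y) ∈ EO D p (gA D p s) ↔ EP D s x (y + sh p)) := by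
    intro x y hf
    have := EO_flat (p := p) (s := s)
      (hf x (y + sh p) (by omega) (by omega) (by omega) (by omega))
    rwa [add_sub_cancel_right] at this
  have fr : ∀ x y, ¬ Zn D x y → ¬ EP D s x (y + sh p) ∧ lt (x, y) ∉ EO D p (gA D p s) := by
    intro x y hz
    constructor
    · intro h
      have := EP_near h
      unfold Zn at hz
      omega
    · intro h
      have := EO_near h
      unfold Zn at hz
      omega
  refine ⟨fun x y hs => ?_, fun x y hs hB hEP => ?_⟩
  · by_cases hz : Zn D x y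
    · obtain ⟨h1, h2⟩ := not_smB (p := p) hs hz
      have hf := fl2_of C h30 h1
      rw [hE x y h1 h2 hf, key x y hf]
    · exact iff_of_false (hE' x y hz) (fr x y hz).1
  · by_cases hz : Zn D x y
    · obtain ⟨h1, h2⟩ := not_smB (p := p) hs hz
      have hf := fl2_of C h30 h1
      have h3 : lt (x, y) ∉ EO D p (gA D p s) := fun h => hEP ((key x y hf).1 h)
      rw [hW x y h1 h2 hf h3, mem_WOn]
      tauto
    · rw [hW' x y hz (fr x y hz).2, mem_WOn]
      have := (fr x y hz).2
      tauto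

/-- **natural windows with any frozen tiles** -/
theorem natA_XO (C : CoarseC D n H A B YP YQ CL CR) (h30 : 30 ≤ n) (p : Bool) (s : Finset Gr)
    (hS : S ⊆ FZ D p) : NatA D n H A B p s (EO D p (gA D p s)) (WO D p (gA D p s) S) := by
  refine natA_of C h30 (fun _ _ _ _ _ => Iff.rfl) (fun x y hz h => ?_) (fun x y _ h2 _ _ => ?_)
    (fun x y hz _ => ?_)
  · have := EO_near h
    have k1 := sh_nonneg p
    have k2 := sh_le p
    unfold Zn at hz
    omega
  · exact wo_off hS Snat_sub fun h => h2 (fz_sm C h30 h)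
  · refine wo_off hS Snat_sub fun h => ?_
    have := Pool.Agent.H31.Sp.fz_box h
    have k1 := sh_nonneg p
    have k2 := sh_le p
    unfold Zn at hz
    omega

/-- **the natural windows** -/
theorem natA_XN (C : CoarseC D n H A B YP YQ CL CR) (h30 : 30 ≤ n) (p : Bool) (s : Finset Gr) :
    NatA D n H A B p s (EO D p (gA D p s)) (WO D p (gA D p s) (Snat D p)) :=
  natA_XO C h30 p s Snat_sub

/-- **the middle environments** -/
theorem natA_XC2 (C : CoarseC D n H A B YP YQ CL CR) (h30 : 30 ≤ n) {pA pB : Bool}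
    {sA sB : Finset Gr} {tx ty : ℤ} (h : Tw pA sA pB sB tx ty) :
    NatA D n H A B pA sA (EC D pB sB tx ty) (WC2 D pA sA pB sB tx ty) :=
  natA_of C h30 (fun _ _ _ _ hf => h.small_E hf) (fun _ _ hz => (h.frame_W2 hz).1)
    (fun _ _ _ _ hf _ => h.small_W2 hf) (fun _ _ hz _ => (h.frame_W2 hz).2.2)

/-- **the window of the other world at the same place** -/
theorem natA_v0 (C : CoarseC D n H A B YP YQ CL CR) (h30 : 30 ≤ n) {s : Finset Gr} (hs : s ⊆ gV) :
    NatA D n H A B true ({ce} ∪ s) (EO D false (gA D false ({fo} ∪ s)))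
      (WO D false (gA D false ({fo} ∪ s)) (Snat D false)) := by
  refine natA_of C h30 (fun x y _ _ hf => (v0_E hs hf).symm) (fun x y hz h => ?_)
    (fun x y _ _ hf h => ?_) (fun x y hz h => ?_)
  · have := EO_near h
    rw [sh_false] at this
    unfold Zn at hz
    omega
  · exact (v0_W h (fun h' => h ((v0_E hs hf).2 h'))).symm
  · refine (v0_W h (fun h' => ?_)).symm
    have := EO_near h'
    rw [sh_false] at this
    unfold Zn at hz
    omega

end Pool.Agent.H14.Win
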