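import Mathlib
import Pool.Agent.H14.Win.NatX
import Pool.Agent.Q1.M6e.ApWin
import Pool.Agent.H13.R45.Mul3

set_option autoImplicit false
open Finset

/-! # The displacement lemma on linked points

`rootC_of` : `RootC` from a root outside of the box enlarged by `N`. `PotT T F H` : `H` is a potential of `F` on
the rectangles of tiles of `T`; `potT_of_potN`. `disp_lk`, `disp_eps` : the displacement lemma for linked
points. -/

namespace Pool.Agent.H14.Win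

open Pool.Agent.H75.Perc hiding ph
open Pool.Agent.H75.TwoArm Pool.Agent.H75.Four Pool.Agent.H69.Q1
open Pool.Agent.Q1 Pool.Agent.Q1.M6c
open Pool.Agent.H33.Q1 (lt tt tv tf lt_inj tt_lt lt_odd lt_tt)
open Pool.Agent.H74.R45 (Pot RT lt_mem_RT mem_RT ve he)
open Pool.Agent.H46.Sp (Win)
open Pool.Agent.H46.Sp.Win (a_min b_max m_le_a b_le_M m_le_a' b_le_M' m_lt_M)
open Pool.Agent.H74.Win
open Pool.Agent.H31.Sp (Coarse CoarseC)
open Pool.Agent.H44.FM.WG (Gr)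
open Pool.Agent.Q1.M6e (Lk potW_rect)
open Pool.Agent.H13.R45 (Ag OutF ag_ve ag_he corner_cases)

variable {D : Win} {n H : ℤ} {A B : ℤ → ℤ} {YP YQ : ℤ} {CL CR : ℤ → Bool} {p : Bool} {s : Finset Gr}
  {E W S : Finset (ℤ × ℤ)} {X K x y Y : ℤ} {O : OutB D}

/-- the corners are in the bounding box -/
lemma cor_box (C : Coarse D n H A B) (hc : CorL H A X K ∨ CorR H B X K) :
    D.a (D.yP - 1) ≤ n * X ∧ n * X ≤ D.b D.yQ ∧ 0 ≤ n * K ∧ n * K ≤ D.h := by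
  have n0 := C.pos
  have h8 := C.hn
  have hh := C.hh
  have hK : 0 ≤ K ∧ K ≤ H := by
    rcases hc with ⟨h1, h2, -⟩ | ⟨h1, h2, -⟩ <;> exact ⟨h1, h2⟩
  have k1 : 0 ≤ n * K := mul_nonneg n0.le hK.1
  have k2 : n * K ≤ n * H := mul_le_mul_of_nonneg_left hK.2 n0.le
  have up : K < H → D.a (D.yP - 1) ≤ n * A K ∧ n * B K ≤ D.b D.yQ ∧ n * A K < n * B K := by
    intro hKH
    have r := rowU C hK.1 hKH (Z := n * K + 1) (by omega) (by omega)
    have k3 := a_min (D := D) r.1 r.2.1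
    have k4 := b_max (D := D) r.1 r.2.1
    have k5 := mul_gap n0 (C.AB K hK.1 hKH)
    omega
  have dn : 0 < K → D.a (D.yP - 1) ≤ n * A (K - 1) ∧ n * B (K - 1) ≤ D.b D.yQ ∧
      n * A (K - 1) < n * B (K - 1) := by
    intro h0
    have r := rowD C h0 hK.2 (Z := n * K - 2) (by omega) (by omega)
    have k3 := a_min (D := D) r.1 r.2.1
    have k4 := b_max (D := D) r.1 r.2.1
    have k5 := mul_gap n0 (C.AB (K - 1) (by omega) (by omega))
    omega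
  refine ⟨?_, ?_, k1, by omega⟩
  · rcases hc with ⟨-, -, ⟨rfl, h3⟩ | ⟨rfl, h3⟩, -⟩ | ⟨-, -, ⟨rfl, h3⟩ | ⟨rfl, h3⟩, -⟩
    · exact (up h3).1
    · exact (dn h3).1
    · have := up h3; omega
    · have := dn h3; omega
  · rcases hc with ⟨-, -, ⟨rfl, h3⟩ | ⟨rfl, h3⟩, -⟩ | ⟨-, -, ⟨rfl, h3⟩ | ⟨rfl, h3⟩, -⟩
    · have := up h3; omega
    · have := dn h3; omega
    · exact (up h3).2.1
    · exact (dn h3).2.1

/-- **the root is away from the corners** -/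
theorem rootC_of (C : Coarse D n H A B) {N : ℤ} {η : ℝ}
    (hroot : ∀ g, Ag g O.c0 → OutF (D.a (D.yP - 1) - N + 1) (D.b D.yQ + N) (-N + 1) (D.h + N) g)
    (hη : η * n ≤ N - 2) : RootC η n H A B O := by
  have key : (tv (vx O.c0)).1 + (N - 2) ≤ D.a (D.yP - 1) ∨ D.b D.yQ + (N - 2) ≤ (tv (vx O.c0)).1 ∨
      (tv (vx O.c0)).2 + (N - 2) ≤ 0 ∨ D.h + (N - 2) ≤ (tv (vx O.c0)).2 := by
    rcases corner_cases O.c0 with ⟨x, y, hc⟩ | ⟨x, y, hc⟩
    · have h1 := hroot (x, y) (by rw [hc, ag_ve]; exact Or.inl rfl)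
      rw [hc]
      unfold OutF at h1
      unfold tv vx ve
      dsimp only at h1 ⊢
      omega
    · have h1 := hroot (x, y) (by rw [hc, ag_he]; exact Or.inl rfl)
      rw [hc]
      unfold OutF at h1
      unfold tv vx he
      dsimp only at h1 ⊢
      omega
  intro X K hc
  obtain ⟨b1, b2, b3, b4⟩ := cor_box C hc
  have cst : ∀ {u v : ℤ}, u + (N - 2) ≤ v → (u : ℝ) + η * n ≤ v := by
    intro u v h
    have : (u : ℝ) + (N - 2) ≤ v := by exact_mod_cast h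
    linarith
  rcases key with h | h | h | h
  · exact Or.inl (cst (by omega))
  · exact Or.inr (Or.inl (cst (by omega)))
  · exact Or.inr (Or.inr (Or.inl (cst (by omega))))
  · exact Or.inr (Or.inr (Or.inr (cst (by omega))))

lemma RootC.mono {η θ : ℝ} (h : RootC η n H A B O) (hn : 0 ≤ n) (hθ : θ ≤ η) : RootC θ n H A B O := by
  intro X K hc
  have hn' : (0 : ℝ) ≤ n := by exact_mod_cast hn
  have := mul_le_mul_of_nonneg_right hθ hn'
  rcases h X K hc with h | h | h | h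
  · exact Or.inl (by linarith)
  · exact Or.inr (Or.inl (by linarith))
  · exact Or.inr (Or.inr (Or.inl (by linarith)))
  · exact Or.inr (Or.inr (Or.inr (by linarith)))

/-! ### Potentials on rectangles of tiles of `T` -/

/-- `H` is a potential of `F` on the rectangles of tiles of `T` -/
def PotT (T : ℤ → ℤ → Prop) (F : ℤ × ℤ → ℂ) (H : ℤ → ℤ → ℂ) : Prop :=
  ∀ x0 x1 y0 y1 : ℤ, x0 ≤ x1 → y0 ≤ y1 →
    (∀ x y, x0 - 1 ≤ x → x ≤ x1 → y0 - 1 ≤ y → y ≤ y1 → T x y) → Pot F H x0 x1 y0 y1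

lemma PotT.mono {T T' : ℤ → ℤ → Prop} {F : ℤ × ℤ → ℂ} {G : ℤ → ℤ → ℂ} (h : PotT T F G)
    (hT : ∀ x y, T' x y → T x y) : PotT T' F G :=
  fun x0 x1 y0 y1 h1 h2 h3 => h x0 x1 y0 y1 h1 h2 fun x y a b c d => hT x y (h3 x y a b c d)

theorem potT_of_potN {F : ℤ × ℤ → ℂ} {G : ℤ → ℤ → ℂ} (h : PotN D p F G) : PotT (InP D p) F G := by
  intro x0 x1 y0 y1 h1 h2 key
  have g1 := key (x0 - 1) (y0 - 1) le_rfl (by omega) le_rfl (by omega)
  have g2 := key (x0 - 1) y1 le_rfl (by omega) (by omega) le_rfl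
  refine potW_rect h (by have := g1.1; omega) (by have := g2.2.1; omega) (fun y e1 e2 => ?_)
    (fun y e1 e2 => ?_)
  · obtain ⟨-, -, u3, -⟩ := key (x0 - 1) y le_rfl (by omega) (by omega) (by omega)
    obtain ⟨u0, u1, -, u4⟩ := key x1 y (by omega) le_rfl (by omega) (by omega)
    have k1 := m_le_a' (D := D) (y := y + sh p - 1) (by omega)
    have k2 := b_le_M' (D := D) (y := y + sh p - 1) (by omega)
    rw [sub_add_cancel] at k1 k2
    show D.m (y + sh p - 1) ≤ _ ∧ _ ≤ D.M (y + sh p - 1)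
    omega
  · obtain ⟨-, -, u3, -⟩ := key (x0 - 1) y le_rfl (by omega) (by omega) (by omega)
    obtain ⟨-, -, -, u4⟩ := key x1 y (by omega) le_rfl (by omega) (by omega)
    show D.a (y + sh p) ≤ _ ∧ _ ≤ D.b (y + sh p)
    omega

/-- **Displacement lemma for linked points** -/
theorem disp_lk (hAP : AP PlaneK) : ∃ α : ℝ, 0 < α ∧ ∀ (H : ℤ) (A B : ℤ → ℤ) (η : ℝ), 0 < η →
    ∃ C : ℝ, 0 < C ∧ ∃ n0 : ℕ, ∀ n : ℕ, n0 ≤ n → ∀ (D : Win) (YP YQ : ℤ) (CL CR : ℤ → Bool),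
    CoarseC D n H A B YP YQ CL CR → ∀ O : OutB D, RootC (1 / 8) n H A B O → ∀ (p : Bool)
    (s : Finset Gr) (E W E' W' : Finset (ℤ × ℤ)) (hE : E ⊆ GB D) (hW : W ⊆ GB D) (hd : Disjoint E W)
    (hE' : E' ⊆ GB D) (hW' : W' ⊆ GB D) (hd' : Disjoint E' W'), NatA D n H A B p s E W →
    NatA D n H A B p s E' W' → ∀ T : ℤ → ℤ → Prop, (∀ x y, T x y → lt (x, y) ∈ E) →
    (∀ x y, T x y → lt (x, y) ∈ E') → ∀ HX HZ : ℤ → ℤ → ℂ,
    PotT T (fun c => (XB O E W hE hW hd).inc c) HX →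
    PotT T (fun c => (XB O E' W' hE' hW' hd').inc c) HZ → ∀ a b : ℤ × ℤ, Lk T (η * n) a b →
    ‖(HX a.1 a.2 - HX b.1 b.2) - (HZ a.1 a.2 - HZ b.1 b.2)‖ ≤ C * (n : ℝ) ^ (-(1 / 3) - α) := by
  obtain ⟨α, hα, key⟩ := disp_win hAP
  refine ⟨α, hα, ?_⟩
  intro H A B η hη
  set θ : ℝ := min (η / 2) (1 / 8) with hθ
  have hθ0 : 0 < θ := lt_min (by positivity) (by norm_num)
  have hθ1 : θ ≤ η / 2 := min_le_left _ _
  have hθ2 : θ ≤ 1 / 8 := min_le_right _ _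
  obtain ⟨C, hC, n0, key⟩ := key H A B θ hθ0
  refine ⟨C, hC, max n0 ⌈4 / η⌉₊, ?_⟩
  intro n hn D YP YQ CL CR Cs O hroot p s E W E' W' hE hW hd hE' hW' hd' N N' T hT hT' HX HZ hX hZ a b
    hL
  have hn0 : n0 ≤ n := (le_max_left _ _).trans hn
  have hn2 : ⌈4 / η⌉₊ ≤ n := (le_max_right _ _).trans hn
  have hηn : 4 ≤ η * n := by
    have h1 : 4 / η ≤ (n : ℝ) := (Nat.le_ceil _).trans (by exact_mod_cast hn2)
    rw [div_le_iff₀ hη] at h1
    linarith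
  have hnn : (0 : ℝ) ≤ n := by positivity
  set k : ℤ := ⌈θ * n⌉ with hk
  have k1 : θ * n ≤ k := Int.le_ceil _
  have k2 : (k : ℝ) < θ * n + 1 := Int.ceil_lt_add_one _
  have k0 : 0 ≤ k := Int.ceil_nonneg (by positivity)
  have k3 : ((k + 1 : ℤ) : ℝ) ≤ η * n := by
    have : θ * n ≤ η / 2 * n := mul_le_mul_of_nonneg_right hθ1 hnn
    push_cast
    linarith
  have hTT : ∀ x y, min a.1 b.1 - k - 1 ≤ x → x ≤ max a.1 b.1 + k → min a.2 b.2 - k - 1 ≤ y →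
      y ≤ max a.2 b.2 + k → T x y := fun x y e1 e2 e3 e4 =>
    hL.int k3 (by omega) (by omega) (by omega) (by omega)
  have hsub : ∀ {F : Finset (ℤ × ℤ)}, (∀ x y, T x y → lt (x, y) ∈ F) →
      RT (min a.1 b.1 - k) (max a.1 b.1 + k) (min a.2 b.2 - k) (max a.2 b.2 + k) ⊆ F := by
    intro F hF e he
    obtain ⟨x, y, rfl, e1, e2, e3, e4⟩ := mem_RT.1 he
    exact hF x y (hTT x y (by omega) (by omega) (by omega) (by omega))
  have cst : ∀ {u v : ℤ}, u + k ≤ v → (u : ℝ) + θ * n ≤ v := by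
    intro u v h
    have : (u : ℝ) + k ≤ v := by exact_mod_cast h
    linarith
  have h := key n hn0 D YP YQ CL CR Cs O (hroot.mono (by positivity) hθ2) p s E W E' W' hE hW hd hE'
    hW' hd' N N' _ _ _ _ (hsub hT) (hsub hT') HX HZ
    (hX _ _ _ _ (by omega) (by omega) hTT) (hZ _ _ _ _ (by omega) (by omega) hTT) b.1 b.2 a.1 a.2
    (cst (by omega)) (cst (by omega)) (cst (by omega)) (cst (by omega)) (cst (by omega))
    (cst (by omega)) (cst (by omega)) (cst (by omega))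
  rw [← norm_neg]
  refine le_trans (le_of_eq ?_) h
  congr 1
  ring

/-- **Displacement lemma for linked points**, as an error term -/
theorem disp_eps (hAP : AP PlaneK) (H : ℤ) (A B : ℤ → ℤ) {η ε : ℝ} (hη : 0 < η) (hε : 0 < ε) :
    ∃ n0 : ℕ, ∀ n : ℕ, n0 ≤ n → ∀ (D : Win) (YP YQ : ℤ) (CL CR : ℤ → Bool),
    CoarseC D n H A B YP YQ CL CR → ∀ O : OutB D, RootC (1 / 8) n H A B O → ∀ (p : Bool)
    (s : Finset Gr) (E W E' W' : Finset (ℤ × ℤ)) (hE : E ⊆ GB D) (hW : W ⊆ GB D) (hd : Disjoint E W)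
    (hE' : E' ⊆ GB D) (hW' : W' ⊆ GB D) (hd' : Disjoint E' W'), NatA D n H A B p s E W →
    NatA D n H A B p s E' W' → ∀ T : ℤ → ℤ → Prop, (∀ x y, T x y → lt (x, y) ∈ E) →
    (∀ x y, T x y → lt (x, y) ∈ E') → ∀ HX HZ : ℤ → ℤ → ℂ,
    PotT T (fun c => (XB O E W hE hW hd).inc c) HX →
    PotT T (fun c => (XB O E' W' hE' hW' hd').inc c) HZ → ∀ a b : ℤ × ℤ, Lk T (η * n) a b →
    ‖(HX a.1 a.2 - HX b.1 b.2) - (HZ a.1 a.2 - HZ b.1 b.2)‖ ≤ ε * (n : ℝ) ^ (-(1 / 3) : ℝ) := by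
  obtain ⟨α, hα, key⟩ := disp_lk hAP
  obtain ⟨C, hC, n0, key⟩ := key H A B η hη
  have hlim : Filter.Tendsto (fun n : ℕ => C * (n : ℝ) ^ (-α)) Filter.atTop (nhds 0) := by
    have := ((tendsto_rpow_neg_atTop hα).comp tendsto_natCast_atTop_atTop).const_mul C
    rw [mul_zero] at this
    exact this
  obtain ⟨n1, hn1⟩ := Filter.eventually_atTop.1 (hlim.eventually (gt_mem_nhds hε))
  refine ⟨max n0 (max n1 1), ?_⟩
  intro n hn D YP YQ CL CR Cs O hroot p s E W E' W' hE hW hd hE' hW' hd' N N' T hT hT' HX HZ hX hZ a b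
    hL
  have h := key n ((le_max_left _ _).trans hn) D YP YQ CL CR Cs O hroot p s E W E' W' hE hW hd hE' hW'
    hd' N N' T hT hT' HX HZ hX hZ a b hL
  refine h.trans ?_
  have hn1' : 1 ≤ n := (le_max_right _ _).trans ((le_max_right _ _).trans hn)
  have hpos : (0 : ℝ) < n := by exact_mod_cast hn1'
  have h2 := hn1 n ((le_max_left _ _).trans ((le_max_right _ _).trans hn))
  rw [sub_eq_add_neg, Real.rpow_add hpos]
  have h3 : (0 : ℝ) ≤ (n : ℝ) ^ (-(1 / 3) : ℝ) := by positivity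
  calc C * ((n : ℝ) ^ (-(1 / 3) : ℝ) * (n : ℝ) ^ (-α)) = C * (n : ℝ) ^ (-α) * (n : ℝ) ^ (-(1 / 3) : ℝ) := by
        ring
    _ ≤ ε * (n : ℝ) ^ (-(1 / 3) : ℝ) := mul_le_mul_of_nonneg_right h2.le h3

end Pool.Agent.H14.Win
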