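import Mathlib
import Pool.Agent.H14.Win.NatX
import Pool.Agent.H33.Sp.NatS
import Pool.Agent.H5.FM.WinCo

set_option autoImplicit false
open Finset

/-! # The labels of a shape are natural away from the corners -/

namespace Pool.Agent.H14.Win

open Pool.Agent.H33.Q1 (lt TL)
open Pool.Agent.H46.Sp (Win)
open Pool.Agent.H74.Win
open Pool.Agent.H31.Sp (Coarse CoarseC)
open Pool.Agent.H44.FM.WG (Gr)
open Pool.Agent.H5.FM (RowF winOf winOf_coarseC tl_iff cL cR cwOf)
open Pool.Agent.H21.FM (Shape)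
open Pool.Agent.H33.Sp (ES WS mem_ES mem_WS tl_inP nac_out)

variable {S : Shape} {y0 y1 : ℤ} {a b : ℤ → ℤ} {yP yQ : ℤ} (F : RowF S.P.Q y0 y1 a b yP yQ) {n : ℕ}
  (hn : 1 ≤ n)

lemma EO_empty {D : Win} {p : Bool} {x y : ℤ} : lt (x, y) ∈ EO D p (gA D p ∅) ↔ InP D p x y := by
  rw [mem_EO]
  refine ⟨fun h => h.resolve_right ?_, Or.inl⟩
  rintro ⟨k, -, hA, -⟩
  unfold gA at hA
  exact absurd hA (notMem_empty _)

/-- **the labels of a shape** -/
theorem natA_ES (h15 : 15 ≤ n) : NatA (winOf F n hn) (2 * n) (y1 - y0) (fun Y => a (Y + y0))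
    (fun Y => b (Y + y0)) false ∅ (ES F n hn) (WS F n hn) := by
  have C := winOf_coarseC F hn (by omega : 4 ≤ n)
  have hout : ∀ x y, lt (x, y) ∉ EO (winOf F n hn) false (gA (winOf F n hn) false ∅) →
      (lt (x, y) ∈ WS F n hn ↔ lt (x, y) ∈ WO (winOf F n hn) false (gA (winOf F n hn) false ∅)
        (Snat (winOf F n hn) false)) := by
    intro x y h
    rw [mem_WS, mem_WOn]
    have h1 : ¬ InP (winOf F n hn) false x y := fun h' => h (EO_empty.2 h')
    have h2 : lt (x, y + 2 * n * y0) ∉ TL S.P.Q (2 * n) := fun h' => h1 (tl_inP h')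
    have h3 : Pool.Agent.H33.Sp.nac (cwOf F) (2 * n) x y = natc (winOf F n hn) false x y := nac_out h1
    rw [h3]
    tauto
  refine natA_of C (by omega) (fun x y hs _ _ => ?_) (fun x y hz h => ?_)
    (fun x y _ _ _ h => hout x y h) (fun x y _ h => hout x y h)
  · rw [mem_ES, EO_empty]
    refine ⟨tl_inP, fun h => ?_⟩
    by_contra hT
    obtain ⟨h1, h2, h3, h4⟩ := h
    rw [sh_false, add_zero] at h1 h2 h3 h4
    have hh := C.hh
    rw [tl_iff F hn] at hT
    have ha := C.a y h1 h2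
    have hb := C.b y h1 h2
    obtain ⟨r1, r2⟩ := C.toCoarse.row h1 h2
    have e1 := Int.emod_add_mul_ediv y (2 * (n : ℤ))
    have e2 : 2 * (n : ℤ) * (y / (2 * n) + 1) = 2 * (n : ℤ) * (y / (2 * n)) + 2 * n := by ring
    rcases lt_or_ge x (2 * (n : ℤ) * a (y / (2 * n) + y0)) with c | c
    · rcases ha with ha | ⟨ha, ⟨g1, g2, g3⟩ | ⟨g1, g2, g3⟩⟩
      · omega
      · refine hs ⟨a (y / (2 * n) + y0), y / (2 * n) + 1, Or.inl ⟨by omega, by omega, Or.inr
          ⟨by simp only [add_sub_cancel_right], by omega⟩, fun _ _ => ?_⟩, by omega, by omega, ?_, ?_⟩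
        · simp only [add_sub_cancel_right]; exact g3.ne'
        · omega
        · omega
      · refine hs ⟨a (y / (2 * n) + y0), y / (2 * n), Or.inl ⟨by omega, by omega, Or.inl
          ⟨rfl, by omega⟩, fun _ _ => g3.ne⟩, by omega, by omega, ?_, ?_⟩
        · omega
        · omega
    · rcases hb with ha | ⟨ha, ⟨g1, g2, g3⟩ | ⟨g1, g2, g3⟩⟩
      · exact hT ⟨⟨h1, by omega⟩, c, by omega⟩
      · have c2 : 2 * (n : ℤ) * b (y / (2 * n) + y0) ≤ x := by
          by_contra c3
          exact hT ⟨⟨h1, by omega⟩, c, by omega⟩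
        refine hs ⟨b (y / (2 * n) + y0), y / (2 * n) + 1, Or.inr ⟨by omega, by omega, Or.inr
          ⟨by simp only [add_sub_cancel_right], by omega⟩, fun _ _ => ?_⟩, by omega, by omega, ?_, ?_⟩
        · simp only [add_sub_cancel_right]; exact g3.ne
        · omega
        · omega
      · have c2 : 2 * (n : ℤ) * b (y / (2 * n) + y0) ≤ x := by
          by_contra c3
          exact hT ⟨⟨h1, by omega⟩, c, by omega⟩
        refine hs ⟨b (y / (2 * n) + y0), y / (2 * n), Or.inr ⟨by omega, by omega, Or.inl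
          ⟨rfl, by omega⟩, fun _ _ => g3.ne'⟩, by omega, by omega, ?_, ?_⟩
        · omega
        · omega
  · have := (tl_inP (F := F) (hn := hn) (mem_ES.1 h)).box
    unfold Zn at hz
    omega

end Pool.Agent.H14.Win
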